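import Pool.Agent.PCB.Defs

set_option autoImplicit false

namespace Pool.Agent.PCB

open Finset MeasureTheory

private theorem ABS1_inner {y : ℝ} (hy : 0 < y) :
    IntegrableOn (fun t : ℝ => (1 - Real.cos t) * (y * Real.exp (-(t * y)))) (Set.Ioi 0) ∧
    ∫ t in Set.Ioi (0 : ℝ), (1 - Real.cos t) * (y * Real.exp (-(t * y))) = (1 + y ^ 2)⁻¹ := by
  set H : ℝ → ℝ := fun t => -Real.exp (-(t * y)) +
    Real.exp (-(t * y)) * ((y ^ 2 * Real.cos t - y * Real.sin t) / (1 + y ^ 2)) with hH
  have hy2 : (1 + y ^ 2) ≠ 0 := by positivity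
  have hd : ∀ t ∈ Set.Ici (0 : ℝ), HasDerivAt H ((1 - Real.cos t) * (y * Real.exp (-(t * y)))) t := by
    intro t _
    have e1 : HasDerivAt (fun t : ℝ => Real.exp (-(t * y))) (Real.exp (-(t * y)) * (-(1 * y))) t :=
      (((hasDerivAt_id t).mul_const y).neg).exp
    have e2 : HasDerivAt (fun t : ℝ => (y ^ 2 * Real.cos t - y * Real.sin t) / (1 + y ^ 2))
        ((y ^ 2 * (-Real.sin t) - y * Real.cos t) / (1 + y ^ 2)) t :=
      (((Real.hasDerivAt_cos t).const_mul (y ^ 2)).sub ((Real.hasDerivAt_sin t).const_mul y)).div_const _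
    have e3 := e1.neg.add (e1.mul e2)
    refine e3.congr_deriv ?_
    field_simp
    ring
  have hpos : ∀ t ∈ Set.Ioi (0 : ℝ), 0 ≤ (1 - Real.cos t) * (y * Real.exp (-(t * y))) := by
    intro t _
    have := Real.cos_le_one t
    have h2 := (Real.exp_pos (-(t * y))).le
    exact mul_nonneg (by linarith) (mul_nonneg hy.le h2)
  have hexp : Filter.Tendsto (fun t : ℝ => Real.exp (-(t * y))) Filter.atTop (nhds 0) := by
    have h1 : Filter.Tendsto (fun t : ℝ => t * y) Filter.atTop Filter.atTop :=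
      Filter.tendsto_id.atTop_mul_const hy
    exact Real.tendsto_exp_neg_atTop_nhds_zero.comp h1
  have hlim : Filter.Tendsto H Filter.atTop (nhds 0) := by
    have h2 : Filter.Tendsto (fun t : ℝ => Real.exp (-(t * y)) *
        ((y ^ 2 * Real.cos t - y * Real.sin t) / (1 + y ^ 2))) Filter.atTop (nhds 0) := by
      refine squeeze_zero_norm (a := fun t : ℝ => Real.exp (-(t * y)) * ((y ^ 2 + y) / (1 + y ^ 2)))
        (fun t => ?_) ?_
      · rw [norm_mul, Real.norm_eq_abs, Real.norm_eq_abs, abs_of_pos (Real.exp_pos _), abs_div,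
          abs_of_pos (show (0 : ℝ) < 1 + y ^ 2 by positivity)]
        refine mul_le_mul_of_nonneg_left ?_ (Real.exp_pos _).le
        refine div_le_div_of_nonneg_right ?_ (by positivity)
        calc |y ^ 2 * Real.cos t - y * Real.sin t| ≤ |y ^ 2 * Real.cos t| + |y * Real.sin t| :=
              abs_sub _ _
          _ ≤ y ^ 2 + y := by
            rw [abs_mul, abs_mul, abs_of_pos hy, abs_of_nonneg (sq_nonneg y)]
            have h3 := Real.abs_cos_le_one t
            have h4 := Real.abs_sin_le_one t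
            have h5 := sq_nonneg y
            nlinarith
      · simpa using hexp.mul_const ((y ^ 2 + y) / (1 + y ^ 2))
    have := hexp.neg.add h2
    simpa [hH] using this
  refine ⟨integrableOn_Ioi_deriv_of_nonneg' hd hpos hlim, ?_⟩
  rw [integral_Ioi_of_hasDerivAt_of_nonneg' hd hpos hlim]
  simp only [hH, zero_mul, neg_zero, Real.exp_zero, Real.cos_zero, Real.sin_zero, mul_one, mul_zero,
    sub_zero, one_mul]
  field_simp
  ring

private theorem ABS1_outer {t : ℝ} (ht : 0 < t) :
    ∫ y in Set.Ioi (0 : ℝ), (1 - Real.cos t) * (y * Real.exp (-(t * y))) =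
      (1 - Real.cos t) / t ^ 2 := by
  have h := Real.integral_rpow_mul_exp_neg_mul_Ioi (a := 2) (r := t) (by norm_num) ht
  have h2 : ∫ y in Set.Ioi (0 : ℝ), y * Real.exp (-(t * y)) = 1 / t ^ 2 := by
    have e : ∀ y : ℝ, y ^ ((2 : ℝ) - 1) * Real.exp (-(t * y)) = y * Real.exp (-(t * y)) := by
      intro y
      rw [show ((2 : ℝ) - 1) = 1 by norm_num, Real.rpow_one]
    simp only [e] at h
    rw [h, Real.Gamma_two, mul_one]
    rw [show (2 : ℝ) = ((2 : ℕ) : ℝ) by norm_num, Real.rpow_natCast]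
    rw [one_div, one_div, inv_pow]
  rw [integral_const_mul, h2]
  ring

private theorem ABS1_const :
    IntegrableOn (fun t : ℝ => (1 - Real.cos t) / t ^ 2) (Set.Ioi 0) ∧
      ∫ t in Set.Ioi (0 : ℝ), (1 - Real.cos t) / t ^ 2 = Real.pi / 2 := by
  have hpos : ∀ t y : ℝ, 0 < y → 0 ≤ (1 - Real.cos t) * (y * Real.exp (-(t * y))) := by
    intro t y hy
    have := Real.cos_le_one t
    exact mul_nonneg (by linarith) (mul_nonneg hy.le (Real.exp_pos _).le)
  have hint : Integrable (Function.uncurry fun t y : ℝ => (1 - Real.cos t) * (y * Real.exp (-(t * y))))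
      ((volume.restrict (Set.Ioi (0 : ℝ))).prod (volume.restrict (Set.Ioi (0 : ℝ)))) := by
    rw [integrable_prod_iff' (by fun_prop)]
    constructor
    · filter_upwards [ae_restrict_mem measurableSet_Ioi] with y hy
      exact (ABS1_inner hy).1
    · have h1 : Integrable (fun y : ℝ => (1 + y ^ 2)⁻¹) (volume.restrict (Set.Ioi (0 : ℝ))) :=
        integrable_inv_one_add_sq.integrableOn
      refine h1.congr ?_
      filter_upwards [ae_restrict_mem measurableSet_Ioi] with y hy
      rw [← (ABS1_inner hy).2]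
      refine integral_congr_ae (Filter.Eventually.of_forall fun t => ?_)
      simp only [Function.uncurry_apply_pair]
      rw [Real.norm_of_nonneg (hpos t y hy)]
  have hswap := integral_integral_swap hint
  have hL : ∫ t in Set.Ioi (0 : ℝ), ∫ y in Set.Ioi (0 : ℝ), (1 - Real.cos t) * (y * Real.exp (-(t * y)))
      = ∫ t in Set.Ioi (0 : ℝ), (1 - Real.cos t) / t ^ 2 :=
    setIntegral_congr_fun measurableSet_Ioi fun t ht => ABS1_outer ht
  have hR : ∫ y in Set.Ioi (0 : ℝ), ∫ t in Set.Ioi (0 : ℝ), (1 - Real.cos t) * (y * Real.exp (-(t * y)))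
      = ∫ y in Set.Ioi (0 : ℝ), (1 + y ^ 2)⁻¹ :=
    setIntegral_congr_fun measurableSet_Ioi fun y hy => (ABS1_inner hy).2
  refine ⟨?_, ?_⟩
  · have h1 := hint.integral_prod_left
    refine h1.congr ?_
    filter_upwards [ae_restrict_mem measurableSet_Ioi] with t ht
    exact ABS1_outer ht
  · rw [← hL, hswap, hR, integral_Ioi_inv_one_add_sq, Real.arctan_zero, sub_zero]

private theorem ABS1_scale {a : ℝ} (ha : 0 < a) (t : ℝ) :
    (1 - Real.cos (t * a)) / t ^ 2 = a ^ 2 * ((1 - Real.cos (t * a)) / (t * a) ^ 2) := by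
  rcases eq_or_ne t 0 with rfl | ht
  · simp
  · field_simp

private theorem ABS1_cos (s t : ℝ) : Real.cos (t * s) = Real.cos (t * |s|) := by
  rcases abs_choice s with h | h <;> rw [h]
  rw [mul_neg, Real.cos_neg]

/-- ABS1 -/
theorem cos_integrable (s : ℝ) :
    IntegrableOn (fun t : ℝ => (1 - Real.cos (t * s)) / t ^ 2) (Set.Ioi 0) := by
  rcases eq_or_ne s 0 with rfl | hs
  · simp
  have ha : 0 < |s| := abs_pos.2 hs
  simp only [ABS1_cos s, ABS1_scale ha]
  have h1 := (integrableOn_Ioi_comp_mul_right_iff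
    (fun t : ℝ => (1 - Real.cos t) / t ^ 2) 0 ha).2 (by rw [zero_mul]; exact ABS1_const.1)
  exact h1.const_mul (|s| ^ 2)

/-- ABS1 -/
theorem abs_eq (s : ℝ) :
    |s| = 2 / Real.pi * ∫ t in Set.Ioi (0 : ℝ), (1 - Real.cos (t * s)) / t ^ 2 := by
  rcases eq_or_ne s 0 with rfl | hs
  · simp
  have ha : 0 < |s| := abs_pos.2 hs
  simp only [ABS1_cos s, ABS1_scale ha]
  rw [integral_const_mul, integral_comp_mul_right_Ioi (fun t : ℝ => (1 - Real.cos t) / t ^ 2) 0 ha,
    zero_mul, ABS1_const.2, smul_eq_mul]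
  have hpi := Real.pi_ne_zero
  field_simp

end Pool.Agent.PCB
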