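import Pool.Agent.PCB.ABS1

set_option autoImplicit false

namespace Pool.Agent.PCB

open Finset MeasureTheory

private theorem abs2_cos_int (μ v t : ℝ) :
    Integrable (fun x : ℝ => Real.cos (t * (μ + √v * x)))
      (ProbabilityTheory.gaussianReal 0 1) := by
  refine Integrable.of_bound (by fun_prop) 1 (ae_of_all _ fun x => ?_)
  rw [Real.norm_eq_abs]
  exact Real.abs_cos_le_one _

private theorem abs2_cos (μ v : ℝ) (hv : 0 ≤ v) (t : ℝ) :
    ∫ x, Real.cos (t * (μ + √v * x)) ∂(ProbabilityTheory.gaussianReal 0 1) =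
      Real.cos (t * μ) * Real.exp (-(t ^ 2 * v) / 2) := by
  have h := ProbabilityTheory.charFun_gaussianReal (μ := 0) (v := 1) (t * √v)
  rw [charFun_apply_real] at h
  have h1 : ∫ x : ℝ, Complex.exp (((t * μ : ℝ) : ℂ) * Complex.I) *
      Complex.exp (((t * √v : ℝ) : ℂ) * (x : ℂ) * Complex.I)
        ∂(ProbabilityTheory.gaussianReal 0 1) =
      Complex.exp (((t * μ : ℝ) : ℂ) * Complex.I) *
        ((Real.exp (-(t ^ 2 * v) / 2) : ℝ) : ℂ) := by
    rw [integral_const_mul, h]
    congr 1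
    rw [Complex.ofReal_exp]
    congr 1
    have e : ((t * √v : ℝ) : ℂ) ^ 2 = ((t ^ 2 * v : ℝ) : ℂ) := by
      rw [← Complex.ofReal_pow, mul_pow, Real.sq_sqrt hv]
    rw [e]
    push_cast
    ring
  have h2 : ∀ x : ℝ, Complex.exp (((t * μ : ℝ) : ℂ) * Complex.I) *
      Complex.exp (((t * √v : ℝ) : ℂ) * (x : ℂ) * Complex.I) =
        Complex.exp (((t * (μ + √v * x) : ℝ) : ℂ) * Complex.I) := by
    intro x
    rw [← Complex.exp_add]
    congr 1
    push_cast
    ring
  simp only [h2] at h1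
  have hint : Integrable (fun x : ℝ => Complex.exp (((t * (μ + √v * x) : ℝ) : ℂ) * Complex.I))
      (ProbabilityTheory.gaussianReal 0 1) := by
    refine Integrable.of_bound (by fun_prop) 1 (ae_of_all _ fun x => ?_)
    rw [Complex.norm_exp_ofReal_mul_I]
  have h3 := congrArg Complex.re h1
  have h4 := integral_re hint
  simp only [RCLike.re_to_complex] at h4
  rw [← h4] at h3
  simp only [Complex.exp_ofReal_mul_I_re] at h3
  rw [h3, Complex.re_mul_ofReal, Complex.exp_ofReal_mul_I_re]

private theorem abs2_nonneg (t s : ℝ) : 0 ≤ (1 - Real.cos (t * s)) / t ^ 2 :=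
  div_nonneg (by linarith [Real.cos_le_one (t * s)]) (sq_nonneg t)

private theorem abs2_meas (μ v : ℝ) : Measurable fun p : ℝ × ℝ =>
    (1 - Real.cos (p.2 * (μ + √v * p.1))) / p.2 ^ 2 := by
  refine Measurable.div ?_ (measurable_snd.pow_const 2)
  refine measurable_const.sub (Real.continuous_cos.measurable.comp ?_)
  exact measurable_snd.mul (measurable_const.add (measurable_const.mul measurable_fst))

private theorem abs2_id : Integrable (fun x : ℝ => x) (ProbabilityTheory.gaussianReal 0 1) := by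
  have h3 := ProbabilityTheory.memLp_id_gaussianReal' (μ := 0) (v := 1) 1 ENNReal.one_ne_top
  exact memLp_one_iff_integrable.1 h3

private theorem abs2_norm (μ v x : ℝ) : ∫ t in Set.Ioi (0 : ℝ),
    ‖(1 - Real.cos (t * (μ + √v * x))) / t ^ 2‖ = Real.pi / 2 * |μ + √v * x| := by
  have h2 : ∀ t : ℝ, ‖(1 - Real.cos (t * (μ + √v * x))) / t ^ 2‖ =
      (1 - Real.cos (t * (μ + √v * x))) / t ^ 2 := fun t =>
    Real.norm_of_nonneg (abs2_nonneg t _)
  simp only [h2]
  rw [abs_eq (μ + √v * x), ← mul_assoc]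
  have hpi : Real.pi ≠ 0 := Real.pi_ne_zero
  have e : Real.pi / 2 * (2 / Real.pi) = 1 := by field_simp
  rw [e, one_mul]

private theorem abs2_absint (μ v : ℝ) : Integrable (fun x : ℝ => Real.pi / 2 * |μ + √v * x|)
    (ProbabilityTheory.gaussianReal 0 1) := by
  have h1 : Integrable (fun x : ℝ => √v * x) (ProbabilityTheory.gaussianReal 0 1) :=
    abs2_id.const_mul √v
  have h2 : Integrable (fun x : ℝ => μ + √v * x) (ProbabilityTheory.gaussianReal 0 1) :=
    (integrable_const μ).add h1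
  have h3 : Integrable (fun x : ℝ => |μ + √v * x|) (ProbabilityTheory.gaussianReal 0 1) :=
    h2.abs
  exact h3.const_mul _

/-- the integrand -/
private noncomputable def abs2_f (μ v : ℝ) (x t : ℝ) : ℝ :=
  (1 - Real.cos (t * (μ + √v * x))) / t ^ 2

private theorem abs2_int (μ v : ℝ) :
    Integrable (Function.uncurry (abs2_f μ v))
      ((ProbabilityTheory.gaussianReal 0 1).prod (volume.restrict (Set.Ioi 0))) := by
  have hm : AEStronglyMeasurable (Function.uncurry (abs2_f μ v))
      ((ProbabilityTheory.gaussianReal 0 1).prod (volume.restrict (Set.Ioi 0))) :=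
    (abs2_meas μ v).aestronglyMeasurable
  rw [integrable_prod_iff hm]
  constructor
  · exact ae_of_all _ fun x => cos_integrable (μ + √v * x)
  · have h1 : (fun x : ℝ => ∫ t in Set.Ioi (0 : ℝ),
        ‖Function.uncurry (abs2_f μ v) (x, t)‖) =
        fun x => Real.pi / 2 * |μ + √v * x| := by
      funext x
      exact abs2_norm μ v x
    rw [h1]
    exact abs2_absint μ v

private theorem abs2_inner (μ v : ℝ) (hv : 0 ≤ v) (t : ℝ) :
    ∫ x, abs2_f μ v x t ∂(ProbabilityTheory.gaussianReal 0 1) =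
      (1 - Real.cos (t * μ) * Real.exp (-(t ^ 2 * v) / 2)) / t ^ 2 := by
  unfold abs2_f
  rw [integral_div, integral_sub (integrable_const _) (abs2_cos_int μ v t), abs2_cos μ v hv t]
  simp

/-- ABS2 -/
theorem F_integrable (μ v : ℝ) (hv : 0 ≤ v) :
    IntegrableOn (fun t : ℝ => (1 - Real.cos (t * μ) * Real.exp (-(t ^ 2 * v) / 2)) / t ^ 2)
      (Set.Ioi 0) := by
  have h := (abs2_int μ v).integral_prod_right
  have e : (fun t : ℝ => ∫ x, Function.uncurry (abs2_f μ v) (x, t)
      ∂(ProbabilityTheory.gaussianReal 0 1)) =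
      fun t : ℝ => (1 - Real.cos (t * μ) * Real.exp (-(t ^ 2 * v) / 2)) / t ^ 2 := by
    funext t
    exact abs2_inner μ v hv t
  rw [e] at h
  exact h

/-- ABS2 -/
theorem F_eq (μ v : ℝ) (hv : 0 ≤ v) :
    F μ v = 2 / Real.pi *
      ∫ t in Set.Ioi (0 : ℝ), (1 - Real.cos (t * μ) * Real.exp (-(t ^ 2 * v) / 2)) / t ^ 2 := by
  unfold F
  have h1 : (fun x : ℝ => |μ + √v * x|) = fun x => 2 / Real.pi *
      ∫ t in Set.Ioi (0 : ℝ), abs2_f μ v x t := by
    funext x
    exact abs_eq _
  rw [h1, integral_const_mul, integral_integral_swap (abs2_int μ v)]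
  simp only [abs2_inner μ v hv]

end Pool.Agent.PCB
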