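import Pool.Agent.PCB.Defs

set_option autoImplicit false

/-! The scheme: `y` uniform signs, `u = W y`, `x k` with mean `sin (3/5 * u k)`. -/

namespace Pool.Agent.PCB

open Finset

variable {n ι : Type} [Fintype n] [DecidableEq n] [Fintype ι] [DecidableEq ι]

/-- `u k = ∑ i, W k i * y i`. -/
noncomputable def lin (W : Matrix n ι ℝ) (k : n) (y : ι → Bool) : ℝ := ∑ i, W k i * sg (y i)

/-- The mean of `x k` given `y`. -/
noncomputable def phi (W : Matrix n ι ℝ) (y : ι → Bool) (k : n) : ℝ :=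
  Real.sin (3 / 5 * lin W k y)

/-- `μ i = ∑ k, W k i * φ k`. -/
noncomputable def mu (W : Matrix n ι ℝ) (y : ι → Bool) (i : ι) : ℝ := ∑ k, W k i * phi W y k

/-- Variance of the noise in the coordinate `i`. -/
noncomputable def Vv (W B : Matrix n ι ℝ) (y : ι → Bool) (i : ι) : ℝ :=
  ∑ k, B k i ^ 2 * (1 - phi W y k ^ 2)

/-- The mean of `1 - φ k ^ 2` over `k`. -/
noncomputable def Vb (W : Matrix n ι ℝ) (y : ι → Bool) : ℝ :=
  (∑ k, (1 - phi W y k ^ 2)) / Fintype.card n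

/-- The constant `s = a exp (-a^2/2)`, `a = 3/5`. -/
noncomputable def s0 : ℝ := 3 / 5 * Real.exp (-(9 / 50))

/-- The constant `v = (1 + exp (-2a^2))/2`, `a = 3/5`. -/
noncomputable def v0 : ℝ := (1 + Real.exp (-(18 / 25))) / 2

/-- `W` is a contraction. -/
def Contr (W : Matrix n ι ℝ) : Prop := ∀ v : ι → ℝ, ∑ k, (∑ i, W k i * v i) ^ 2 ≤ ∑ i, v i ^ 2

end Pool.Agent.PCB
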