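import Pool.Agent.PCB.Defs

set_option autoImplicit false

namespace Pool.Agent.PCB

open Finset MeasureTheory

private theorem fpr_int (μ a : ℝ) :
    Integrable (fun x : ℝ => |μ + a * x|) (ProbabilityTheory.gaussianReal 0 1) := by
  have h : Integrable (id : ℝ → ℝ) (ProbabilityTheory.gaussianReal 0 1) :=
    (ProbabilityTheory.memLp_id_gaussianReal 1).integrable le_rfl
  exact ((integrable_const μ).add (h.const_mul a)).abs

private theorem fpr_refl {f : ℝ → ℝ} (hf : Continuous f) :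
    ∫ x, f (-x) ∂(ProbabilityTheory.gaussianReal 0 1) =
      ∫ x, f x ∂(ProbabilityTheory.gaussianReal 0 1) := by
  have h : (ProbabilityTheory.gaussianReal 0 1).map (fun x => -x) =
      ProbabilityTheory.gaussianReal 0 1 := by
    rw [ProbabilityTheory.gaussianReal_map_neg, neg_zero]
  conv_rhs => rw [← h]
  rw [integral_map (by fun_prop) hf.aestronglyMeasurable]

private theorem fpr_sym (μ a : ℝ) :
    ∫ x, |μ - a * x| ∂(ProbabilityTheory.gaussianReal 0 1) =
      ∫ x, |μ + a * x| ∂(ProbabilityTheory.gaussianReal 0 1) := by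
  rw [← fpr_refl (f := fun x => |μ + a * x|) (by fun_prop)]
  refine integral_congr_ae (Filter.Eventually.of_forall fun x => ?_)
  show |μ - a * x| = |μ + a * -x|
  rw [mul_neg, sub_eq_add_neg]

/-- FPR -/
theorem F_zero : F 0 1 = √(2 / Real.pi) := by
  have h1 : F 0 1 = ∫ x : ℝ, (fun y : ℝ => (√(2 * Real.pi))⁻¹ * (y * Real.exp (-y ^ 2 / 2))) |x| := by
    unfold F
    rw [ProbabilityTheory.integral_gaussianReal_eq_integral_smul one_ne_zero]
    refine integral_congr_ae (Filter.Eventually.of_forall fun x => ?_)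
    show ProbabilityTheory.gaussianPDFReal 0 1 x • |0 + √1 * x| =
      (√(2 * Real.pi))⁻¹ * (|x| * Real.exp (-|x| ^ 2 / 2))
    rw [ProbabilityTheory.gaussianPDFReal, smul_eq_mul, zero_add, Real.sqrt_one, one_mul, sub_zero,
      sq_abs, NNReal.coe_one, mul_one, mul_one]
    ring
  have h2 : ∫ x in Set.Ioi (0 : ℝ), x * Real.exp (-x ^ 2 / 2) = 1 := by
    have h3 := _root_.integral_rpow_mul_exp_neg_mul_rpow (p := 2) (q := 1) (b := 1 / 2)
      two_pos (by norm_num) (by norm_num)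
    have h4 : ∫ x in Set.Ioi (0 : ℝ), x * Real.exp (-x ^ 2 / 2) =
        ∫ x in Set.Ioi (0 : ℝ), x ^ (1 : ℝ) * Real.exp (-(1 / 2) * x ^ (2 : ℝ)) := by
      refine setIntegral_congr_fun measurableSet_Ioi fun x _ => ?_
      show x * Real.exp (-x ^ 2 / 2) = x ^ (1 : ℝ) * Real.exp (-(1 / 2) * x ^ (2 : ℝ))
      rw [Real.rpow_one, Real.rpow_two]
      congr 2
      ring
    rw [h4, h3]
    norm_num
  rw [h1, integral_comp_abs (f := fun y : ℝ => (√(2 * Real.pi))⁻¹ * (y * Real.exp (-y ^ 2 / 2))),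
    integral_const_mul, h2, mul_one]
  have h5 : (0 : ℝ) < 2 * Real.pi := by positivity
  rw [← div_eq_mul_inv]
  symm
  rw [Real.sqrt_eq_iff_mul_self_eq (by positivity) (by positivity), div_mul_div_comm,
    Real.mul_self_sqrt h5.le]
  field_simp

private theorem fpr_comb (μ μ1 μ2 a a1 a2 p : ℝ) (hp0 : 0 ≤ p) (hp1 : p ≤ 1)
    (hμ : μ = p * μ1 + (1 - p) * μ2) (ha : a = p * a1 + (1 - p) * a2) :
    ∫ x, |μ + a * x| ∂(ProbabilityTheory.gaussianReal 0 1) ≤
      p * ∫ x, |μ1 + a1 * x| ∂(ProbabilityTheory.gaussianReal 0 1) +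
      (1 - p) * ∫ x, |μ2 + a2 * x| ∂(ProbabilityTheory.gaussianReal 0 1) := by
  rw [← integral_const_mul, ← integral_const_mul,
    ← integral_add ((fpr_int μ1 a1).const_mul p) ((fpr_int μ2 a2).const_mul (1 - p))]
  refine integral_mono (fpr_int μ a)
    (((fpr_int μ1 a1).const_mul p).add ((fpr_int μ2 a2).const_mul (1 - p))) fun x => ?_
  show |μ + a * x| ≤ p * |μ1 + a1 * x| + (1 - p) * |μ2 + a2 * x|
  have h1 : μ + a * x = p * (μ1 + a1 * x) + (1 - p) * (μ2 + a2 * x) := by
    rw [hμ, ha]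
    ring
  rw [h1]
  refine (abs_add_le _ _).trans (le_of_eq ?_)
  rw [abs_mul, abs_mul, abs_of_nonneg hp0, abs_of_nonneg (sub_nonneg.2 hp1)]

/-- FPR -/
theorem F_neg (μ v : ℝ) : F (-μ) v = F μ v := by
  unfold F
  rw [← fpr_sym μ (√v)]
  refine integral_congr_ae (Filter.Eventually.of_forall fun x => ?_)
  show |-μ + √v * x| = |μ - √v * x|
  rw [← abs_neg]
  congr 1
  ring

/-- FPR -/
theorem F_mono (μ ν v : ℝ) (hv : 0 ≤ v) (h : |μ| ≤ |ν|) : F μ v ≤ F ν v := by
  rcases eq_or_ne ν 0 with h0 | h0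
  · rw [h0, abs_zero] at h
    rw [h0, abs_nonpos_iff.1 h]
  · have hν : 0 < |ν| := abs_pos.2 h0
    have ha : |μ / ν| ≤ 1 := by
      rw [abs_div]
      exact (div_le_one hν).2 h
    obtain ⟨ha1, ha2⟩ := abs_le.1 ha
    have h1 := fpr_comb μ ν (-ν) (√v) (√v) (√v) ((1 + μ / ν) / 2) (by linarith) (by linarith)
      (by field_simp; ring) (by ring)
    have h2 := F_neg ν v
    unfold F at h2 ⊢
    rw [h2] at h1
    refine h1.trans (le_of_eq ?_)
    ring

/-- FPR: since `E|G| ≤ 1` and `√v - √V ≤ (v - V)/√v` for `V ≤ v`. -/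
theorem F_lip (μ v V : ℝ) (hV : 0 ≤ V) (hv : 0 < v) :
    F μ v - max (v - V) 0 / √v ≤ F μ V := by
  have hsv : 0 < √v := Real.sqrt_pos.2 hv
  rcases le_total v V with h | h
  · rw [max_eq_right (by linarith), zero_div, sub_zero]
    have hsV : 0 < √V := Real.sqrt_pos.2 (lt_of_lt_of_le hv h)
    have ha : √v / √V ≤ 1 := (div_le_one hsV).2 (Real.sqrt_le_sqrt h)
    have ha0 : 0 ≤ √v / √V := by positivity
    have h1 := fpr_comb μ μ μ (√v) (√V) (-√V) ((1 + √v / √V) / 2) (by linarith) (by linarith)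
      (by ring) (by field_simp; ring)
    have h2 := fpr_sym μ (√V)
    have h3 : ∫ x, |μ + -√V * x| ∂(ProbabilityTheory.gaussianReal 0 1) =
        ∫ x, |μ - √V * x| ∂(ProbabilityTheory.gaussianReal 0 1) := by
      refine integral_congr_ae (Filter.Eventually.of_forall fun x => ?_)
      show |μ + -√V * x| = |μ - √V * x|
      rw [neg_mul, sub_eq_add_neg]
    rw [h3, h2] at h1
    unfold F
    refine h1.trans (le_of_eq ?_)
    ring
  · rw [max_eq_left (by linarith)]
    have hle : √V ≤ √v := Real.sqrt_le_sqrt h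
    have hF0 : F 0 1 ≤ 1 := by
      rw [F_zero, Real.sqrt_le_one]
      rw [div_le_one Real.pi_pos]
      linarith [Real.pi_gt_three]
    have h1 : F μ v ≤ F μ V + (√v - √V) * F 0 1 := by
      unfold F
      rw [← integral_const_mul, ← integral_add (fpr_int μ (√V))
        ((fpr_int 0 (√1)).const_mul (√v - √V))]
      refine integral_mono (fpr_int μ (√v)) ((fpr_int μ (√V)).add
        ((fpr_int 0 (√1)).const_mul (√v - √V))) fun x => ?_
      show |μ + √v * x| ≤ |μ + √V * x| + (√v - √V) * |0 + √1 * x|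
      rw [zero_add, Real.sqrt_one, one_mul]
      have h2 : μ + √v * x = (μ + √V * x) + (√v - √V) * x := by ring
      rw [h2]
      refine (abs_add_le _ _).trans (le_of_eq ?_)
      rw [abs_mul, abs_of_nonneg (sub_nonneg.2 hle)]
    have h2 : (√v - √V) * F 0 1 ≤ √v - √V :=
      mul_le_of_le_one_right (sub_nonneg.2 hle) hF0
    have h3 : √v - √V ≤ (v - V) / √v := by
      rw [le_div_iff₀ hsv, sub_mul, Real.mul_self_sqrt hv.le]
      have h4 : V ≤ √V * √v := by
        calc V = √V * √V := (Real.mul_self_sqrt hV).symm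
          _ ≤ √V * √v := mul_le_mul_of_nonneg_left hle (Real.sqrt_nonneg V)
      linarith
    linarith

/-- FPR -/
theorem F_sub (μ ν v : ℝ) : F μ v - |μ - ν| ≤ F ν v := by
  have h1 : F μ v ≤ F ν v + |μ - ν| := by
    have h2 : ∫ _x : ℝ, |μ - ν| ∂(ProbabilityTheory.gaussianReal 0 1) = |μ - ν| := by
      rw [integral_const]
      simp
    conv_rhs => rw [← h2]
    unfold F
    rw [← integral_add (fpr_int ν (√v)) (integrable_const _)]
    refine integral_mono (fpr_int μ (√v)) ((fpr_int ν (√v)).add (integrable_const _)) fun x => ?_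
    show |μ + √v * x| ≤ |ν + √v * x| + |μ - ν|
    have h3 : μ + √v * x = (ν + √v * x) + (μ - ν) := by ring
    rw [h3]
    exact abs_add_le _ _
  linarith

/-- FPR: Jensen. -/
theorem F_jensen {κ : Type} (s : Finset κ) (p m : κ → ℝ) (v : ℝ) (hp : ∀ i ∈ s, 0 ≤ p i)
    (h1 : ∑ i ∈ s, p i = 1) : F (∑ i ∈ s, p i * m i) v ≤ ∑ i ∈ s, p i * F (m i) v := by
  have h2 : ∑ i ∈ s, p i * F (m i) v =
      ∫ x, ∑ i ∈ s, p i * |m i + √v * x| ∂(ProbabilityTheory.gaussianReal 0 1) := by
    rw [integral_finsetSum s fun i _ => (fpr_int (m i) (√v)).const_mul (p i)]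
    refine Finset.sum_congr rfl fun i _ => ?_
    rw [integral_const_mul]
    rfl
  rw [h2]
  unfold F
  refine integral_mono (fpr_int _ (√v))
    (integrable_finsetSum s fun i _ => (fpr_int (m i) (√v)).const_mul (p i)) fun x => ?_
  show |(∑ i ∈ s, p i * m i) + √v * x| ≤ ∑ i ∈ s, p i * |m i + √v * x|
  have h3 : (∑ i ∈ s, p i * m i) + √v * x = ∑ i ∈ s, p i * (m i + √v * x) := by
    simp only [mul_add, Finset.sum_add_distrib]
    rw [← Finset.sum_mul, h1, one_mul]
  rw [h3]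
  refine (Finset.abs_sum_le_sum_abs _ _).trans (Finset.sum_le_sum fun i hi => ?_)
  rw [abs_mul, abs_of_nonneg (hp i hi)]

end Pool.Agent.PCB
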