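import Pool.Agent.PCB.ABS2
import Pool.Agent.PCB.Defs2
import Pool.Agent.PCB.FPR

set_option autoImplicit false

namespace Pool.Agent.PCB

open Finset MeasureTheory

private theorem ABS3_cos' {x : ℝ} (hx : 0 ≤ x) : Real.cos x ≤ 1 - x ^ 2 / 2 + x ^ 4 / 24 := by
  have h1 : Real.cos x = 1 - 2 * Real.sin (x / 2) ^ 2 := by
    have h2 := Real.cos_sq (x / 2)
    have h3 := Real.sin_sq_add_cos_sq (x / 2)
    rw [show 2 * (x / 2) = x by ring] at h2
    linarith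
  have h4 : x / 2 - (x / 2) ^ 3 / 6 ≤ Real.sin (x / 2) := Real.sin_ge_sub_cube (by linarith)
  rcases le_or_gt (x ^ 2) 24 with h5 | h5
  · have h6 : 0 ≤ x / 2 - (x / 2) ^ 3 / 6 := by
      have : x / 2 - (x / 2) ^ 3 / 6 = x * (24 - x ^ 2) / 48 := by ring
      rw [this]
      exact div_nonneg (mul_nonneg hx (by linarith)) (by norm_num)
    have h7 : (x / 2 - (x / 2) ^ 3 / 6) ^ 2 ≤ Real.sin (x / 2) ^ 2 := pow_le_pow_left₀ h6 h4 2
    have h8 : (x / 2 - (x / 2) ^ 3 / 6) ^ 2 = x ^ 2 / 4 - x ^ 4 / 48 + (x ^ 3) ^ 2 / 2304 := by ring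
    have h9 := sq_nonneg (x ^ 3)
    rw [h1]
    linarith
  · have h6 := Real.cos_le_one x
    have h7 : 0 ≤ x ^ 2 * (x ^ 2 - 12) := mul_nonneg (sq_nonneg x) (by linarith)
    have h8 : 1 - x ^ 2 / 2 + x ^ 4 / 24 = 1 + x ^ 2 * (x ^ 2 - 12) / 24 := by ring
    rw [h8]
    linarith

private theorem ABS3_cos (x : ℝ) : Real.cos x ≤ 1 - x ^ 2 / 2 + x ^ 4 / 24 := by
  have h := ABS3_cos' (abs_nonneg x)
  rw [Real.cos_abs, sq_abs] at h
  have h2 : |x| ^ 4 = x ^ 4 := by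
    rw [show 4 = 2 * 2 by norm_num, pow_mul, pow_mul, sq_abs]
  rwa [h2] at h

private theorem ABS3_F0 (v : ℝ) : F 0 v = √v * √(2 / Real.pi) := by
  rw [← F_zero]
  unfold F
  rw [← integral_const_mul]
  refine integral_congr_ae (Filter.Eventually.of_forall fun x => ?_)
  show |0 + √v * x| = √v * |0 + √1 * x|
  rw [zero_add, zero_add, Real.sqrt_one, one_mul, abs_mul, abs_of_nonneg (Real.sqrt_nonneg _)]

private theorem ABS3_q : √(2 * Real.pi) = Real.pi * √(2 / Real.pi) := by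
  have hp := Real.pi_pos
  rw [Real.sqrt_eq_iff_mul_self_eq (by positivity) (by positivity)]
  have h := Real.mul_self_sqrt (show 0 ≤ 2 / Real.pi by positivity)
  have h2 : Real.pi * √(2 / Real.pi) * (Real.pi * √(2 / Real.pi)) =
      Real.pi * Real.pi * (√(2 / Real.pi) * √(2 / Real.pi)) := by ring
  rw [h2, h]
  field_simp

private theorem ABS3_exp (v t : ℝ) : -(t ^ 2 * v) / 2 = -(v / 2) * t ^ 2 := by ring

private theorem ABS3_I1 {v : ℝ} (hv : 0 < v) :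
    ∫ t in Set.Ioi (0 : ℝ), Real.exp (-(t ^ 2 * v) / 2) =
      Real.pi * √(2 / Real.pi) / (2 * √v) := by
  have h := integral_gaussian_Ioi (v / 2)
  simp only [ABS3_exp]
  rw [h, show Real.pi / (v / 2) = (2 * Real.pi) / v by field_simp, Real.sqrt_div' _ hv.le, ABS3_q]
  have hw : √v ≠ 0 := (Real.sqrt_pos.2 hv).ne'
  field_simp

private theorem ABS3_I2 {v : ℝ} (hv : 0 < v) :
    ∫ t in Set.Ioi (0 : ℝ), t ^ 2 * Real.exp (-(t ^ 2 * v) / 2) =
      Real.pi * √(2 / Real.pi) / (2 * (v * √v)) := by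
  have h := integral_rpow_mul_exp_neg_mul_rpow (p := 2) (q := 2) (b := v / 2) two_pos
    (by norm_num) (by positivity)
  have h1 : ∫ t in Set.Ioi (0 : ℝ), t ^ 2 * Real.exp (-(t ^ 2 * v) / 2) =
      ∫ x in Set.Ioi (0 : ℝ), x ^ (2 : ℝ) * Real.exp (-(v / 2) * x ^ (2 : ℝ)) := by
    refine setIntegral_congr_fun measurableSet_Ioi fun x _ => ?_
    show x ^ 2 * Real.exp (-(x ^ 2 * v) / 2) = x ^ (2 : ℝ) * Real.exp (-(v / 2) * x ^ (2 : ℝ))
    rw [Real.rpow_two, ABS3_exp]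
  have h2 : Real.Gamma ((2 + 1) / 2) = √Real.pi / 2 := by
    have h3 := Real.Gamma_nat_add_half 1
    rw [show ((1 : ℕ) : ℝ) + 1 / 2 = (2 + 1) / 2 by norm_num] at h3
    rw [h3]
    norm_num
  have hb : (0 : ℝ) < v / 2 := by positivity
  have h3 : (v / 2) ^ (-(2 + 1) / 2 : ℝ) = ((v / 2) * √(v / 2))⁻¹ := by
    rw [show (-(2 + 1) / 2 : ℝ) = -(1 + 1 / 2) by norm_num, Real.rpow_neg hb.le,
      Real.rpow_add hb, Real.rpow_one, ← Real.sqrt_eq_rpow]
  rw [h1, h, h2, h3, Real.sqrt_div hv.le]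
  have hw : √v ≠ 0 := (Real.sqrt_pos.2 hv).ne'
  have h4 : √2 * √Real.pi = Real.pi * √(2 / Real.pi) := by
    rw [← ABS3_q, Real.sqrt_mul two_pos.le]
  rw [← h4]
  have h5 : √2 ≠ 0 := by positivity
  field_simp

/-- ABS3 -/
theorem F_lower (s v : ℝ) (hv : 0 < v) :
    √(2 / Real.pi) * (√v + s ^ 2 / (2 * √v) - s ^ 4 / (24 * (v * √v))) ≤ F s v := by
  have hp := Real.pi_pos
  have hw : √v ≠ 0 := (Real.sqrt_pos.2 hv).ne'
  have i0 : IntegrableOn (fun t : ℝ => (1 - Real.cos (t * 0) * Real.exp (-(t ^ 2 * v) / 2)) / t ^ 2)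
      (Set.Ioi 0) := F_integrable 0 v hv.le
  have i1 : IntegrableOn (fun t : ℝ => Real.exp (-(t ^ 2 * v) / 2)) (Set.Ioi 0) := by
    simp only [ABS3_exp]
    exact (integrable_exp_neg_mul_sq (by positivity)).integrableOn
  have i2 : IntegrableOn (fun t : ℝ => t ^ 2 * Real.exp (-(t ^ 2 * v) / 2)) (Set.Ioi 0) := by
    have h := integrableOn_rpow_mul_exp_neg_mul_sq (b := v / 2) (by positivity) (s := 2)
      (by norm_num)
    simp only [Real.rpow_two] at h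
    simp only [ABS3_exp]
    exact h
  have e0 : ∫ t in Set.Ioi (0 : ℝ), (1 - Real.cos (t * 0) * Real.exp (-(t ^ 2 * v) / 2)) / t ^ 2 =
      Real.pi / 2 * (√v * √(2 / Real.pi)) := by
    have h := F_eq 0 v hv.le
    rw [ABS3_F0] at h
    rw [h]
    generalize (∫ t in Set.Ioi (0 : ℝ),
      (1 - Real.cos (t * 0) * Real.exp (-(t ^ 2 * v) / 2)) / t ^ 2) = I
    field_simp
  have key : ∫ t in Set.Ioi (0 : ℝ),
      ((1 - Real.cos (t * 0) * Real.exp (-(t ^ 2 * v) / 2)) / t ^ 2 +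
        (s ^ 2 / 2) * Real.exp (-(t ^ 2 * v) / 2) -
        (s ^ 4 / 24) * (t ^ 2 * Real.exp (-(t ^ 2 * v) / 2))) ≤
      ∫ t in Set.Ioi (0 : ℝ), (1 - Real.cos (t * s) * Real.exp (-(t ^ 2 * v) / 2)) / t ^ 2 := by
    refine setIntegral_mono_on ((i0.add (i1.const_mul _)).sub (i2.const_mul _))
      (F_integrable s v hv.le) measurableSet_Ioi ?_
    intro t ht
    have ht0 : (0 : ℝ) < t := ht
    have hE := Real.exp_pos (-(t ^ 2 * v) / 2)
    have hc := ABS3_cos (t * s)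
    have h1 := mul_le_mul_of_nonneg_right hc hE.le
    rw [mul_zero, Real.cos_zero, one_mul, le_div_iff₀ (by positivity)]
    have h2 : ((1 - Real.exp (-(t ^ 2 * v) / 2)) / t ^ 2 + s ^ 2 / 2 * Real.exp (-(t ^ 2 * v) / 2) -
        s ^ 4 / 24 * (t ^ 2 * Real.exp (-(t ^ 2 * v) / 2))) * t ^ 2 =
        1 - (1 - (t * s) ^ 2 / 2 + (t * s) ^ 4 / 24) * Real.exp (-(t ^ 2 * v) / 2) := by
      field_simp
      ring
    rw [h2]
    linarith
  have e1 : ∫ t in Set.Ioi (0 : ℝ),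
      ((1 - Real.cos (t * 0) * Real.exp (-(t ^ 2 * v) / 2)) / t ^ 2 +
        (s ^ 2 / 2) * Real.exp (-(t ^ 2 * v) / 2) -
        (s ^ 4 / 24) * (t ^ 2 * Real.exp (-(t ^ 2 * v) / 2))) =
      (∫ t in Set.Ioi (0 : ℝ), ((1 - Real.cos (t * 0) * Real.exp (-(t ^ 2 * v) / 2)) / t ^ 2 +
        (s ^ 2 / 2) * Real.exp (-(t ^ 2 * v) / 2))) -
      ∫ t in Set.Ioi (0 : ℝ), (s ^ 4 / 24) * (t ^ 2 * Real.exp (-(t ^ 2 * v) / 2)) :=
    integral_sub (i0.add (i1.const_mul _)) (i2.const_mul _)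
  rw [e1, integral_add i0 (i1.const_mul _),
    integral_const_mul, integral_const_mul, e0, ABS3_I1 hv, ABS3_I2 hv] at key
  rw [F_eq s v hv.le]
  have h3 := mul_le_mul_of_nonneg_left key (show 0 ≤ 2 / Real.pi by positivity)
  refine le_trans (le_of_eq ?_) h3
  field_simp

end Pool.Agent.PCB
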