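import Pool.Agent.PCB.ABS2

set_option autoImplicit false

namespace Pool.Agent.PCB

open Finset MeasureTheory

variable {n : Type} [Fintype n] [DecidableEq n]

private theorem clt_prod (m : n → ℝ) (f : n → Bool → ℂ) :
    ∑ x : n → Bool, (pr m x : ℂ) * ∏ i, f i (x i) =
      ∏ i, ((((1 + m i) / 2 : ℝ) : ℂ) * f i true + (((1 - m i) / 2 : ℝ) : ℂ) * f i false) := by
  have h : ∀ i, ((((1 + m i) / 2 : ℝ) : ℂ) * f i true +
      (((1 - m i) / 2 : ℝ) : ℂ) * f i false) =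
      ∑ b : Bool, (((1 + sg b * m i) / 2 : ℝ) : ℂ) * f i b := by
    intro i
    rw [Fintype.sum_bool, sg_true, sg_false]
    push_cast
    ring
  rw [Finset.prod_congr rfl fun i _ => h i, Finset.prod_univ_sum, Fintype.piFinset_univ]
  refine Finset.sum_congr rfl fun x _ => ?_
  unfold pr
  rw [Complex.ofReal_prod, ← Finset.prod_mul_distrib]

omit [Fintype n] in
private theorem clt_prod_sub (s : Finset n) (f g : n → ℂ) (hf : ∀ i, ‖f i‖ ≤ 1)
    (hg : ∀ i, ‖g i‖ ≤ 1) :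
    ‖∏ i ∈ s, f i - ∏ i ∈ s, g i‖ ≤ ∑ i ∈ s, ‖f i - g i‖ := by
  induction s using Finset.induction_on with
  | empty => simp
  | insert a s ha ih =>
    rw [prod_insert ha, prod_insert ha, sum_insert ha]
    have e : f a * ∏ i ∈ s, f i - g a * ∏ i ∈ s, g i =
        (f a - g a) * ∏ i ∈ s, g i + f a * (∏ i ∈ s, f i - ∏ i ∈ s, g i) := by ring
    rw [e]
    refine (norm_add_le _ _).trans (add_le_add ?_ ?_)
    · rw [norm_mul]
      have h1 : ‖∏ i ∈ s, g i‖ ≤ 1 := by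
        rw [norm_prod]
        exact Finset.prod_le_one (fun _ _ => norm_nonneg _) (fun i _ => hg i)
      exact mul_le_of_le_one_right (norm_nonneg _) h1
    · rw [norm_mul]
      exact (mul_le_of_le_one_left (norm_nonneg _) (hf a)).trans ih

private theorem clt_taylor (u : ℝ) (hu : |u| ≤ 2) :
    ‖Complex.exp ((u : ℂ) * Complex.I) - (1 + u * Complex.I - u ^ 2 / 2)‖ ≤ |u| ^ 3 / 3 := by
  have hn : ‖(u : ℂ) * Complex.I‖ = |u| := by
    rw [norm_mul, Complex.norm_I, mul_one, Complex.norm_real, Real.norm_eq_abs]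
  have h := Complex.exp_bound' (x := (u : ℂ) * Complex.I) (n := 3) (by
    rw [hn]
    norm_num
    linarith)
  rw [hn] at h
  have e : ∑ k ∈ range 3, ((u : ℂ) * Complex.I) ^ k / (k.factorial : ℂ) =
      1 + u * Complex.I - u ^ 2 / 2 := by
    simp [Finset.sum_range_succ, Nat.factorial, mul_pow]
    ring
  rw [e] at h
  refine h.trans (le_of_eq ?_)
  norm_num [Nat.factorial]
  ring

/-- The characteristic function of a centred sign. -/
private noncomputable def clt_psi (c μ : ℝ) : ℂ :=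
  (((1 + μ) / 2 : ℝ) : ℂ) * Complex.exp (((c * (1 - μ) : ℝ) : ℂ) * Complex.I) +
    (((1 - μ) / 2 : ℝ) : ℂ) * Complex.exp (((c * (-1 - μ) : ℝ) : ℂ) * Complex.I)

private theorem clt_psi_norm (c μ : ℝ) (hm : |μ| ≤ 1) : ‖clt_psi c μ‖ ≤ 1 := by
  have h := abs_le.1 hm
  unfold clt_psi
  refine (norm_add_le _ _).trans ?_
  rw [norm_mul, norm_mul, Complex.norm_exp_ofReal_mul_I, Complex.norm_exp_ofReal_mul_I,
    Complex.norm_real, Complex.norm_real, Real.norm_eq_abs, Real.norm_eq_abs,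
    abs_of_nonneg (by linarith), abs_of_nonneg (by linarith)]
  linarith

private theorem clt_factor (c μ : ℝ) (hm : |μ| ≤ 1) :
    ‖clt_psi c μ - ((Real.exp (-(c ^ 2 * (1 - μ ^ 2)) / 2) : ℝ) : ℂ)‖ ≤ 2 * |c| ^ 3 := by
  have hμ := abs_le.1 hm
  have hμ2 : μ ^ 2 ≤ 1 := by nlinarith [hμ.1, hμ.2]
  have hg : Real.exp (-(c ^ 2 * (1 - μ ^ 2)) / 2) ≤ 1 := by
    apply Real.exp_le_one_iff.2
    have : 0 ≤ c ^ 2 * (1 - μ ^ 2) := mul_nonneg (sq_nonneg _) (by linarith)
    linarith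
  by_cases hc : 1 < |c|
  · have h1 : (1 : ℝ) ≤ |c| ^ 3 := one_le_pow₀ hc.le
    refine (norm_sub_le _ _).trans ?_
    have h2 : ‖((Real.exp (-(c ^ 2 * (1 - μ ^ 2)) / 2) : ℝ) : ℂ)‖ ≤ 1 := by
      rw [Complex.norm_real, Real.norm_eq_abs, abs_of_pos (Real.exp_pos _)]
      exact hg
    have h3 := clt_psi_norm c μ hm
    linarith
  · have hc' : |c| ≤ 1 := not_lt.1 hc
    set w : ℝ := c ^ 2 * (1 - μ ^ 2) / 2 with hw
    have hc2 : c ^ 2 ≤ 1 := by
      rw [← sq_abs]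
      exact pow_le_one₀ (abs_nonneg _) hc'
    have hw0 : 0 ≤ w := by
      have : 0 ≤ c ^ 2 * (1 - μ ^ 2) := mul_nonneg (sq_nonneg _) (by linarith)
      linarith
    have hw1 : w ≤ c ^ 2 / 2 := by
      have : c ^ 2 * (1 - μ ^ 2) ≤ c ^ 2 * 1 :=
        mul_le_mul_of_nonneg_left (by nlinarith [sq_nonneg μ]) (sq_nonneg _)
      rw [hw]
      linarith
    have hu1 : |c * (1 - μ)| ≤ 2 := by
      rw [abs_mul]
      have : |1 - μ| ≤ 2 := by rw [abs_le]; constructor <;> linarith [hμ.1, hμ.2]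
      calc |c| * |1 - μ| ≤ 1 * 2 := mul_le_mul hc' this (abs_nonneg _) zero_le_one
        _ = 2 := by norm_num
    have hu2 : |c * (-1 - μ)| ≤ 2 := by
      rw [abs_mul]
      have : |-1 - μ| ≤ 2 := by rw [abs_le]; constructor <;> linarith [hμ.1, hμ.2]
      calc |c| * |-1 - μ| ≤ 1 * 2 := mul_le_mul hc' this (abs_nonneg _) zero_le_one
        _ = 2 := by norm_num
    have t1 := clt_taylor _ hu1
    have t2 := clt_taylor _ hu2
    have t3 : |1 - w - Real.exp (-w)| ≤ w ^ 2 := by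
      have h := Real.abs_exp_sub_one_sub_id_le (x := -w) (by
        rw [abs_neg, abs_of_nonneg hw0]
        nlinarith)
      rw [← abs_neg] at h
      have e : -(Real.exp (-w) - 1 - -w) = 1 - w - Real.exp (-w) := by ring
      rw [e, neg_sq] at h
      exact h
    have e : clt_psi c μ - ((Real.exp (-(c ^ 2 * (1 - μ ^ 2)) / 2) : ℝ) : ℂ) =
        (((1 + μ) / 2 : ℝ) : ℂ) * (Complex.exp (((c * (1 - μ) : ℝ) : ℂ) * Complex.I) -
          (1 + ((c * (1 - μ) : ℝ) : ℂ) * Complex.I - ((c * (1 - μ) : ℝ) : ℂ) ^ 2 / 2)) +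
        (((1 - μ) / 2 : ℝ) : ℂ) * (Complex.exp (((c * (-1 - μ) : ℝ) : ℂ) * Complex.I) -
          (1 + ((c * (-1 - μ) : ℝ) : ℂ) * Complex.I - ((c * (-1 - μ) : ℝ) : ℂ) ^ 2 / 2)) +
        ((1 - w - Real.exp (-w) : ℝ) : ℂ) := by
      have e1 : -(c ^ 2 * (1 - μ ^ 2)) / 2 = -w := by rw [hw]; ring
      rw [e1]
      unfold clt_psi
      rw [hw]
      push_cast
      ring
    rw [e]
    refine (norm_add_le _ _).trans ?_
    rw [Complex.norm_real, Real.norm_eq_abs]
    have n1 : ‖(((1 + μ) / 2 : ℝ) : ℂ)‖ = (1 + μ) / 2 := by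
      rw [Complex.norm_real, Real.norm_eq_abs, abs_of_nonneg (by linarith)]
    have n2 : ‖(((1 - μ) / 2 : ℝ) : ℂ)‖ = (1 - μ) / 2 := by
      rw [Complex.norm_real, Real.norm_eq_abs, abs_of_nonneg (by linarith)]
    have a1 : |c * (1 - μ)| = |c| * (1 - μ) := by
      rw [abs_mul, abs_of_nonneg (a := 1 - μ) (by linarith)]
    have a2 : |c * (-1 - μ)| = |c| * (1 + μ) := by
      rw [abs_mul, abs_of_nonpos (a := -1 - μ) (by linarith)]
      ring
    have s1 : (1 + μ) / 2 * (|c * (1 - μ)| ^ 3 / 3) + (1 - μ) / 2 * (|c * (-1 - μ)| ^ 3 / 3) ≤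
        |c| ^ 3 / 3 := by
      rw [a1, a2]
      have e2 : (1 + μ) / 2 * ((|c| * (1 - μ)) ^ 3 / 3) + (1 - μ) / 2 * ((|c| * (1 + μ)) ^ 3 / 3) =
          |c| ^ 3 / 3 * (1 - μ ^ 4) := by ring
      rw [e2]
      have : 0 ≤ |c| ^ 3 / 3 := by positivity
      apply mul_le_of_le_one_right this
      have : 0 ≤ μ ^ 4 := by positivity
      linarith
    have s2 : w ^ 2 ≤ |c| ^ 3 := by
      have h1 : w ≤ |c| ^ 2 / 2 := by rw [sq_abs]; exact hw1
      have h2 : w ^ 2 ≤ (|c| ^ 2 / 2) ^ 2 := pow_le_pow_left₀ hw0 h1 2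
      have h3 : (|c| ^ 2 / 2) ^ 2 = |c| ^ 3 * (|c| / 4) := by ring
      rw [h3] at h2
      refine h2.trans (mul_le_of_le_one_right (by positivity) ?_)
      linarith
    have s3 : ‖(((1 + μ) / 2 : ℝ) : ℂ) * (Complex.exp (((c * (1 - μ) : ℝ) : ℂ) * Complex.I) -
          (1 + ((c * (1 - μ) : ℝ) : ℂ) * Complex.I - ((c * (1 - μ) : ℝ) : ℂ) ^ 2 / 2)) +
        (((1 - μ) / 2 : ℝ) : ℂ) * (Complex.exp (((c * (-1 - μ) : ℝ) : ℂ) * Complex.I) -
          (1 + ((c * (-1 - μ) : ℝ) : ℂ) * Complex.I - ((c * (-1 - μ) : ℝ) : ℂ) ^ 2 / 2))‖ ≤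
        |c| ^ 3 / 3 := by
      refine (norm_add_le _ _).trans (le_trans ?_ s1)
      rw [norm_mul, norm_mul, n1, n2]
      exact add_le_add (mul_le_mul_of_nonneg_left t1 (by linarith))
        (mul_le_mul_of_nonneg_left t2 (by linarith))
    have p3 : 0 ≤ |c| ^ 3 := by positivity
    linarith

/-- The difference of the two characteristic functions. -/
private noncomputable def clt_D (b m : n → ℝ) (μ t : ℝ) : ℝ :=
  Ex m (fun x => Real.cos (t * (μ + ∑ k, b k * (sg (x k) - m k)))) -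
    Real.cos (t * μ) * Real.exp (-(t ^ 2 * (∑ k, b k ^ 2 * (1 - m k ^ 2))) / 2)

private theorem clt_D_le_two (b m : n → ℝ) (μ t : ℝ) (hm : ∀ k, |m k| ≤ 1) :
    clt_D b m μ t ≤ 2 := by
  unfold clt_D
  have h1 : Ex m (fun x => Real.cos (t * (μ + ∑ k, b k * (sg (x k) - m k)))) ≤ 1 := by
    rw [← Ex_const m 1]
    exact Ex_mono hm fun x => Real.cos_le_one _
  have h2 : Real.exp (-(t ^ 2 * (∑ k, b k ^ 2 * (1 - m k ^ 2))) / 2) ≤ 1 := by
    apply Real.exp_le_one_iff.2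
    have h3 : 0 ≤ ∑ k, b k ^ 2 * (1 - m k ^ 2) := Finset.sum_nonneg fun k _ =>
      mul_nonneg (sq_nonneg _) (by
        have := abs_le.1 (hm k)
        nlinarith [this.1, this.2])
    have := mul_nonneg (sq_nonneg t) h3
    linarith
  have h3 : -1 ≤ Real.cos (t * μ) *
      Real.exp (-(t ^ 2 * (∑ k, b k ^ 2 * (1 - m k ^ 2))) / 2) := by
    have h4 := Real.exp_pos (-(t ^ 2 * (∑ k, b k ^ 2 * (1 - m k ^ 2))) / 2)
    have h5 := Real.neg_one_le_cos (t * μ)
    nlinarith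
  linarith

private theorem clt_D_le (b m : n → ℝ) (δ μ t : ℝ) (hδ : 0 ≤ δ) (hb : ∀ k, |b k| ≤ δ)
    (hs : ∑ k, b k ^ 2 ≤ 1) (hm : ∀ k, |m k| ≤ 1) (ht : 0 ≤ t) :
    clt_D b m μ t ≤ 2 * t ^ 3 * δ := by
  have h1 : clt_D b m μ t = (Complex.exp (((t * μ : ℝ) : ℂ) * Complex.I) *
      (∏ k, clt_psi (t * b k) (m k) -
        ∏ k, ((Real.exp (-((t * b k) ^ 2 * (1 - m k ^ 2)) / 2) : ℝ) : ℂ))).re := by
    have hp : ∏ k, clt_psi (t * b k) (m k) = ∑ x : n → Bool, (pr m x : ℂ) *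
        ∏ k, Complex.exp (((t * b k * (sg (x k) - m k) : ℝ) : ℂ) * Complex.I) := by
      rw [clt_prod m (fun k s => Complex.exp (((t * b k * (sg s - m k) : ℝ) : ℂ) * Complex.I))]
      refine Finset.prod_congr rfl fun k _ => ?_
      unfold clt_psi
      rw [sg_true, sg_false]
    have hx : ∀ x : n → Bool, Complex.exp (((t * μ : ℝ) : ℂ) * Complex.I) *
        ((pr m x : ℂ) * ∏ k, Complex.exp (((t * b k * (sg (x k) - m k) : ℝ) : ℂ) * Complex.I)) =
        (pr m x : ℂ) * Complex.exp (((t * (μ + ∑ k, b k * (sg (x k) - m k)) : ℝ) : ℂ) *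
          Complex.I) := by
      intro x
      rw [← Complex.exp_sum, mul_left_comm, ← Complex.exp_add, ← Finset.sum_mul, ← add_mul,
        ← Complex.ofReal_sum, ← Complex.ofReal_add]
      congr 4
      rw [mul_add, Finset.mul_sum]
      congr 1
      exact Finset.sum_congr rfl fun k _ => by ring
    have hg : ∏ k, ((Real.exp (-((t * b k) ^ 2 * (1 - m k ^ 2)) / 2) : ℝ) : ℂ) =
        ((Real.exp (-(t ^ 2 * (∑ k, b k ^ 2 * (1 - m k ^ 2))) / 2) : ℝ) : ℂ) := by
      rw [← Complex.ofReal_prod, ← Real.exp_sum]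
      congr 2
      rw [Finset.mul_sum, ← Finset.sum_neg_distrib, Finset.sum_div]
      exact Finset.sum_congr rfl fun k _ => by ring
    rw [mul_sub, hp, hg, Finset.mul_sum, Finset.sum_congr rfl fun x _ => hx x, Complex.sub_re,
      Complex.re_sum]
    unfold clt_D Ex
    congr 1
    · refine Finset.sum_congr rfl fun x _ => ?_
      rw [Complex.re_ofReal_mul, Complex.exp_ofReal_mul_I_re]
    · rw [mul_comm, mul_comm (Complex.exp _), Complex.re_ofReal_mul,
        Complex.exp_ofReal_mul_I_re]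
  rw [h1]
  refine (Complex.re_le_norm _).trans ?_
  rw [norm_mul, Complex.norm_exp_ofReal_mul_I, one_mul]
  refine (clt_prod_sub _ _ _ (fun k => clt_psi_norm _ _ (hm k)) (fun k => ?_)).trans ?_
  · rw [Complex.norm_real, Real.norm_eq_abs, abs_of_pos (Real.exp_pos _)]
    apply Real.exp_le_one_iff.2
    have h2 : 0 ≤ (t * b k) ^ 2 * (1 - m k ^ 2) := mul_nonneg (sq_nonneg _) (by
      have := abs_le.1 (hm k)
      nlinarith [this.1, this.2])
    linarith
  · have h3 : ∀ k ∈ (Finset.univ : Finset n), ‖clt_psi (t * b k) (m k) -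
        ((Real.exp (-((t * b k) ^ 2 * (1 - m k ^ 2)) / 2) : ℝ) : ℂ)‖ ≤
        2 * t ^ 3 * δ * b k ^ 2 := by
      intro k _
      refine (clt_factor _ _ (hm k)).trans ?_
      have e : |t * b k| ^ 3 = t ^ 3 * (|b k| * b k ^ 2) := by
        rw [abs_mul, abs_of_nonneg ht, ← sq_abs (b k)]
        ring
      rw [e]
      have h4 : |b k| * b k ^ 2 ≤ δ * b k ^ 2 := mul_le_mul_of_nonneg_right (hb k) (sq_nonneg _)
      have h5 : t ^ 3 * (|b k| * b k ^ 2) ≤ t ^ 3 * (δ * b k ^ 2) :=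
        mul_le_mul_of_nonneg_left h4 (by positivity)
      calc 2 * (t ^ 3 * (|b k| * b k ^ 2)) ≤ 2 * (t ^ 3 * (δ * b k ^ 2)) := by linarith
        _ = 2 * t ^ 3 * δ * b k ^ 2 := by ring
    refine (Finset.sum_le_sum h3).trans ?_
    rw [← Finset.mul_sum]
    exact mul_le_of_le_one_right (by positivity) hs

/-- CLT -/
theorem clt (b m : n → ℝ) (δ T μ : ℝ) (hδ : 0 ≤ δ) (hb : ∀ k, |b k| ≤ δ) (hs : ∑ k, b k ^ 2 ≤ 1)
    (hm : ∀ k, |m k| ≤ 1) (hT : 0 < T) :
    F μ (∑ k, b k ^ 2 * (1 - m k ^ 2)) - (T ^ 2 * δ + 2 / T) ≤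
      Ex m (fun x => |μ + ∑ k, b k * (sg (x k) - m k)|) := by
  have hv : 0 ≤ ∑ k, b k ^ 2 * (1 - m k ^ 2) := Finset.sum_nonneg fun k _ =>
    mul_nonneg (sq_nonneg _) (by
      have := abs_le.1 (hm k)
      nlinarith [this.1, this.2])
  have hF := F_eq μ _ hv
  have hFi := F_integrable μ _ hv
  -- the expectation as an integral
  have hE : Ex m (fun x => |μ + ∑ k, b k * (sg (x k) - m k)|) = 2 / Real.pi *
      ∫ t in Set.Ioi (0 : ℝ), ∑ x, pr m x *
        ((1 - Real.cos (t * (μ + ∑ k, b k * (sg (x k) - m k)))) / t ^ 2) := by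
    rw [integral_finsetSum _ (fun x _ => (cos_integrable _).const_mul _), Finset.mul_sum]
    unfold Ex
    refine Finset.sum_congr rfl fun x _ => ?_
    beta_reduce
    rw [integral_const_mul, abs_eq (μ + ∑ k, b k * (sg (x k) - m k))]
    ring
  have hEi : IntegrableOn (fun t : ℝ => ∑ x, pr m x *
      ((1 - Real.cos (t * (μ + ∑ k, b k * (sg (x k) - m k)))) / t ^ 2)) (Set.Ioi 0) :=
    integrable_finsetSum _ (fun x _ => (cos_integrable _).const_mul _)
  have hD : ∀ t : ℝ, (1 - Real.cos (t * μ) *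
      Real.exp (-(t ^ 2 * (∑ k, b k ^ 2 * (1 - m k ^ 2))) / 2)) / t ^ 2 - ∑ x, pr m x *
        ((1 - Real.cos (t * (μ + ∑ k, b k * (sg (x k) - m k)))) / t ^ 2) =
      clt_D b m μ t / t ^ 2 := by
    intro t
    have h1 : ∑ x, pr m x * ((1 - Real.cos (t * (μ + ∑ k, b k * (sg (x k) - m k)))) / t ^ 2) =
        (1 - Ex m (fun x => Real.cos (t * (μ + ∑ k, b k * (sg (x k) - m k))))) / t ^ 2 := by
      have h0 : 1 - Ex m (fun x => Real.cos (t * (μ + ∑ k, b k * (sg (x k) - m k)))) =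
          Ex m (fun x => 1 - Real.cos (t * (μ + ∑ k, b k * (sg (x k) - m k)))) := by
        rw [Ex_sub, Ex_const]
      rw [h0]
      unfold Ex
      rw [Finset.sum_div]
      exact Finset.sum_congr rfl fun x _ => by ring
    rw [h1]
    unfold clt_D
    ring
  have hDi : IntegrableOn (fun t : ℝ => clt_D b m μ t / t ^ 2) (Set.Ioi 0) := by
    have h := hFi.sub hEi
    refine h.congr (Filter.Eventually.of_forall fun t => ?_)
    exact hD t
  have hsub : F μ (∑ k, b k ^ 2 * (1 - m k ^ 2)) -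
      Ex m (fun x => |μ + ∑ k, b k * (sg (x k) - m k)|) =
      2 / Real.pi * ∫ t in Set.Ioi (0 : ℝ), clt_D b m μ t / t ^ 2 := by
    rw [hF, hE, ← mul_sub, ← integral_sub hFi hEi]
    congr 1
    refine integral_congr_ae (Filter.Eventually.of_forall fun t => ?_)
    exact hD t
  have hint : ∫ t in Set.Ioi (0 : ℝ), clt_D b m μ t / t ^ 2 ≤ T ^ 2 * δ + 2 / T := by
    have hU : Set.Ioi (0 : ℝ) = Set.Ioc 0 T ∪ Set.Ioi T := (Set.Ioc_union_Ioi_eq_Ioi hT.le).symm
    have hi1 : IntegrableOn (fun t : ℝ => clt_D b m μ t / t ^ 2) (Set.Ioc 0 T) :=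
      hDi.mono_set Set.Ioc_subset_Ioi_self
    have hi2 : IntegrableOn (fun t : ℝ => clt_D b m μ t / t ^ 2) (Set.Ioi T) :=
      hDi.mono_set (Set.Ioi_subset_Ioi hT.le)
    rw [hU, setIntegral_union Set.Ioc_disjoint_Ioi_same measurableSet_Ioi hi1 hi2]
    refine add_le_add ?_ ?_
    · have h1 : ∫ t in Set.Ioc (0 : ℝ) T, clt_D b m μ t / t ^ 2 ≤
          ∫ t in Set.Ioc (0 : ℝ) T, 2 * δ * t := by
        refine setIntegral_mono_on hi1 ?_ measurableSet_Ioc ?_
        · exact (continuous_const.mul continuous_id).integrableOn_Ioc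
        · intro t ht
          have h2 := clt_D_le b m δ μ t hδ hb hs hm ht.1.le
          rw [div_le_iff₀ (pow_pos ht.1 2)]
          refine h2.trans (le_of_eq (by ring))
      refine h1.trans (le_of_eq ?_)
      rw [← intervalIntegral.integral_of_le hT.le, intervalIntegral.integral_const_mul,
        integral_id]
      ring
    · have hT' : IntegrableOn (fun t : ℝ => 2 * t ^ (-2 : ℝ)) (Set.Ioi T) :=
        (integrableOn_Ioi_rpow_of_lt (by norm_num) hT).const_mul 2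
      have h1 : ∫ t in Set.Ioi T, clt_D b m μ t / t ^ 2 ≤
          ∫ t in Set.Ioi T, 2 * t ^ (-2 : ℝ) := by
        refine setIntegral_mono_on hi2 hT' measurableSet_Ioi ?_
        intro t ht
        have ht0 : 0 < t := hT.trans ht
        have h2 := clt_D_le_two b m μ t hm
        have e : t ^ (-2 : ℝ) = 1 / t ^ 2 := by
          rw [Real.rpow_neg ht0.le, one_div]
          congr 1
          exact_mod_cast Real.rpow_natCast t 2
        rw [e, mul_one_div]
        exact div_le_div_of_nonneg_right h2 (by positivity)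
      refine h1.trans (le_of_eq ?_)
      rw [integral_const_mul, integral_Ioi_rpow_of_lt (by norm_num) hT]
      have e : T ^ ((-2 : ℝ) + 1) = 1 / T := by
        have : ((-2 : ℝ) + 1) = -1 := by norm_num
        rw [this, Real.rpow_neg_one, one_div]
      rw [e]
      ring
  have hpi : 2 / Real.pi ≤ 1 := by
    rw [div_le_one Real.pi_pos]
    exact Real.two_le_pi
  have hpos : 0 ≤ T ^ 2 * δ + 2 / T := by positivity
  have hpi0 : 0 ≤ 2 / Real.pi := by positivity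
  have h1 : 2 / Real.pi * ∫ t in Set.Ioi (0 : ℝ), clt_D b m μ t / t ^ 2 ≤ T ^ 2 * δ + 2 / T :=
    (mul_le_mul_of_nonneg_left hint hpi0).trans (mul_le_of_le_one_left hpos hpi)
  linarith

end Pool.Agent.PCB
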