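import Pool.Agent.PCB.Defs2

set_option autoImplicit false

namespace Pool.Agent.PCB

open Finset MeasureTheory

variable {ι : Type} [Fintype ι] [DecidableEq ι]

/-- The product formula with complex values, uniform signs. -/
theorem CPR_prod (f : ι → Bool → ℂ) :
    ∑ y : ι → Bool, ((pr 0 y : ℝ) : ℂ) * ∏ i, f i (y i) = ∏ i, ((f i true + f i false) / 2) := by
  have h : ∀ i, ((f i true + f i false) / 2) = ∑ b : Bool, f i b / 2 := by
    intro i
    rw [Fintype.sum_bool]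
    ring
  rw [Finset.prod_congr rfl fun i _ => h i, Finset.prod_univ_sum, Fintype.piFinset_univ]
  refine Finset.sum_congr rfl fun y _ => ?_
  unfold pr
  simp only [Pi.zero_apply, mul_zero, add_zero]
  rw [Complex.ofReal_prod, ← Finset.prod_mul_distrib]
  refine Finset.prod_congr rfl fun i _ => ?_
  push_cast
  ring

theorem CPR_cos (θ : ι → ℝ) :
    Ex 0 (fun y => Real.cos (∑ i, θ i * sg (y i))) = ∏ i, Real.cos (θ i) := by
  have h := CPR_prod (fun i b => Complex.exp (((θ i * sg b : ℝ) : ℂ) * Complex.I))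
  have h1 : ∀ y : ι → Bool, ∏ i, Complex.exp (((θ i * sg (y i) : ℝ) : ℂ) * Complex.I)
      = Complex.exp (((∑ i, θ i * sg (y i) : ℝ) : ℂ) * Complex.I) := by
    intro y
    rw [← Complex.exp_sum, ← Finset.sum_mul, ← Complex.ofReal_sum]
  have h2 : ∀ i, (Complex.exp (((θ i * sg true : ℝ) : ℂ) * Complex.I)
      + Complex.exp (((θ i * sg false : ℝ) : ℂ) * Complex.I)) / 2
      = ((Real.cos (θ i) : ℝ) : ℂ) := by
    intro i
    rw [Complex.ofReal_cos, Complex.cos]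
    simp
  simp only [h1, h2] at h
  have h3 := congrArg Complex.re h
  rw [← Complex.ofReal_prod, Complex.ofReal_re, Complex.re_sum] at h3
  rw [← h3]
  unfold Ex
  refine Finset.sum_congr rfl fun y _ => ?_
  rw [Complex.re_ofReal_mul, Complex.exp_ofReal_mul_I_re]

theorem CPR_sin (θ : ι → ℝ) (j : ι) :
    Ex 0 (fun y => sg (y j) * Real.sin (∑ i, θ i * sg (y i)))
      = Real.sin (θ j) * ∏ i ∈ univ.erase j, Real.cos (θ i) := by
  have h := CPR_cos (Function.update θ j (θ j + Real.pi / 2))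
  have h1 : ∀ y : ι → Bool,
      Real.cos (∑ i, Function.update θ j (θ j + Real.pi / 2) i * sg (y i))
        = (-1) * (sg (y j) * Real.sin (∑ i, θ i * sg (y i))) := by
    intro y
    have h2 : ∑ i, Function.update θ j (θ j + Real.pi / 2) i * sg (y i)
        = (∑ i, θ i * sg (y i)) + Real.pi / 2 * sg (y j) := by
      rw [← Finset.add_sum_erase _ _ (mem_univ j),
        ← Finset.add_sum_erase univ (fun i => θ i * sg (y i)) (mem_univ j), Function.update_self]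
      have h3 : ∑ i ∈ univ.erase j, Function.update θ j (θ j + Real.pi / 2) i * sg (y i)
          = ∑ i ∈ univ.erase j, θ i * sg (y i) :=
        Finset.sum_congr rfl fun i hi => by rw [Function.update_of_ne (ne_of_mem_erase hi)]
      rw [h3]
      ring
    rw [h2]
    cases y j
    · rw [sg_false, mul_neg, mul_one, ← sub_eq_add_neg, Real.cos_sub_pi_div_two]
      ring
    · rw [sg_true, mul_one, Real.cos_add_pi_div_two]
      ring
  simp only [h1] at h
  rw [Ex_mul, ← Finset.mul_prod_erase _ _ (mem_univ j), Function.update_self,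
    Real.cos_add_pi_div_two] at h
  have h3 : ∏ i ∈ univ.erase j, Real.cos (Function.update θ j (θ j + Real.pi / 2) i)
      = ∏ i ∈ univ.erase j, Real.cos (θ i) :=
    Finset.prod_congr rfl fun i hi => by rw [Function.update_of_ne (ne_of_mem_erase hi)]
  rw [h3] at h
  linarith

theorem CPR_exp {x : ℝ} (h0 : 0 ≤ x) (h1 : x ≤ 1 / 8) : Real.exp (-(x + x ^ 2)) ≤ 1 - x := by
  have hu : 0 ≤ x + x ^ 2 := by positivity
  have h := Real.quadratic_le_exp_of_nonneg hu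
  rw [Real.exp_neg]
  have hp : 0 < Real.exp (x + x ^ 2) := Real.exp_pos _
  rw [inv_le_comm₀ hp (by linarith)]
  refine le_trans ?_ h
  rw [inv_le_iff_one_le_mul₀ (by linarith)]
  nlinarith [mul_nonneg (sq_nonneg x) (show 0 ≤ 7 / 8 - x by linarith), mul_nonneg (sq_nonneg x) h0, mul_nonneg (mul_nonneg (sq_nonneg x) h0) (show 0 ≤ 1 / 8 - x by linarith), mul_nonneg (mul_nonneg (sq_nonneg x) h0) h0, mul_nonneg (mul_nonneg (sq_nonneg x) (mul_nonneg h0 h0)) (show 0 ≤ 1 / 8 - x by linarith)]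

omit [DecidableEq ι] in
/-- The lower bound of a product of cosines. -/
theorem CPR_low (b : ι → ℝ) (δ l : ℝ) (hδ : δ ≤ 1 / 4) (hb : ∀ i, |b i| ≤ δ)
    (hs : ∑ i, b i ^ 2 ≤ 1) (hl : 0 ≤ l) (hl' : l ≤ 2) (s : Finset ι) :
    Real.exp (-(l ^ 2 / 2)) - 4 * δ ^ 2 ≤ ∏ i ∈ s, Real.cos (l * b i) := by
  have hb2 : ∀ i, b i ^ 2 ≤ δ ^ 2 := by
    intro i
    rw [← sq_abs (b i)]
    exact pow_le_pow_left₀ (abs_nonneg _) (hb i) 2
  have hδ2 : ∀ i : ι, δ ^ 2 ≤ 1 / 16 := by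
    intro i
    have h0 : 0 ≤ δ := le_trans (abs_nonneg _) (hb i)
    nlinarith
  have hl2 : l ^ 2 ≤ 4 := by nlinarith
  have hx : ∀ i, l ^ 2 * b i ^ 2 / 2 ≤ 1 / 8 := by
    intro i
    have h1 := hb2 i
    have h2 := hδ2 i
    have h3 : l ^ 2 * b i ^ 2 ≤ 4 * (1 / 16) :=
      mul_le_mul hl2 (le_trans h1 h2) (sq_nonneg _) (by norm_num)
    linarith
  have h1 : ∏ i ∈ s, Real.exp (-(l ^ 2 * b i ^ 2 / 2 + (l ^ 2 * b i ^ 2 / 2) ^ 2))
      ≤ ∏ i ∈ s, Real.cos (l * b i) := by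
    refine Finset.prod_le_prod (fun i _ => (Real.exp_pos _).le) fun i _ => ?_
    refine le_trans (CPR_exp (by positivity) (hx i)) ?_
    have h2 := Real.one_sub_sq_div_two_le_cos (x := l * b i)
    refine le_trans (le_of_eq ?_) h2
    ring
  refine le_trans ?_ h1
  rw [← Real.exp_sum]
  have h2 : ∑ i ∈ s, b i ^ 2 ≤ 1 :=
    le_trans (Finset.sum_le_sum_of_subset_of_nonneg (subset_univ s)
      fun i _ _ => sq_nonneg _) hs
  have h3 : ∑ i ∈ s, (l ^ 2 * b i ^ 2 / 2 + (l ^ 2 * b i ^ 2 / 2) ^ 2)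
      ≤ l ^ 2 / 2 + 4 * δ ^ 2 := by
    have h4 : ∀ i ∈ s, (l ^ 2 * b i ^ 2 / 2 + (l ^ 2 * b i ^ 2 / 2) ^ 2)
        ≤ (l ^ 2 / 2 + 4 * δ ^ 2) * b i ^ 2 := by
      intro i _
      have h5 : (l ^ 2) ^ 2 * (b i ^ 2 * b i ^ 2) ≤ 16 * (δ ^ 2 * b i ^ 2) := by
        refine mul_le_mul ?_ (mul_le_mul_of_nonneg_right (hb2 i) (sq_nonneg _))
          (by positivity) (by norm_num)
        nlinarith [sq_nonneg l]
      nlinarith
    refine le_trans (Finset.sum_le_sum h4) ?_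
    rw [← Finset.mul_sum]
    have h6 : 0 ≤ l ^ 2 / 2 + 4 * δ ^ 2 := by positivity
    nlinarith
  have h4 : Real.exp (-(l ^ 2 / 2) + -(4 * δ ^ 2))
      ≤ Real.exp (∑ i ∈ s, -(l ^ 2 * b i ^ 2 / 2 + (l ^ 2 * b i ^ 2 / 2) ^ 2)) := by
    apply Real.exp_le_exp.2
    rw [Finset.sum_neg_distrib]
    linarith
  refine le_trans ?_ h4
  rw [Real.exp_add]
  have h5 : 1 + -(4 * δ ^ 2) ≤ Real.exp (-(4 * δ ^ 2)) := by
    have := Real.add_one_le_exp (-(4 * δ ^ 2))
    linarith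
  have h6 : 0 < Real.exp (-(l ^ 2 / 2)) := Real.exp_pos _
  have h7 : Real.exp (-(l ^ 2 / 2)) ≤ 1 := by
    rw [Real.exp_le_one_iff]
    have := sq_nonneg l
    linarith
  have h8 := mul_le_mul_of_nonneg_left h5 h6.le
  have h9 : Real.exp (-(l ^ 2 / 2)) * (4 * δ ^ 2) ≤ 1 * (4 * δ ^ 2) :=
    mul_le_mul_of_nonneg_right h7 (by positivity)
  linarith

/-- CPR -/
theorem cos_mean (b : ι → ℝ) (δ l : ℝ) (hδ : δ ≤ 1 / 4) (hb : ∀ i, |b i| ≤ δ)
    (hs : ∑ i, b i ^ 2 ≤ 1) (hl : 0 ≤ l) (hl' : l ≤ 2) :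
    Real.exp (-(l ^ 2 / 2)) - 16 * δ ^ 2 ≤
      Ex 0 (fun y => Real.cos (l * ∑ i, b i * sg (y i))) := by
  have h := CPR_cos (fun i => l * b i)
  have h1 : ∀ y : ι → Bool, ∑ i, l * b i * sg (y i) = l * ∑ i, b i * sg (y i) := by
    intro y
    rw [Finset.mul_sum]
    exact Finset.sum_congr rfl fun i _ => by ring
  simp only [h1] at h
  rw [h]
  have h2 := CPR_low b δ l hδ hb hs hl hl' univ
  have h3 := sq_nonneg δ
  linarith

/-- CPR -/
theorem sin_mean (b : ι → ℝ) (δ a : ℝ) (hδ : δ ≤ 1 / 4) (hb : ∀ i, |b i| ≤ δ)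
    (hs : ∑ i, b i ^ 2 ≤ 1) (ha : 0 ≤ a) (ha' : a ≤ 1) :
    a * (∑ i, b i ^ 2) * Real.exp (-(a ^ 2 / 2)) - 16 * δ ^ 2 ≤
      Ex 0 (fun y => (∑ i, b i * sg (y i)) * Real.sin (a * ∑ i, b i * sg (y i))) := by
  have h1 : ∀ y : ι → Bool, ∑ i, a * b i * sg (y i) = a * ∑ i, b i * sg (y i) := by
    intro y
    rw [Finset.mul_sum]
    exact Finset.sum_congr rfl fun i _ => by ring
  have h2 : ∀ y : ι → Bool, (∑ i, b i * sg (y i)) * Real.sin (a * ∑ i, b i * sg (y i))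
      = ∑ j, b j * (sg (y j) * Real.sin (∑ i, a * b i * sg (y i))) := by
    intro y
    rw [h1, Finset.sum_mul]
    exact Finset.sum_congr rfl fun i _ => by ring
  simp only [h2]
  rw [Ex_sum]
  have h3 : ∀ j, Ex 0 (fun y => b j * (sg (y j) * Real.sin (∑ i, a * b i * sg (y i))))
      = b j * (Real.sin (a * b j) * ∏ i ∈ univ.erase j, Real.cos (a * b i)) := by
    intro j
    rw [Ex_mul, CPR_sin (fun i => a * b i) j]
  simp only [h3]
  set E : ℝ := Real.exp (-(a ^ 2 / 2)) with hE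
  have hE0 : 0 < E := Real.exp_pos _
  have hE1 : E ≤ 1 := by
    rw [hE, Real.exp_le_one_iff]
    have := sq_nonneg a
    linarith
  have hEl : 1 / 2 ≤ E := by
    have := Real.add_one_le_exp (-(a ^ 2 / 2))
    rw [← hE] at this
    nlinarith
  have h4 : ∀ j ∈ (univ : Finset ι), a * b j ^ 2 * E - 5 * δ ^ 2 * b j ^ 2 ≤
      b j * (Real.sin (a * b j) * ∏ i ∈ univ.erase j, Real.cos (a * b i)) := by
    intro j _
    have hlow := CPR_low b δ a hδ hb hs ha (by linarith) (univ.erase j)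
    rw [← hE] at hlow
    set P : ℝ := ∏ i ∈ univ.erase j, Real.cos (a * b i) with hP
    have hδ0 : 0 ≤ δ := le_trans (abs_nonneg _) (hb j)
    have hδ2 : δ ^ 2 ≤ 1 / 16 := by nlinarith
    have hb2 : b j ^ 2 ≤ δ ^ 2 := by
      rw [← sq_abs (b j)]
      exact pow_le_pow_left₀ (abs_nonneg _) (hb j) 2
    have hu : a * b j ^ 2 - a ^ 3 * b j ^ 4 / 4 ≤ b j * Real.sin (a * b j) := by
      have key : ∀ c : ℝ, 0 ≤ c → c ≤ 1 → a * c ^ 2 - a ^ 3 * c ^ 4 / 4 ≤ c * Real.sin (a * c) := by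
        intro c hc hc1
        rcases eq_or_lt_of_le (mul_nonneg ha hc) with h0 | h0
        · rw [← h0, Real.sin_zero, mul_zero]
          have e : a * c ^ 2 - a ^ 3 * c ^ 4 / 4 = (a * c) * c - (a * c) ^ 3 * c / 4 := by ring
          rw [e, ← h0]
          norm_num
        · have h5 := Real.sin_gt_sub_cube h0
          have h6 := mul_le_mul_of_nonneg_left h5.le hc
          refine le_trans ?_ h6
          have h7 : 0 ≤ a ^ 3 * c ^ 4 := by positivity
          have e : c * (a * c - (a * c) ^ 3 / 6) = a * c ^ 2 - a ^ 3 * c ^ 4 / 6 := by ring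
          rw [e]
          linarith
      rcases le_total 0 (b j) with h0 | h0
      · exact key _ h0 (by
          have := hb j
          rw [abs_of_nonneg h0] at this
          linarith)
      · have h5 := key (-b j) (by linarith) (by
          have := hb j
          rw [abs_of_nonpos h0] at this
          linarith)
        rw [mul_neg, Real.sin_neg] at h5
        refine le_trans (le_of_eq ?_) (le_trans h5 (le_of_eq ?_))
        · ring
        · ring
    have ha3 : a ^ 3 ≤ 1 := pow_le_one₀ ha ha'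
    have ha30 : 0 ≤ a ^ 3 := by positivity
    have hL0 : 0 ≤ a * b j ^ 2 - a ^ 3 * b j ^ 4 / 4 := by
      have e : a * b j ^ 2 - a ^ 3 * b j ^ 4 / 4 = a * b j ^ 2 * (1 - a ^ 2 * b j ^ 2 / 4) := by ring
      rw [e]
      refine mul_nonneg (by positivity) ?_
      have h5 : a ^ 2 * b j ^ 2 ≤ 1 * 1 :=
        mul_le_mul (by nlinarith) (by linarith) (sq_nonneg _) (by norm_num)
      linarith
    have hL1 : a * b j ^ 2 - a ^ 3 * b j ^ 4 / 4 ≤ b j ^ 2 := by
      have h5 : a * b j ^ 2 ≤ 1 * b j ^ 2 := mul_le_mul_of_nonneg_right ha' (sq_nonneg _)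
      have h6 : 0 ≤ a ^ 3 * b j ^ 4 / 4 := by positivity
      linarith
    have hP0 : 0 ≤ P := by linarith
    have h5 : (a * b j ^ 2 - a ^ 3 * b j ^ 4 / 4) * (E - 4 * δ ^ 2)
        ≤ (b j * Real.sin (a * b j)) * P :=
      le_trans (mul_le_mul_of_nonneg_left hlow hL0) (mul_le_mul_of_nonneg_right hu hP0)
    have h6 : a ^ 3 * b j ^ 4 / 4 * E ≤ δ ^ 2 * b j ^ 2 := by
      have h7 : a ^ 3 * b j ^ 4 ≤ 1 * (δ ^ 2 * b j ^ 2) := by
        have e : b j ^ 4 = b j ^ 2 * b j ^ 2 := by ring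
        rw [e]
        exact mul_le_mul ha3 (mul_le_mul_of_nonneg_right hb2 (sq_nonneg _)) (by positivity)
          (by norm_num)
      have h8 : a ^ 3 * b j ^ 4 / 4 * E ≤ a ^ 3 * b j ^ 4 / 4 * 1 :=
        mul_le_mul_of_nonneg_left hE1 (by positivity)
      have h9 : 0 ≤ δ ^ 2 * b j ^ 2 := by positivity
      linarith
    have h7 : (a * b j ^ 2 - a ^ 3 * b j ^ 4 / 4) * (4 * δ ^ 2) ≤ b j ^ 2 * (4 * δ ^ 2) :=
      mul_le_mul_of_nonneg_right hL1 (by positivity)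
    have e : b j * (Real.sin (a * b j) * P) = (b j * Real.sin (a * b j)) * P := by ring
    rw [e]
    linarith
  refine le_trans ?_ (Finset.sum_le_sum h4)
  rw [Finset.sum_sub_distrib, ← Finset.sum_mul, ← Finset.mul_sum, ← Finset.mul_sum]
  have h5 : 5 * δ ^ 2 * ∑ i, b i ^ 2 ≤ 5 * δ ^ 2 * 1 :=
    mul_le_mul_of_nonneg_left hs (by positivity)
  have h6 := sq_nonneg δ
  linarith

end Pool.Agent.PCB
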