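import Mathlib

set_option autoImplicit false

/-! Expectations over independent signs, and the function `F μ v = E |μ + √v G|`. -/

namespace Pool.Agent.PCB

open Finset

set_option linter.unusedSectionVars false

/-- The sign of a bit. -/
def sg (b : Bool) : ℝ := if b then 1 else -1

@[simp] theorem sg_true : sg true = 1 := rfl
@[simp] theorem sg_false : sg false = -1 := by simp [sg]

theorem sg_sq (b : Bool) : sg b ^ 2 = 1 := by cases b <;> simp

theorem abs_sg (b : Bool) : |sg b| = 1 := by cases b <;> simp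

variable {ι : Type} [Fintype ι] [DecidableEq ι]

/-- The probability of `x` if the signs are independent with means `m i`. -/
noncomputable def pr (m : ι → ℝ) (x : ι → Bool) : ℝ := ∏ i, ((1 + sg (x i) * m i) / 2)

/-- Expectation over independent signs with means `m i`. -/
noncomputable def Ex (m : ι → ℝ) (f : (ι → Bool) → ℝ) : ℝ := ∑ x, pr m x * f x

/-- `E |μ + √v G|`, `G` standard Gaussian. -/
noncomputable def F (μ v : ℝ) : ℝ :=
  ∫ x, |μ + √v * x| ∂(ProbabilityTheory.gaussianReal 0 1)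

theorem pr_nonneg {m : ι → ℝ} (hm : ∀ i, |m i| ≤ 1) (x : ι → Bool) : 0 ≤ pr m x := by
  refine Finset.prod_nonneg fun i _ => ?_
  have h := abs_le.1 (hm i)
  cases x i <;> simp <;> linarith [h.1, h.2]

theorem Ex_prod (m : ι → ℝ) (f : ι → Bool → ℝ) :
    Ex m (fun x => ∏ i, f i (x i)) =
      ∏ i, ((1 + m i) / 2 * f i true + (1 - m i) / 2 * f i false) := by
  have h : ∀ i, ((1 + m i) / 2 * f i true + (1 - m i) / 2 * f i false) =
      ∑ b : Bool, (1 + sg b * m i) / 2 * f i b := by
    intro i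
    rw [Fintype.sum_bool, sg_true, sg_false]
    ring
  rw [Finset.prod_congr rfl fun i _ => h i, Finset.prod_univ_sum, Fintype.piFinset_univ]
  unfold Ex pr
  refine Finset.sum_congr rfl fun x _ => ?_
  rw [← Finset.prod_mul_distrib]

theorem sum_pr (m : ι → ℝ) : ∑ x, pr m x = 1 := by
  have h := Ex_prod m (fun _ _ => 1)
  simp only [Ex, Finset.prod_const_one, mul_one] at h
  rw [h]
  refine Finset.prod_eq_one fun i _ => ?_
  ring

theorem Ex_const (m : ι → ℝ) (c : ℝ) : Ex m (fun _ => c) = c := by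
  unfold Ex
  rw [← Finset.sum_mul, sum_pr, one_mul]

theorem Ex_add (m : ι → ℝ) (f g : (ι → Bool) → ℝ) :
    Ex m (fun x => f x + g x) = Ex m f + Ex m g := by
  unfold Ex
  rw [← Finset.sum_add_distrib]
  exact Finset.sum_congr rfl fun x _ => by ring

theorem Ex_sub (m : ι → ℝ) (f g : (ι → Bool) → ℝ) :
    Ex m (fun x => f x - g x) = Ex m f - Ex m g := by
  unfold Ex
  rw [← Finset.sum_sub_distrib]
  exact Finset.sum_congr rfl fun x _ => by ring

theorem Ex_mul (m : ι → ℝ) (c : ℝ) (f : (ι → Bool) → ℝ) :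
    Ex m (fun x => c * f x) = c * Ex m f := by
  unfold Ex
  rw [Finset.mul_sum]
  exact Finset.sum_congr rfl fun x _ => by ring

theorem Ex_sum {κ : Type} (m : ι → ℝ) (s : Finset κ) (f : κ → (ι → Bool) → ℝ) :
    Ex m (fun x => ∑ k ∈ s, f k x) = ∑ k ∈ s, Ex m (f k) := by
  unfold Ex
  rw [Finset.sum_comm]
  exact Finset.sum_congr rfl fun x _ => Finset.mul_sum _ _ _

theorem Ex_mono {m : ι → ℝ} (hm : ∀ i, |m i| ≤ 1) {f g : (ι → Bool) → ℝ} (h : ∀ x, f x ≤ g x) :
    Ex m f ≤ Ex m g :=
  Finset.sum_le_sum fun x _ => mul_le_mul_of_nonneg_left (h x) (pr_nonneg hm x)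

theorem Ex_nonneg {m : ι → ℝ} (hm : ∀ i, |m i| ≤ 1) {f : (ι → Bool) → ℝ} (h : ∀ x, 0 ≤ f x) :
    0 ≤ Ex m f :=
  Finset.sum_nonneg fun x _ => mul_nonneg (pr_nonneg hm x) (h x)

/-- Cauchy-Schwarz. -/
theorem Ex_cs {m : ι → ℝ} (hm : ∀ i, |m i| ≤ 1) (f g : (ι → Bool) → ℝ) :
    Ex m (fun x => f x * g x) ^ 2 ≤ Ex m (fun x => f x ^ 2) * Ex m (fun x => g x ^ 2) := by
  unfold Ex
  have h := Finset.sum_mul_sq_le_sq_mul_sq (Finset.univ : Finset (ι → Bool))
    (fun x => √(pr m x) * f x) (fun x => √(pr m x) * g x)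
  have e : ∀ x, √(pr m x) * √(pr m x) = pr m x := fun x => Real.mul_self_sqrt (pr_nonneg hm x)
  have e1 : ∀ x, √(pr m x) * f x * (√(pr m x) * g x) = pr m x * (f x * g x) := by
    intro x
    calc √(pr m x) * f x * (√(pr m x) * g x) = (√(pr m x) * √(pr m x)) * (f x * g x) := by ring
      _ = _ := by rw [e x]
  have e2 : ∀ (h : (ι → Bool) → ℝ) (x : ι → Bool), (√(pr m x) * h x) ^ 2 = pr m x * h x ^ 2 := by
    intro h x
    rw [mul_pow, Real.sq_sqrt (pr_nonneg hm x)]
  simp only [e1, e2] at h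
  exact h

theorem Ex_abs_le {m : ι → ℝ} (hm : ∀ i, |m i| ≤ 1) (f : (ι → Bool) → ℝ) :
    Ex m (fun x => |f x|) ≤ √(Ex m (fun x => f x ^ 2)) := by
  have h := Ex_cs hm (fun x => |f x|) (fun _ => 1)
  simp only [mul_one, sq_abs, one_pow, Ex_const] at h
  exact Real.le_sqrt_of_sq_le h

theorem zero_mean : ∀ i : ι, |(0 : ι → ℝ) i| ≤ 1 := by
  intro i
  simp

/-- Variance of a linear form. -/
theorem Ex_lin_sq {m : ι → ℝ} (b : ι → ℝ) :
    Ex m (fun x => (∑ k, b k * (sg (x k) - m k)) ^ 2) = ∑ k, b k ^ 2 * (1 - m k ^ 2) := by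
  have h1 : ∀ x : ι → Bool, (∑ k, b k * (sg (x k) - m k)) ^ 2 =
      ∑ k, ∑ l, b k * b l * ((sg (x k) - m k) * (sg (x l) - m l)) := by
    intro x
    rw [sq, Finset.sum_mul_sum]
    exact Finset.sum_congr rfl fun k _ => Finset.sum_congr rfl fun l _ => by ring
  simp only [h1]
  rw [Ex_sum]
  refine Finset.sum_congr rfl fun k _ => ?_
  rw [Ex_sum]
  have h2 : ∀ l, Ex m (fun x => b k * b l * ((sg (x k) - m k) * (sg (x l) - m l))) =
      if k = l then b k ^ 2 * (1 - m k ^ 2) else 0 := by
    intro l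
    rw [Ex_mul]
    by_cases hkl : k = l
    · subst hkl
      have h3 : (fun x : ι → Bool => (sg (x k) - m k) * (sg (x k) - m k)) =
          fun x => ∏ i, (if i = k then (sg (x i) - m i) ^ 2 else 1) := by
        funext x
        rw [Finset.prod_ite_eq' Finset.univ k fun i => (sg (x i) - m i) ^ 2, if_pos (Finset.mem_univ _)]
        ring
      rw [h3, Ex_prod m (fun i b => if i = k then (sg b - m i) ^ 2 else 1), if_pos rfl]
      have h4 : ∀ i, ((1 + m i) / 2 * (if i = k then (sg true - m i) ^ 2 else 1) +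
          (1 - m i) / 2 * (if i = k then (sg false - m i) ^ 2 else 1)) =
          if i = k then (1 - m i ^ 2) else 1 := by
        intro i
        split_ifs
        · simp
          ring
        · ring
      rw [Finset.prod_congr rfl fun i _ => h4 i, Finset.prod_ite_eq' Finset.univ k,
        if_pos (Finset.mem_univ _)]
      ring
    · rw [if_neg hkl]
      have h3 : (fun x : ι → Bool => (sg (x k) - m k) * (sg (x l) - m l)) =
          fun x => ∏ i, (if i = k then (sg (x i) - m i) else if i = l then (sg (x i) - m i) else 1) := by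
        funext x
        have e1 : ∀ i, (if i = k then (sg (x i) - m i) else if i = l then (sg (x i) - m i) else 1) =
            (if i = k then (sg (x i) - m i) else 1) * (if i = l then (sg (x i) - m i) else 1) := by
          intro i
          by_cases h1 : i = k
          · rw [if_pos h1, if_pos h1, if_neg (by rw [h1]; exact hkl), mul_one]
          · rw [if_neg h1, if_neg h1, one_mul]
        rw [Finset.prod_congr rfl fun i _ => e1 i, Finset.prod_mul_distrib,
          Finset.prod_ite_eq' Finset.univ k fun i => (sg (x i) - m i), if_pos (Finset.mem_univ _),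
          Finset.prod_ite_eq' Finset.univ l fun i => (sg (x i) - m i), if_pos (Finset.mem_univ _)]
      rw [h3, Ex_prod m (fun i b => if i = k then (sg b - m i) else if i = l then (sg b - m i) else 1)]
      rw [Finset.prod_eq_zero (Finset.mem_univ k), mul_zero]
      rw [if_pos rfl, if_pos rfl]
      simp
      ring
  rw [Finset.sum_congr rfl fun l _ => h2 l, Finset.sum_ite_eq, if_pos (Finset.mem_univ _)]

end Pool.Agent.PCB
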