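import Pool.Agent.PCB.Defs2

set_option autoImplicit false

namespace Pool.Agent.PCB

open Finset MeasureTheory

variable {ι : Type} [Fintype ι] [DecidableEq ι]

/-- the flip of one sign -/
private def EFS_fl (j : ι) (y : ι → Bool) : ι → Bool := Function.update y j (!(y j))

private theorem EFS_fl_fl (j : ι) (y : ι → Bool) : EFS_fl j (EFS_fl j y) = y := by
  funext i
  unfold EFS_fl
  by_cases h : i = j
  · subst h
    simp
  · simp [Function.update_of_ne h]

private theorem EFS_comm (i j : ι) (y : ι → Bool) :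
    EFS_fl i (EFS_fl j y) = EFS_fl j (EFS_fl i y) := by
  by_cases hij : i = j
  · subst hij; rfl
  · funext k
    unfold EFS_fl
    by_cases h1 : k = i
    · subst h1
      simp [Function.update_of_ne hij]
    · by_cases h2 : k = j
      · subst h2
        simp [Function.update_of_ne h1]
      · simp [Function.update_of_ne h1, Function.update_of_ne h2]

private theorem EFS_inv (j : ι) (g : (ι → Bool) → ℝ) :
    Ex 0 (fun y => g (EFS_fl j y)) = Ex 0 g := by
  have hpr : ∀ x : ι → Bool, pr (0 : ι → ℝ) x = ∏ _i : ι, (1 / 2 : ℝ) := by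
    intro x
    unfold pr
    exact Finset.prod_congr rfl fun i _ => by simp
  unfold Ex
  simp only [hpr]
  exact Equiv.sum_comp (Function.Involutive.toPerm (EFS_fl j) (EFS_fl_fl j))
    (fun x => (∏ _i : ι, (1 / 2 : ℝ)) * g x)

private noncomputable def EFS_A (j : ι) (g : (ι → Bool) → ℝ) : (ι → Bool) → ℝ :=
  fun y => (g y + g (EFS_fl j y)) / 2

private noncomputable def EFS_D (j : ι) (g : (ι → Bool) → ℝ) : (ι → Bool) → ℝ :=
  fun y => (g y - g (EFS_fl j y)) / 2

private theorem EFS_split (j : ι) (g : (ι → Bool) → ℝ) :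
    Ex 0 (fun y => g y ^ 2) = Ex 0 (fun y => EFS_A j g y ^ 2) + Ex 0 (fun y => EFS_D j g y ^ 2) := by
  have h1 : Ex 0 (fun y => EFS_A j g y ^ 2) + Ex 0 (fun y => EFS_D j g y ^ 2) =
      Ex 0 (fun y => EFS_A j g y ^ 2 + EFS_D j g y ^ 2) := (Ex_add _ _ _).symm
  have h2 : (fun y => EFS_A j g y ^ 2 + EFS_D j g y ^ 2) =
      fun y => 1 / 2 * g y ^ 2 + 1 / 2 * (fun z => g z ^ 2) (EFS_fl j y) := by
    funext y
    unfold EFS_A EFS_D
    ring
  rw [h1, h2, Ex_add, Ex_mul, Ex_mul, EFS_inv j (fun z => g z ^ 2)]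
  ring

private theorem EFS_A_le (j : ι) (g : (ι → Bool) → ℝ) :
    Ex 0 (fun y => EFS_A j g y ^ 2) ≤ Ex 0 (fun y => g y ^ 2) := by
  have h := EFS_split j g
  have h2 : 0 ≤ Ex 0 (fun y => EFS_D j g y ^ 2) := Ex_nonneg zero_mean fun y => sq_nonneg _
  linarith

private theorem EFS_DA (i j : ι) (g : (ι → Bool) → ℝ) :
    EFS_D i (EFS_A j g) = EFS_A j (EFS_D i g) := by
  funext y
  simp only [EFS_D, EFS_A]
  rw [EFS_comm i j y]
  ring

/-- successive averages -/
private noncomputable def EFS_P : List ι → ((ι → Bool) → ℝ) → (ι → Bool) → ℝ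
  | [], g => g
  | j :: l, g => EFS_P l (EFS_A j g)

private theorem EFS_main (l : List ι) : ∀ g : (ι → Bool) → ℝ,
    Ex 0 (fun y => g y ^ 2) - Ex 0 (fun y => EFS_P l g y ^ 2) ≤
      (l.map fun j => Ex 0 (fun y => EFS_D j g y ^ 2)).sum := by
  induction l with
  | nil => intro g; simp [EFS_P]
  | cons j l ih =>
    intro g
    have h1 := ih (EFS_A j g)
    have h2 := EFS_split j g
    have h3 : (l.map fun i => Ex 0 (fun y => EFS_D i (EFS_A j g) y ^ 2)).sum ≤
        (l.map fun i => Ex 0 (fun y => EFS_D i g y ^ 2)).sum := by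
      apply List.sum_le_sum
      intro i _
      rw [EFS_DA]
      exact EFS_A_le j (EFS_D i g)
    rw [List.map_cons, List.sum_cons]
    show Ex 0 (fun y => g y ^ 2) - Ex 0 (fun y => EFS_P l (EFS_A j g) y ^ 2) ≤ _
    linarith

private theorem EFS_mean (l : List ι) : ∀ g : (ι → Bool) → ℝ, Ex 0 (EFS_P l g) = Ex 0 g := by
  induction l with
  | nil => intro g; rfl
  | cons j l ih =>
    intro g
    show Ex 0 (EFS_P l (EFS_A j g)) = _
    rw [ih]
    have h2 : EFS_A j g = fun y => 1 / 2 * g y + 1 / 2 * g (EFS_fl j y) := by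
      funext y
      unfold EFS_A
      ring
    rw [h2, Ex_add, Ex_mul, Ex_mul, EFS_inv j g]
    ring

private theorem EFS_A_keep (i j : ι) (g : (ι → Bool) → ℝ) (h : ∀ y, g (EFS_fl i y) = g y) (y) :
    EFS_A j g (EFS_fl i y) = EFS_A j g y := by
  unfold EFS_A
  rw [h, ← EFS_comm, h]

private theorem EFS_P_keep (i : ι) (l : List ι) : ∀ g : (ι → Bool) → ℝ,
    (∀ y, g (EFS_fl i y) = g y) → ∀ y, EFS_P l g (EFS_fl i y) = EFS_P l g y := by
  induction l with
  | nil => intro g h; exact h
  | cons j l ih =>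
    intro g h
    exact ih (EFS_A j g) (EFS_A_keep i j g h)

private theorem EFS_P_inv (l : List ι) : ∀ g : (ι → Bool) → ℝ,
    ∀ i ∈ l, ∀ y, EFS_P l g (EFS_fl i y) = EFS_P l g y := by
  induction l with
  | nil => intro g i hi; simp at hi
  | cons j l ih =>
    intro g i hi
    rcases List.mem_cons.1 hi with rfl | hi
    · refine EFS_P_keep i l (EFS_A i g) (fun y => ?_)
      simp only [EFS_A]
      rw [EFS_fl_fl]
      ring
    · exact ih (EFS_A j g) i hi

private theorem EFS_const (h : (ι → Bool) → ℝ) (hh : ∀ i y, h (EFS_fl i y) = h y)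
    (y y' : ι → Bool) : h y = h y' := by
  have key : ∀ s : Finset ι, h (s.piecewise y y') = h y' := by
    intro s
    induction s using Finset.induction_on with
    | empty => rw [Finset.piecewise_empty]
    | insert j s hj ih =>
      rw [Finset.piecewise_insert, ← ih]
      by_cases hv : y j = (s.piecewise y y') j
      · rw [hv, Function.update_eq_self]
      · have : Function.update (s.piecewise y y') j (y j) = EFS_fl j (s.piecewise y y') := by
          unfold EFS_fl
          congr 1
          revert hv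
          cases y j <;> cases (s.piecewise y y') j <;> simp
        rw [this]
        exact hh j _
  have h1 := key Finset.univ
  rwa [Finset.piecewise_univ] at h1

/-- EFS: Efron-Stein for uniform signs. -/
theorem efron (f : (ι → Bool) → ℝ) :
    Ex 0 (fun y => f y ^ 2) - Ex 0 f ^ 2 ≤
      ∑ j, Ex 0 (fun y => ((f y - f (Function.update y j (!(y j)))) / 2) ^ 2) := by
  have h1 := EFS_main (Finset.univ : Finset ι).toList f
  have h2 := EFS_mean (Finset.univ : Finset ι).toList f
  have h3 : ∀ i y, EFS_P (Finset.univ : Finset ι).toList f (EFS_fl i y) =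
      EFS_P (Finset.univ : Finset ι).toList f y := fun i y =>
    EFS_P_inv _ f i (Finset.mem_toList.2 (Finset.mem_univ i)) y
  obtain ⟨c, hc⟩ : ∃ c : ℝ, EFS_P (Finset.univ : Finset ι).toList f = fun _ => c :=
    ⟨EFS_P (Finset.univ : Finset ι).toList f (fun _ => true), by
      funext y
      exact EFS_const _ h3 _ _⟩
  rw [hc, Ex_const] at h2
  rw [hc, Ex_const, h2, Finset.sum_map_toList] at h1
  exact h1

end Pool.Agent.PCB
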