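import Pool.Agent.PCB.CLT
import Pool.Agent.PCB.Defs2

set_option autoImplicit false

namespace Pool.Agent.PCB

open Finset MeasureTheory

variable {n ι : Type} [Fintype n] [DecidableEq n] [Fintype ι] [DecidableEq ι]

/-- FIXY -/
theorem fixed_y (B W : Matrix n ι ℝ) (L : Matrix ι n ℝ) (δ T : ℝ) (hδ : 0 ≤ δ)
    (hB : ∀ k i, |B k i| ≤ δ) (hB2 : ∀ i, ∑ k, B k i ^ 2 ≤ 1) (hT : 0 < T) (y : ι → Bool) :
    ∑ i, F (mu W y i) (Vv W B y i) - Fintype.card ι * (T ^ 2 * δ + 2 / T) -
        ∑ i, |∑ k, (L i k - W k i) * phi W y k| -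
        √(Fintype.card ι * ∑ k, ∑ i, (L i k - B k i) ^ 2) ≤
      Ex (phi W y) (fun x => ∑ i, |∑ k, L i k * sg (x k)|) := by
  have hm : ∀ k, |phi W y k| ≤ 1 := fun k => by
    unfold phi
    exact Real.abs_sin_le_one _
  -- the noise of the third kind
  have hZ : ∀ i, Ex (phi W y) (fun x => |∑ k, (L i k - B k i) * (sg (x k) - phi W y k)|) ≤
      √(∑ k, (L i k - B k i) ^ 2) := by
    intro i
    refine (Ex_abs_le hm _).trans (Real.sqrt_le_sqrt ?_)
    rw [Ex_lin_sq]
    refine Finset.sum_le_sum fun k _ => ?_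
    nlinarith [mul_nonneg (sq_nonneg (L i k - B k i)) (sq_nonneg (phi W y k))]
  have hZs : ∑ i, √(∑ k, (L i k - B k i) ^ 2) ≤
      √(Fintype.card ι * ∑ k, ∑ i, (L i k - B k i) ^ 2) := by
    refine Real.le_sqrt_of_sq_le ?_
    have h := Finset.sum_mul_sq_le_sq_mul_sq (Finset.univ : Finset ι) (fun _ => (1 : ℝ))
      (fun i => √(∑ k, (L i k - B k i) ^ 2))
    simp only [one_mul, one_pow, Finset.sum_const, Finset.card_univ, nsmul_eq_mul, mul_one] at h
    refine h.trans (mul_le_mul_of_nonneg_left (le_of_eq ?_) (Nat.cast_nonneg _))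
    rw [Finset.sum_comm]
    exact Finset.sum_congr rfl fun i _ =>
      Real.sq_sqrt (Finset.sum_nonneg fun k _ => sq_nonneg _)
  have hC : ∀ i, F (mu W y i) (Vv W B y i) - (T ^ 2 * δ + 2 / T) ≤
      Ex (phi W y) (fun x => |mu W y i + ∑ k, B k i * (sg (x k) - phi W y k)|) := fun i =>
    clt (fun k => B k i) (phi W y) δ T (mu W y i) hδ (fun k => hB k i) (hB2 i) hm hT
  have hpt : ∀ (x : n → Bool) (i : ι),
      |mu W y i + ∑ k, B k i * (sg (x k) - phi W y k)| - |∑ k, (L i k - W k i) * phi W y k| -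
        |∑ k, (L i k - B k i) * (sg (x k) - phi W y k)| ≤ |∑ k, L i k * sg (x k)| := by
    intro x i
    have he : ∑ k, L i k * sg (x k) = (mu W y i + ∑ k, B k i * (sg (x k) - phi W y k)) +
        (∑ k, (L i k - W k i) * phi W y k +
          ∑ k, (L i k - B k i) * (sg (x k) - phi W y k)) := by
      unfold mu
      rw [← Finset.sum_add_distrib, ← Finset.sum_add_distrib, ← Finset.sum_add_distrib]
      exact Finset.sum_congr rfl fun k _ => by ring
    rw [he]
    have h1 := abs_sub_abs_le_abs_sub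
      (mu W y i + ∑ k, B k i * (sg (x k) - phi W y k))
      (-(∑ k, (L i k - W k i) * phi W y k + ∑ k, (L i k - B k i) * (sg (x k) - phi W y k)))
    rw [abs_neg, sub_neg_eq_add] at h1
    have h2 := abs_add_le (∑ k, (L i k - W k i) * phi W y k)
      (∑ k, (L i k - B k i) * (sg (x k) - phi W y k))
    linarith
  have hsum : Ex (phi W y) (fun x => ∑ i,
      (|mu W y i + ∑ k, B k i * (sg (x k) - phi W y k)| -
        |∑ k, (L i k - W k i) * phi W y k| -
        |∑ k, (L i k - B k i) * (sg (x k) - phi W y k)|)) ≤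
      Ex (phi W y) (fun x => ∑ i, |∑ k, L i k * sg (x k)|) :=
    Ex_mono hm fun x => Finset.sum_le_sum fun i _ => hpt x i
  refine le_trans ?_ hsum
  rw [Ex_sum]
  have hterm : ∀ i, Ex (phi W y) (fun x =>
      |mu W y i + ∑ k, B k i * (sg (x k) - phi W y k)| -
        |∑ k, (L i k - W k i) * phi W y k| -
        |∑ k, (L i k - B k i) * (sg (x k) - phi W y k)|) =
      Ex (phi W y) (fun x => |mu W y i + ∑ k, B k i * (sg (x k) - phi W y k)|) -
        |∑ k, (L i k - W k i) * phi W y k| -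
        Ex (phi W y) (fun x => |∑ k, (L i k - B k i) * (sg (x k) - phi W y k)|) := by
    intro i
    rw [Ex_sub, Ex_sub, Ex_const]
  rw [Finset.sum_congr rfl fun i _ => hterm i, Finset.sum_sub_distrib, Finset.sum_sub_distrib]
  have h1 : ∑ i, (F (mu W y i) (Vv W B y i) - (T ^ 2 * δ + 2 / T)) ≤
      ∑ i, Ex (phi W y) (fun x => |mu W y i + ∑ k, B k i * (sg (x k) - phi W y k)|) :=
    Finset.sum_le_sum fun i _ => hC i
  rw [Finset.sum_sub_distrib, Finset.sum_const, Finset.card_univ, nsmul_eq_mul] at h1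
  have h2 : ∑ i, Ex (phi W y) (fun x => |∑ k, (L i k - B k i) * (sg (x k) - phi W y k)|) ≤
      √(Fintype.card ι * ∑ k, ∑ i, (L i k - B k i) ^ 2) :=
    (Finset.sum_le_sum fun i _ => hZ i).trans hZs
  linarith

end Pool.Agent.PCB
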