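import Pool.Agent.PCB.ROW

set_option autoImplicit false

namespace Pool.Agent.PCB

open Finset MeasureTheory

private theorem good_const : 10 / √(2 / Real.pi) ≤ 13 := by
  have hpi : Real.pi < 3.15 := Real.pi_lt_d2
  have hpi0 : 0 < Real.pi := Real.pi_pos
  have h1 : (10 / 13 : ℝ) ≤ √(2 / Real.pi) := by
    apply Real.le_sqrt_of_sq_le
    rw [le_div_iff₀ hpi0]
    nlinarith
  have h2 : (0 : ℝ) < √(2 / Real.pi) := lt_of_lt_of_le (by norm_num) h1
  rw [div_le_iff₀ h2]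
  linarith

/-- GOOD -/
theorem good_rows (κ : ℝ) (hκ : 0 < κ) : ∃ c > 0, ∃ N0 : ℕ, ∀ N ≥ N0,
    ∀ (A Q : Matrix (Fin N) (Fin N) ℝ), (∀ i j, |A i j| ≤ 1) → Q * A = 1 → ∀ M : ℝ,
    (∀ x : Fin N → Bool, ∑ i, |∑ j, Q i j * sg (x j)| ≤ M) →
    M ≤ (√(2 / Real.pi) + c) * √(N : ℝ) →
    ∃ I : Finset (Fin N), (1 - κ) * N ≤ (I.card : ℝ) ∧
      ∑ i ∈ I, ((N : ℝ) * ∑ j, Q i j ^ 2) ≤ (I.card : ℝ) + κ * N := by
  obtain ⟨N1, hN1⟩ := row_stab (κ / 26) (by positivity)
  refine ⟨κ / 26, by positivity, max N1 1, ?_⟩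
  intro N hN A Q hA hQA M hM hMle
  have hN1' : N1 ≤ N := (le_max_left _ _).trans hN
  have hNpos : 0 < N := lt_of_lt_of_le one_pos ((le_max_right _ _).trans hN)
  have hNr : (0 : ℝ) < N := by exact_mod_cast hNpos
  have hs : (0 : ℝ) < √(N : ℝ) := Real.sqrt_pos.mpr hNr
  have hss : √(N : ℝ) * √(N : ℝ) = N := Real.mul_self_sqrt hNr.le
  set C : ℝ := √(2 / Real.pi) with hC
  have hCpos : 0 < C := Real.sqrt_pos.mpr (by positivity)
  set σ : Fin N → ℝ := fun i => (N : ℝ) * ∑ j, Q i j ^ 2 with hσ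
  -- the rows
  have hrow : ∀ i, √(N : ℝ) ≤ ∑ j, |√(N : ℝ) * Q i j| := by
    intro i
    have h1 : ∑ j, Q i j * A j i = 1 := by
      have := congrFun (congrFun hQA i) i
      rw [Matrix.mul_apply, Matrix.one_apply_eq] at this
      exact this
    have h2 : (1 : ℝ) ≤ ∑ j, |Q i j| := by
      calc (1 : ℝ) = |∑ j, Q i j * A j i| := by rw [h1, abs_one]
        _ ≤ ∑ j, |Q i j * A j i| := Finset.abs_sum_le_sum_abs _ _
        _ ≤ ∑ j, |Q i j| := by
          refine Finset.sum_le_sum fun j _ => ?_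
          rw [abs_mul]
          exact mul_le_of_le_one_right (abs_nonneg _) (hA j i)
    calc √(N : ℝ) = √(N : ℝ) * 1 := (mul_one _).symm
      _ ≤ √(N : ℝ) * ∑ j, |Q i j| := mul_le_mul_of_nonneg_left h2 hs.le
      _ = ∑ j, |√(N : ℝ) * Q i j| := by
        rw [Finset.mul_sum]
        refine Finset.sum_congr rfl fun j _ => ?_
        rw [abs_mul, abs_of_pos hs]
  have hsq : ∀ i, ∑ j, (√(N : ℝ) * Q i j) ^ 2 = σ i := by
    intro i
    rw [hσ]
    simp only
    rw [Finset.mul_sum]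
    refine Finset.sum_congr rfl fun j _ => ?_
    rw [mul_pow, sq (√(N : ℝ)), hss]
  have hσ1 : ∀ i, 1 ≤ σ i := by
    intro i
    have h1 := Finset.sum_mul_sq_le_sq_mul_sq (Finset.univ : Finset (Fin N)) (fun _ => (1 : ℝ))
      (fun j => |√(N : ℝ) * Q i j|)
    simp only [one_mul, one_pow, Finset.sum_const, Finset.card_univ, Fintype.card_fin,
      nsmul_eq_mul, mul_one, sq_abs] at h1
    rw [hsq] at h1
    have h2 : (N : ℝ) ≤ (∑ j, |√(N : ℝ) * Q i j|) ^ 2 := by
      calc (N : ℝ) = √(N : ℝ) ^ 2 := by rw [sq, hss]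
        _ ≤ _ := pow_le_pow_left₀ hs.le (hrow i) 2
    have h3 : (N : ℝ) * 1 ≤ N * σ i := by linarith
    exact le_of_mul_le_mul_left h3 hNr
  have hstab : ∀ i, C * (1 + 1 / 10 * min (σ i - 1) 1) - κ / 26 ≤
      √(N : ℝ) * Ex 0 (fun x : Fin N → Bool => |∑ j, Q i j * sg (x j)|) := by
    intro i
    have h : √(2 / Real.pi) * (1 + 1 / 10 * min (∑ j, (√(N : ℝ) * Q i j) ^ 2 - 1) 1) - κ / 26 ≤
        Ex 0 (fun x : Fin N → Bool => |∑ j, (√(N : ℝ) * Q i j) * sg (x j)|) :=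
      hN1 N hN1' (fun j => √(N : ℝ) * Q i j) (hrow i)
    rw [hsq] at h
    refine h.trans (le_of_eq ?_)
    rw [← Ex_mul]
    congr 1
    funext x
    rw [← abs_of_pos hs, ← abs_mul, abs_of_pos hs, Finset.mul_sum]
    congr 1
    exact Finset.sum_congr rfl fun j _ => by ring
  have hsum : ∑ i, √(N : ℝ) * Ex 0 (fun x : Fin N → Bool => |∑ j, Q i j * sg (x j)|) ≤
      (C + κ / 26) * N := by
    rw [← Finset.mul_sum, ← Ex_sum]
    have h1 : Ex 0 (fun x : Fin N → Bool => ∑ i, |∑ j, Q i j * sg (x j)|) ≤ M := by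
      calc _ ≤ Ex 0 (fun _ : Fin N → Bool => M) := Ex_mono zero_mean hM
        _ = M := Ex_const _ _
    calc √(N : ℝ) * Ex 0 (fun x : Fin N → Bool => ∑ i, |∑ j, Q i j * sg (x j)|)
        ≤ √(N : ℝ) * ((C + κ / 26) * √(N : ℝ)) :=
          mul_le_mul_of_nonneg_left (h1.trans hMle) hs.le
      _ = (C + κ / 26) * (√(N : ℝ) * √(N : ℝ)) := by ring
      _ = _ := by rw [hss]
  have htot := (Finset.sum_le_sum fun i (_ : i ∈ (Finset.univ : Finset (Fin N))) =>
    hstab i).trans hsum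
  have hexp : ∑ i : Fin N, (C * (1 + 1 / 10 * min (σ i - 1) 1) - κ / 26) =
      C * N + C / 10 * (∑ i : Fin N, min (σ i - 1) 1) - κ / 26 * N := by
    rw [Finset.sum_sub_distrib, ← Finset.mul_sum, Finset.sum_add_distrib, ← Finset.mul_sum]
    simp only [Finset.sum_const, Finset.card_univ, Fintype.card_fin, nsmul_eq_mul, mul_one]
    ring
  rw [hexp] at htot
  set T : ℝ := ∑ i : Fin N, min (σ i - 1) 1 with hT
  have hT' : T ≤ κ * N := by
    have h1 : C / 10 * T ≤ κ / 13 * N := by linarith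
    have h2 : T ≤ 10 / C * (κ / 13 * N) := by
      have h3 : T = 10 / C * (C / 10 * T) := by field_simp
      rw [h3]
      exact mul_le_mul_of_nonneg_left h1 (by positivity)
    refine h2.trans ?_
    calc 10 / C * (κ / 13 * N) ≤ 13 * (κ / 13 * N) :=
          mul_le_mul_of_nonneg_right good_const (by positivity)
      _ = κ * N := by ring
  have hmin : ∀ i, 0 ≤ min (σ i - 1) 1 := fun i =>
    le_min (by linarith [hσ1 i]) zero_le_one
  refine ⟨Finset.univ.filter fun i => σ i - 1 ≤ 1, ?_, ?_⟩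
  · have h1 : (((Finset.univ.filter fun i : Fin N => ¬ σ i - 1 ≤ 1).card : ℕ) : ℝ) ≤ κ * N := by
      refine le_trans ?_ hT'
      rw [hT, ← Finset.sum_filter_add_sum_filter_not Finset.univ (fun i => σ i - 1 ≤ 1)]
      have h2 : ∑ i ∈ Finset.univ.filter (fun i : Fin N => ¬ σ i - 1 ≤ 1), min (σ i - 1) 1 =
          ((Finset.univ.filter fun i : Fin N => ¬ σ i - 1 ≤ 1).card : ℝ) := by
        rw [Finset.sum_congr rfl fun i hi => ?_]
        rotate_left
        · exact fun _ => (1 : ℝ)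
        · rw [Finset.mem_filter] at hi
          exact min_eq_right (le_of_lt (not_le.mp hi.2))
        · rw [Finset.sum_const, nsmul_eq_mul, mul_one]
      rw [h2]
      have h3 : 0 ≤ ∑ i ∈ Finset.univ.filter (fun i : Fin N => σ i - 1 ≤ 1), min (σ i - 1) 1 :=
        Finset.sum_nonneg fun i _ => hmin i
      linarith
    have h4 := Finset.card_filter_add_card_filter_not
      (s := (Finset.univ : Finset (Fin N))) (fun i => σ i - 1 ≤ 1)
    rw [Finset.card_univ, Fintype.card_fin] at h4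
    have h5 : (((Finset.univ.filter fun i : Fin N => σ i - 1 ≤ 1).card : ℕ) : ℝ) +
        ((Finset.univ.filter fun i : Fin N => ¬ σ i - 1 ≤ 1).card : ℕ) = N := by
      exact_mod_cast h4
    linarith
  · have h1 : ∑ i ∈ Finset.univ.filter (fun i : Fin N => σ i - 1 ≤ 1), σ i =
        ((Finset.univ.filter fun i : Fin N => σ i - 1 ≤ 1).card : ℝ) +
          ∑ i ∈ Finset.univ.filter (fun i : Fin N => σ i - 1 ≤ 1), min (σ i - 1) 1 := by
      have h2 : ∀ i ∈ Finset.univ.filter (fun i : Fin N => σ i - 1 ≤ 1), σ i =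
          1 + min (σ i - 1) 1 := by
        intro i hi
        rw [Finset.mem_filter] at hi
        rw [min_eq_left hi.2]
        ring
      rw [Finset.sum_congr rfl h2, Finset.sum_add_distrib, Finset.sum_const, nsmul_eq_mul,
        mul_one]
    have h3 : ∑ i ∈ Finset.univ.filter (fun i : Fin N => σ i - 1 ≤ 1), min (σ i - 1) 1 ≤ T := by
      rw [hT]
      exact Finset.sum_le_sum_of_subset_of_nonneg (Finset.filter_subset _ _)
        fun i _ _ => hmin i
    show ∑ i ∈ Finset.univ.filter (fun i : Fin N => σ i - 1 ≤ 1), σ i ≤ _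
    rw [h1]
    linarith

end Pool.Agent.PCB
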