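import Pool.Agent.PCB.PER

set_option autoImplicit false

namespace Pool.Agent.PCB

open Finset MeasureTheory

variable {n ι : Type} [Fintype n] [DecidableEq n] [Fintype ι] [DecidableEq ι]

/-- MEAN -/
theorem mean1 (W B : Matrix n ι ℝ) (N : ℕ) (hN : 16 ≤ N)
    (hn : Fintype.card n = N) (hB : ∀ k i, |B k i| ≤ 1 / √(N : ℝ))
    (hB2 : ∀ k, ∑ i, B k i ^ 2 ≤ 1) (κ : ℝ)
    (hκ : ∑ k, ∑ i, (W k i - B k i) ^ 2 ≤ κ * N) :
    s0 * (∑ k, ∑ i, B k i ^ 2) - 16 - 2 * (N * √κ) ≤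
      Ex 0 (fun y => ∑ i, sg (y i) * mu W y i) := by
  have hN0 : (0 : ℝ) < N := by
    have : 0 < N := by omega
    exact_mod_cast this
  have hN16 : (16 : ℝ) ≤ N := by exact_mod_cast hN
  have hsq : √(N : ℝ) ^ 2 = N := Real.sq_sqrt hN0.le
  have hsq4 : (4 : ℝ) ≤ √(N : ℝ) := by
    rw [Real.le_sqrt (by norm_num) hN0.le]
    norm_num
    exact hN
  have hδ : 1 / √(N : ℝ) ≤ 1 / 4 := one_div_le_one_div_of_le (by norm_num) hsq4
  have hδ2 : (1 / √(N : ℝ)) ^ 2 = 1 / N := by rw [div_pow, one_pow, hsq]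
  have key : ∀ k, s0 * (∑ i, B k i ^ 2) - 16 * (1 / N) - 2 * √(∑ i, (W k i - B k i) ^ 2) ≤
      Ex 0 (fun y => lin W k y * Real.sin (3 / 5 * lin W k y)) := by
    intro k
    have h := per_sin (B k) (W k) (1 / √(N : ℝ)) (3 / 5) hδ (hB k) (hB2 k) (by norm_num)
      (by norm_num)
    rw [hδ2] at h
    have e : s0 * (∑ i, B k i ^ 2) =
        3 / 5 * (∑ i, B k i ^ 2) * Real.exp (-((3 / 5 : ℝ) ^ 2 / 2)) := by
      rw [s0, show (-((3 / 5 : ℝ) ^ 2 / 2)) = -(9 / 50) by norm_num]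
      ring
    rw [e]
    exact h
  have hsum := Finset.sum_le_sum fun k (_ : k ∈ (Finset.univ : Finset n)) => key k
  rw [Finset.sum_sub_distrib, Finset.sum_sub_distrib, ← Finset.mul_sum, ← Finset.mul_sum,
    Finset.sum_const, Finset.card_univ, hn, nsmul_eq_mul] at hsum
  have hone : 16 * ((N : ℝ) * (1 / N)) = 16 := by
    field_simp
  rw [hone, ← Finset.mul_sum] at hsum
  have hcs : ∑ k, √(∑ i, (W k i - B k i) ^ 2) ≤ N * √κ := by
    have h1 : (∑ k, √(∑ i, (W k i - B k i) ^ 2)) ^ 2 ≤ N * (κ * N) := by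
      have h2 := Finset.sum_mul_sq_le_sq_mul_sq (Finset.univ : Finset n)
        (fun _ => (1 : ℝ)) (fun k => √(∑ i, (W k i - B k i) ^ 2))
      simp only [one_mul, one_pow, Finset.sum_const, Finset.card_univ, hn, nsmul_eq_mul,
        mul_one] at h2
      refine h2.trans ?_
      refine mul_le_mul_of_nonneg_left ?_ hN0.le
      refine le_trans (le_of_eq ?_) hκ
      refine Finset.sum_congr rfl fun k _ => ?_
      rw [Real.sq_sqrt]
      exact Finset.sum_nonneg fun i _ => sq_nonneg _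
    have h3 : 0 ≤ ∑ k, √(∑ i, (W k i - B k i) ^ 2) :=
      Finset.sum_nonneg fun k _ => Real.sqrt_nonneg _
    have h4 : ∑ k, √(∑ i, (W k i - B k i) ^ 2) ≤ √(N * (κ * N)) := Real.le_sqrt_of_sq_le h1
    have h5 : √((N : ℝ) * (κ * N)) = N * √κ := by
      rw [show (N : ℝ) * (κ * N) = (N : ℝ) ^ 2 * κ by ring, Real.sqrt_mul (sq_nonneg _),
        Real.sqrt_sq hN0.le]
    rw [h5] at h4
    exact h4
  have hrhs : Ex 0 (fun y : ι → Bool => ∑ i, sg (y i) * mu W y i) =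
      ∑ k, Ex 0 (fun y => lin W k y * Real.sin (3 / 5 * lin W k y)) := by
    rw [← Ex_sum]
    congr 1
    funext y
    unfold mu phi
    have h6 : ∀ i, sg (y i) * ∑ k, W k i * Real.sin (3 / 5 * lin W k y) =
        ∑ k, (W k i * sg (y i)) * Real.sin (3 / 5 * lin W k y) := by
      intro i
      rw [Finset.mul_sum]
      exact Finset.sum_congr rfl fun k _ => by ring
    rw [Finset.sum_congr rfl fun i _ => h6 i, Finset.sum_comm]
    refine Finset.sum_congr rfl fun k _ => ?_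
    rw [← Finset.sum_mul]
    rfl
  rw [hrhs]
  linarith

end Pool.Agent.PCB
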