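import Pool.Agent.PCB.ABS3

set_option autoImplicit false

namespace Pool.Agent.PCB

open Finset MeasureTheory

private theorem NUM_e1 : 83526 / 100000 ≤ Real.exp (-(9 / 50)) ∧ Real.exp (-(9 / 50)) ≤ 83528 / 100000 := by
  have h := Real.exp_bound (x := -(9 / 50)) (by norm_num [abs_le]) (n := 6) (by norm_num)
  rw [abs_le] at h
  simp only [Finset.sum_range_succ, Finset.sum_range_zero, Nat.factorial] at h
  norm_num [abs_of_neg] at h
  constructor <;> linarith [h.1, h.2]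

private theorem NUM_e2 : 48674 / 100000 ≤ Real.exp (-(18 / 25)) ∧ Real.exp (-(18 / 25)) ≤ 48676 / 100000 := by
  have h := Real.exp_bound (x := -(18 / 25)) (by norm_num [abs_le]) (n := 9) (by norm_num)
  rw [abs_le] at h
  simp only [Finset.sum_range_succ, Finset.sum_range_zero, Nat.factorial] at h
  norm_num [abs_of_neg] at h
  constructor <;> linarith [h.1, h.2]

private theorem NUM_v : 74337 / 100000 ≤ v0 ∧ v0 ≤ 74338 / 100000 := by
  have h := NUM_e2
  unfold v0
  constructor <;> linarith [h.1, h.2]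

private theorem NUM_s : 501156 / 1000000 ≤ s0 ∧ s0 ≤ 501168 / 1000000 := by
  have h := NUM_e1
  unfold s0
  constructor <;> linarith [h.1, h.2]

/-- NUM -/
theorem F_num : √(2 / Real.pi) * (1 + 1 / 400) ≤ F s0 v0 := by
  obtain ⟨hv1, hv2⟩ := NUM_v
  obtain ⟨hs1, hs2⟩ := NUM_s
  refine le_trans ?_ (F_lower s0 v0 (by linarith))
  refine mul_le_mul_of_nonneg_left ?_ (Real.sqrt_nonneg _)
  have hw1 : 86218 / 100000 ≤ √v0 := by
    apply Real.le_sqrt_of_sq_le
    norm_num
    linarith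
  have hw2 : √v0 ≤ 86220 / 100000 := by
    rw [Real.sqrt_le_left (by norm_num)]
    norm_num
    linarith
  have hsq1 : 2511 / 10000 ≤ s0 ^ 2 := by nlinarith
  have hsq2 : s0 ^ 2 ≤ 2512 / 10000 := by nlinarith
  have hsq4 : s0 ^ 4 ≤ 632 / 10000 := by
    have : s0 ^ 4 = s0 ^ 2 * s0 ^ 2 := by ring
    rw [this]
    nlinarith
  have h1 : 1456 / 10000 ≤ s0 ^ 2 / (2 * √v0) := by
    rw [le_div_iff₀ (by linarith)]
    linarith
  have hvw : 64 / 100 ≤ v0 * √v0 := by nlinarith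
  have h2 : s0 ^ 4 / (24 * (v0 * √v0)) ≤ 412 / 100000 := by
    rw [div_le_iff₀ (by linarith)]
    linarith
  linarith

/-- NUM -/
theorem v0_bd : 7 / 10 ≤ v0 ∧ v0 ≤ 3 / 4 := by
  have h := NUM_v
  constructor <;> linarith [h.1, h.2]

/-- NUM -/
theorem s0_bd : 1 / 2 ≤ s0 ∧ s0 ≤ 51 / 100 := by
  have h := NUM_s
  constructor <;> linarith [h.1, h.2]

end Pool.Agent.PCB
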