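import Pool.Agent.PCB.EFS

set_option autoImplicit false

namespace Pool.Agent.PCB

open Finset MeasureTheory

variable {n ι : Type} [Fintype n] [DecidableEq n] [Fintype ι] [DecidableEq ι]

private theorem TRG_sin_nn {x : ℝ} (hx : 0 ≤ x) : |Real.sin x - x| ≤ x ^ 2 := by
  have h1 := Real.sin_le hx
  rw [abs_of_nonpos (by linarith)]
  rcases le_or_gt x 1 with h | h
  · rcases hx.eq_or_lt with h0 | h0
    · rw [← h0]
      simp
    · have h2 := Real.sin_gt_sub_cube h0
      nlinarith [sq_nonneg x, mul_nonneg hx (sq_nonneg x)]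
  · rcases le_or_gt x Real.pi with h3 | h3
    · have h4 := Real.sin_nonneg_of_nonneg_of_le_pi hx h3
      nlinarith
    · have h4 := Real.neg_one_le_sin x
      have h5 := Real.pi_gt_three
      nlinarith

private theorem TRG_sin (x : ℝ) : |Real.sin x - x| ≤ x ^ 2 := by
  rcases le_total 0 x with h | h
  · exact TRG_sin_nn h
  · have h1 := TRG_sin_nn (x := -x) (by linarith)
    rw [Real.sin_neg] at h1
    have e : -Real.sin x - -x = -(Real.sin x - x) := by ring
    rw [e, abs_neg] at h1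
    simpa using h1

private theorem TRG_tr (W : Matrix n ι ℝ) (hW : Contr W) (w : n → ℝ) :
    ∑ j, (∑ k, w k * W k j) ^ 2 ≤ ∑ k, w k ^ 2 := by
  set v : ι → ℝ := fun j => ∑ k, w k * W k j with hv
  have h1 : ∑ j, v j ^ 2 = ∑ k, w k * ∑ j, W k j * v j := by
    calc ∑ j, v j ^ 2 = ∑ j, ∑ k, w k * (W k j * v j) := by
          refine Finset.sum_congr rfl fun j _ => ?_
          rw [sq]
          nth_rewrite 1 [hv]
          rw [Finset.sum_mul]
          exact Finset.sum_congr rfl fun k _ => by ring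
      _ = ∑ k, ∑ j, w k * (W k j * v j) := Finset.sum_comm
      _ = _ := Finset.sum_congr rfl fun k _ => (Finset.mul_sum _ _ _).symm
  have h2 := Finset.sum_mul_sq_le_sq_mul_sq (Finset.univ : Finset n) w
    (fun k => ∑ j, W k j * v j)
  rw [← h1] at h2
  have h3 := hW v
  have h4 : 0 ≤ ∑ k, w k ^ 2 := Finset.sum_nonneg fun k _ => sq_nonneg _
  have h5 : 0 ≤ ∑ j, v j ^ 2 := Finset.sum_nonneg fun k _ => sq_nonneg _
  have h6 : (∑ j, v j ^ 2) ^ 2 ≤ (∑ k, w k ^ 2) * ∑ j, v j ^ 2 :=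
    h2.trans (mul_le_mul_of_nonneg_left h3 h4)
  rcases h5.eq_or_lt with h7 | h7
  · show ∑ j, v j ^ 2 ≤ _
    rw [← h7]
    exact h4
  · show ∑ j, v j ^ 2 ≤ _
    have h8 : (∑ j, v j ^ 2) * (∑ j, v j ^ 2) ≤ (∑ k, w k ^ 2) * ∑ j, v j ^ 2 := by
      rw [← sq]
      exact h6
    exact le_of_mul_le_mul_right h8 h7

private theorem TRG_col (W : Matrix n ι ℝ) (hW : Contr W) (j : ι) : ∑ k, W k j ^ 2 ≤ 1 := by
  have h := hW (fun i => if i = j then 1 else 0)
  simpa using h

private theorem TRG_row (W : Matrix n ι ℝ) (hW : Contr W) (k : n) : ∑ j, W k j ^ 2 ≤ 1 := by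
  have h := TRG_tr W hW (fun i => if i = k then 1 else 0)
  simpa using h

private theorem TRG_err (W : Matrix n ι ℝ) (hW : Contr W) (w : n → ℝ) :
    ∑ j, (∑ k, |w k| * W k j ^ 2) ^ 2 ≤ ∑ k, w k ^ 2 := by
  have h1 : ∀ j, (∑ k, |w k| * W k j ^ 2) ^ 2 ≤ ∑ k, w k ^ 2 * W k j ^ 2 := by
    intro j
    have h := Finset.sum_mul_sq_le_sq_mul_sq (Finset.univ : Finset n)
      (fun k => |w k| * W k j) (fun k => W k j)
    have e1 : ∀ k, |w k| * W k j * W k j = |w k| * W k j ^ 2 := fun k => by ring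
    have e2 : ∀ k, (|w k| * W k j) ^ 2 = w k ^ 2 * W k j ^ 2 := fun k => by
      rw [mul_pow, sq_abs]
    simp only [e1, e2] at h
    have h2 : 0 ≤ ∑ k, w k ^ 2 * W k j ^ 2 :=
      Finset.sum_nonneg fun k _ => mul_nonneg (sq_nonneg _) (sq_nonneg _)
    calc _ ≤ _ := h
      _ ≤ (∑ k, w k ^ 2 * W k j ^ 2) * 1 := mul_le_mul_of_nonneg_left (TRG_col W hW j) h2
      _ = _ := mul_one _
  calc ∑ j, (∑ k, |w k| * W k j ^ 2) ^ 2 ≤ ∑ j, ∑ k, w k ^ 2 * W k j ^ 2 :=
        Finset.sum_le_sum fun j _ => h1 j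
    _ = ∑ k, ∑ j, w k ^ 2 * W k j ^ 2 := Finset.sum_comm
    _ = ∑ k, w k ^ 2 * ∑ j, W k j ^ 2 :=
        Finset.sum_congr rfl fun k _ => (Finset.mul_sum _ _ _).symm
    _ ≤ ∑ k, w k ^ 2 * 1 := Finset.sum_le_sum fun k _ =>
        mul_le_mul_of_nonneg_left (TRG_row W hW k) (sq_nonneg _)
    _ = _ := by simp

private theorem TRG_lin (W : Matrix n ι ℝ) (k : n) (y : ι → Bool) (j : ι) :
    lin W k (Function.update y j (!(y j))) = lin W k y - 2 * (W k j * sg (y j)) := by
  unfold lin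
  have h1 : ∀ i, W k i * sg (Function.update y j (!(y j)) i) =
      W k i * sg (y i) - if i = j then 2 * (W k j * sg (y j)) else 0 := by
    intro i
    by_cases h : i = j
    · subst h
      rw [Function.update_self, if_pos rfl]
      cases y i <;> simp <;> ring
    · rw [Function.update_of_ne h, if_neg h, sub_zero]
  rw [Finset.sum_congr rfl fun i _ => h1 i, Finset.sum_sub_distrib, Finset.sum_ite_eq',
    if_pos (Finset.mem_univ _)]

private theorem TRG_id (α x s : ℝ) (hs : s = 1 ∨ s = -1) :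
    (Real.sin α - Real.sin (α - 2 * (x * s))) / 2 =
      s * (Real.cos α * x) + (s * (Real.cos α * ((Real.sin (2 * x) - 2 * x) / 2)) +
        Real.sin α * Real.sin x ^ 2) := by
  have h1 : Real.cos (2 * x) = 1 - 2 * Real.sin x ^ 2 := by
    rw [Real.cos_two_mul, Real.sin_sq]
    ring
  rcases hs with rfl | rfl
  · rw [mul_one, Real.sin_sub, h1]
    ring
  · have e : α - 2 * (x * -1) = α + 2 * x := by ring
    rw [e, Real.sin_add, h1]
    ring

private theorem TRG_pt (W : Matrix n ι ℝ) (hW : Contr W) (b θ : ℝ) (hb : 0 ≤ b) (hb' : b ≤ 2)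
    (w : n → ℝ) (y : ι → Bool) :
    ∑ j, (((∑ k, w k * Real.sin (b * lin W k y + θ)) -
      (∑ k, w k * Real.sin (b * lin W k (Function.update y j (!(y j))) + θ))) / 2) ^ 2 ≤
      300 * ∑ k, w k ^ 2 := by
  have hs : ∀ j, sg (y j) = 1 ∨ sg (y j) = -1 := by
    intro j
    cases y j <;> simp
  have hb2 : b ^ 2 ≤ 4 := by nlinarith
  set c : n → ℝ := fun k => w k * Real.cos (b * lin W k y + θ) * b with hc
  set r : n → ι → ℝ := fun k j => sg (y j) * (Real.cos (b * lin W k y + θ) *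
    ((Real.sin (2 * (b * W k j)) - 2 * (b * W k j)) / 2)) +
        Real.sin (b * lin W k y + θ) * Real.sin (b * W k j) ^ 2 with hr
  have e1 : ∀ j, ((∑ k, w k * Real.sin (b * lin W k y + θ)) -
      (∑ k, w k * Real.sin (b * lin W k (Function.update y j (!(y j))) + θ))) / 2 =
      sg (y j) * (∑ k, c k * W k j) + ∑ k, w k * r k j := by
    intro j
    rw [← Finset.sum_sub_distrib, Finset.sum_div, Finset.mul_sum, ← Finset.sum_add_distrib]
    refine Finset.sum_congr rfl fun k _ => ?_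
    rw [TRG_lin]
    have e2 : b * (lin W k y - 2 * (W k j * sg (y j))) + θ =
        b * lin W k y + θ - 2 * (b * W k j * sg (y j)) := by ring
    rw [e2]
    have h := TRG_id (b * lin W k y + θ) (b * W k j) (sg (y j)) (hs j)
    calc _ = w k * ((Real.sin (b * lin W k y + θ) -
          Real.sin (b * lin W k y + θ - 2 * (b * W k j * sg (y j)))) / 2) := by ring
      _ = _ := by
        rw [h]
        simp only [hc, hr]
        ring
  have h2 : ∀ k j, |r k j| ≤ 12 * W k j ^ 2 := by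
    intro k j
    have h3 : |sg (y j) * (Real.cos (b * lin W k y + θ) *
        ((Real.sin (2 * (b * W k j)) - 2 * (b * W k j)) / 2))| ≤ 8 * W k j ^ 2 := by
      rw [abs_mul, abs_sg, one_mul, abs_mul, abs_div, abs_two]
      have h4 := TRG_sin (2 * (b * W k j))
      have h5 := Real.abs_cos_le_one (b * lin W k y + θ)
      have h6 : (2 * (b * W k j)) ^ 2 ≤ 16 * W k j ^ 2 := by
        have e : (2 * (b * W k j)) ^ 2 = 4 * b ^ 2 * W k j ^ 2 := by ring
        rw [e]
        exact mul_le_mul_of_nonneg_right (by linarith) (sq_nonneg _)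
      calc _ ≤ 1 * (|Real.sin (2 * (b * W k j)) - 2 * (b * W k j)| / 2) :=
            mul_le_mul_of_nonneg_right h5 (by positivity)
        _ ≤ _ := by linarith
    have h7 : |Real.sin (b * lin W k y + θ) * Real.sin (b * W k j) ^ 2| ≤ 4 * W k j ^ 2 := by
      rw [abs_mul, abs_pow]
      have h4 := Real.abs_sin_le_one (b * lin W k y + θ)
      have h5 : |Real.sin (b * W k j)| ≤ |b * W k j| := Real.abs_sin_le_abs
      have h6 : |Real.sin (b * W k j)| ^ 2 ≤ 4 * W k j ^ 2 := by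
        calc _ ≤ |b * W k j| ^ 2 := pow_le_pow_left₀ (abs_nonneg _) h5 2
          _ = b ^ 2 * W k j ^ 2 := by rw [sq_abs, mul_pow]
          _ ≤ _ := mul_le_mul_of_nonneg_right hb2 (sq_nonneg _)
      calc _ ≤ 1 * |Real.sin (b * W k j)| ^ 2 :=
            mul_le_mul_of_nonneg_right h4 (by positivity)
        _ ≤ _ := by linarith
    calc |r k j| ≤ _ := abs_add_le _ _
      _ ≤ 8 * W k j ^ 2 + 4 * W k j ^ 2 := add_le_add h3 h7
      _ = _ := by ring
  have h3 : ∀ j, (((∑ k, w k * Real.sin (b * lin W k y + θ)) -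
      (∑ k, w k * Real.sin (b * lin W k (Function.update y j (!(y j))) + θ))) / 2) ^ 2 ≤
      2 * (∑ k, c k * W k j) ^ 2 + 288 * (∑ k, |w k| * W k j ^ 2) ^ 2 := by
    intro j
    rw [e1 j]
    have h4 : |∑ k, w k * r k j| ≤ 12 * ∑ k, |w k| * W k j ^ 2 := by
      calc |∑ k, w k * r k j| ≤ ∑ k, |w k * r k j| := Finset.abs_sum_le_sum_abs _ _
        _ ≤ ∑ k, 12 * (|w k| * W k j ^ 2) := by
            refine Finset.sum_le_sum fun k _ => ?_
            rw [abs_mul]
            calc |w k| * |r k j| ≤ |w k| * (12 * W k j ^ 2) :=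
                  mul_le_mul_of_nonneg_left (h2 k j) (abs_nonneg _)
              _ = _ := by ring
        _ = _ := (Finset.mul_sum _ _ _).symm
    have h5 : (∑ k, w k * r k j) ^ 2 ≤ 144 * (∑ k, |w k| * W k j ^ 2) ^ 2 := by
      calc (∑ k, w k * r k j) ^ 2 = |∑ k, w k * r k j| ^ 2 := (sq_abs _).symm
        _ ≤ (12 * ∑ k, |w k| * W k j ^ 2) ^ 2 := pow_le_pow_left₀ (abs_nonneg _) h4 2
        _ = _ := by ring
    have h6 := sg_sq (y j)
    have h7 : (sg (y j) * (∑ k, c k * W k j)) ^ 2 = (∑ k, c k * W k j) ^ 2 := by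
      rw [mul_pow, h6, one_mul]
    nlinarith [sq_nonneg (sg (y j) * (∑ k, c k * W k j) - ∑ k, w k * r k j)]
  have h4 : ∑ k, c k ^ 2 ≤ 4 * ∑ k, w k ^ 2 := by
    rw [Finset.mul_sum]
    refine Finset.sum_le_sum fun k _ => ?_
    have h5 : Real.cos (b * lin W k y + θ) ^ 2 ≤ 1 := Real.cos_sq_le_one _
    have h6 : Real.cos (b * lin W k y + θ) ^ 2 * b ^ 2 ≤ 4 := by
      nlinarith [sq_nonneg b, sq_nonneg (Real.cos (b * lin W k y + θ))]
    calc c k ^ 2 = w k ^ 2 * (Real.cos (b * lin W k y + θ) ^ 2 * b ^ 2) := by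
          simp only [hc]
          ring
      _ ≤ w k ^ 2 * 4 := mul_le_mul_of_nonneg_left h6 (sq_nonneg _)
      _ = _ := by ring
  have h5 := TRG_tr W hW c
  have h6 := TRG_err W hW w
  have h7 : 0 ≤ ∑ k, w k ^ 2 := Finset.sum_nonneg fun k _ => sq_nonneg _
  calc _ ≤ ∑ j, (2 * (∑ k, c k * W k j) ^ 2 + 288 * (∑ k, |w k| * W k j ^ 2) ^ 2) :=
        Finset.sum_le_sum fun j _ => h3 j
    _ = 2 * ∑ j, (∑ k, c k * W k j) ^ 2 + 288 * ∑ j, (∑ k, |w k| * W k j ^ 2) ^ 2 := by
        rw [Finset.sum_add_distrib, Finset.mul_sum, Finset.mul_sum]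
    _ ≤ _ := by linarith

/-- TRG -/
theorem trig_var (W : Matrix n ι ℝ) (hW : Contr W) (b θ : ℝ) (hb : 0 ≤ b) (hb' : b ≤ 2)
    (w : n → ℝ) :
    Ex 0 (fun y => (∑ k, w k * Real.sin (b * lin W k y + θ)) ^ 2) -
      Ex 0 (fun y => ∑ k, w k * Real.sin (b * lin W k y + θ)) ^ 2 ≤ 300 * ∑ k, w k ^ 2 := by
  refine (efron (fun y => ∑ k, w k * Real.sin (b * lin W k y + θ))).trans ?_
  rw [← Ex_sum]
  calc _ ≤ Ex (0 : ι → ℝ) (fun _ => 300 * ∑ k, w k ^ 2) :=
        Ex_mono zero_mean fun y => TRG_pt W hW b θ hb hb' w y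
    _ = _ := Ex_const _ _

private theorem TRG_symm (f : (ι → Bool) → ℝ) :
    Ex 0 (fun y => f (fun i => !(y i))) = Ex 0 f := by
  unfold Ex
  let e : (ι → Bool) ≃ (ι → Bool) :=
    { toFun := fun y i => !(y i)
      invFun := fun y i => !(y i)
      left_inv := fun y => by funext i; simp
      right_inv := fun y => by funext i; simp }
  rw [← Equiv.sum_comp e (fun x => pr 0 x * f x)]
  refine Finset.sum_congr rfl fun x _ => ?_
  have h : pr (0 : ι → ℝ) (e x) = pr 0 x := by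
    unfold pr
    refine Finset.prod_congr rfl fun i _ => ?_
    simp
  rw [h]
  rfl

/-- TRG: the case `θ = 0`, mean zero by the symmetry `y ↦ -y`. -/
theorem sin_sq (W : Matrix n ι ℝ) (hW : Contr W) (w : n → ℝ) :
    Ex 0 (fun y => (∑ k, w k * phi W y k) ^ 2) ≤ 300 * ∑ k, w k ^ 2 := by
  have h := trig_var W hW (3 / 5) 0 (by norm_num) (by norm_num) w
  have h1 : Ex 0 (fun y : ι → Bool => ∑ k, w k * Real.sin (3 / 5 * lin W k y + 0)) = 0 := by
    have h2 := TRG_symm (fun y : ι → Bool => ∑ k, w k * Real.sin (3 / 5 * lin W k y + 0))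
    have h3 : (fun y : ι → Bool => ∑ k, w k * Real.sin (3 / 5 * lin W k (fun i => !(y i)) + 0)) =
        fun y => (-1) * ∑ k, w k * Real.sin (3 / 5 * lin W k y + 0) := by
      funext y
      rw [Finset.mul_sum]
      refine Finset.sum_congr rfl fun k _ => ?_
      have h4 : lin W k (fun i => !(y i)) = -lin W k y := by
        unfold lin
        rw [← Finset.sum_neg_distrib]
        refine Finset.sum_congr rfl fun i _ => ?_
        have h5 : sg (!(y i)) = -sg (y i) := by cases y i <;> simp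
        rw [h5]
        ring
      rw [h4]
      have e : 3 / 5 * -lin W k y + 0 = -(3 / 5 * lin W k y + 0) := by ring
      rw [e, Real.sin_neg]
      ring
    rw [h3, Ex_mul] at h2
    linarith
  rw [h1] at h
  simpa [phi] using h

/-- TRG -/
theorem err1 (W : Matrix n ι ℝ) (hW : Contr W) (D : Matrix ι n ℝ) :
    Ex 0 (fun y => ∑ i, |∑ k, D i k * phi W y k|) ≤
      √(Fintype.card ι * (300 * ∑ i, ∑ k, D i k ^ 2)) := by
  have h1 : ∀ i, Ex 0 (fun y => |∑ k, D i k * phi W y k|) ≤ √(300 * ∑ k, D i k ^ 2) := by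
    intro i
    exact (Ex_abs_le zero_mean _).trans (Real.sqrt_le_sqrt (sin_sq W hW (fun k => D i k)))
  rw [Ex_sum]
  calc _ ≤ ∑ i, √(300 * ∑ k, D i k ^ 2) := Finset.sum_le_sum fun i _ => h1 i
    _ ≤ _ := by
      apply Real.le_sqrt_of_sq_le
      have h2 := sq_sum_le_card_mul_sum_sq (s := (Finset.univ : Finset ι))
        (f := fun i => √(300 * ∑ k, D i k ^ 2))
      refine h2.trans (le_of_eq ?_)
      have h3 : ∀ i, √(300 * ∑ k, D i k ^ 2) ^ 2 = 300 * ∑ k, D i k ^ 2 := fun i =>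
        Real.sq_sqrt (mul_nonneg (by norm_num) (Finset.sum_nonneg fun k _ => sq_nonneg _))
      rw [Finset.card_univ, Finset.sum_congr rfl fun i _ => h3 i, ← Finset.mul_sum]

end Pool.Agent.PCB
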