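import Pool.Agent.PCB.CPR

set_option autoImplicit false

namespace Pool.Agent.PCB

open Finset MeasureTheory

variable {ι : Type} [Fintype ι] [DecidableEq ι]

private theorem per_lin (c : ι → ℝ) :
    Ex (0 : ι → ℝ) (fun y => (∑ i, c i * sg (y i)) ^ 2) = ∑ i, c i ^ 2 := by
  have h := Ex_lin_sq (m := (0 : ι → ℝ)) c
  simpa using h

private theorem per_diff (b w : ι → ℝ) (y : ι → Bool) :
    ∑ i, (w i - b i) * sg (y i) = ∑ i, w i * sg (y i) - ∑ i, b i * sg (y i) := by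
  rw [← Finset.sum_sub_distrib]
  exact Finset.sum_congr rfl fun i _ => by ring

private theorem per_abs (b w : ι → ℝ) :
    Ex (0 : ι → ℝ) (fun y => |∑ i, w i * sg (y i) - ∑ i, b i * sg (y i)|) ≤
      √(∑ i, (w i - b i) ^ 2) := by
  have h := Ex_abs_le (m := (0 : ι → ℝ)) zero_mean (fun y => ∑ i, (w i - b i) * sg (y i))
  rw [per_lin] at h
  simp only [per_diff] at h
  exact h

/-- PER -/
theorem per_cos (b w : ι → ℝ) (δ l : ℝ) (hδ : δ ≤ 1 / 4) (hb : ∀ i, |b i| ≤ δ)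
    (hs : ∑ i, b i ^ 2 ≤ 1) (hl : 0 ≤ l) (hl' : l ≤ 2) :
    Real.exp (-(l ^ 2 / 2)) - 16 * δ ^ 2 - 2 * √(∑ i, (w i - b i) ^ 2) ≤
      Ex 0 (fun y => Real.cos (l * ∑ i, w i * sg (y i))) := by
  have h1 := cos_mean b δ l hδ hb hs hl hl'
  have h2 := per_abs b w
  have h3 : Ex (0 : ι → ℝ) (fun y => Real.cos (l * ∑ i, b i * sg (y i)) -
      2 * |∑ i, w i * sg (y i) - ∑ i, b i * sg (y i)|) ≤
      Ex 0 (fun y => Real.cos (l * ∑ i, w i * sg (y i))) := by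
    refine Ex_mono zero_mean fun y => ?_
    have h4 := Real.abs_cos_sub_cos_le (l * ∑ i, b i * sg (y i)) (l * ∑ i, w i * sg (y i))
    rw [← mul_sub, abs_mul, abs_of_nonneg hl, abs_sub_comm (∑ i, b i * sg (y i))] at h4
    have h5 := (abs_le.1 h4).2
    have h6 : l * |∑ i, w i * sg (y i) - ∑ i, b i * sg (y i)| ≤
        2 * |∑ i, w i * sg (y i) - ∑ i, b i * sg (y i)| :=
      mul_le_mul_of_nonneg_right hl' (abs_nonneg _)
    linarith
  rw [Ex_sub, Ex_mul] at h3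
  linarith

/-- PER -/
theorem per_sin (b w : ι → ℝ) (δ a : ℝ) (hδ : δ ≤ 1 / 4) (hb : ∀ i, |b i| ≤ δ)
    (hs : ∑ i, b i ^ 2 ≤ 1) (ha : 0 ≤ a) (ha' : a ≤ 1) :
    a * (∑ i, b i ^ 2) * Real.exp (-(a ^ 2 / 2)) - 16 * δ ^ 2 - 2 * √(∑ i, (w i - b i) ^ 2) ≤
      Ex 0 (fun y => (∑ i, w i * sg (y i)) * Real.sin (a * ∑ i, w i * sg (y i))) := by
  have h1 := sin_mean b δ a hδ hb hs ha ha'
  have h2 : Ex (0 : ι → ℝ) (fun y => |∑ i, w i * sg (y i) - ∑ i, b i * sg (y i)| *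
      (1 + |∑ i, b i * sg (y i)|)) ≤ 2 * √(∑ i, (w i - b i) ^ 2) := by
    have h4 := Ex_cs (m := (0 : ι → ℝ)) zero_mean
      (fun y => |∑ i, w i * sg (y i) - ∑ i, b i * sg (y i)|)
      (fun y => 1 + |∑ i, b i * sg (y i)|)
    have h5 : Ex (0 : ι → ℝ)
        (fun y => |∑ i, w i * sg (y i) - ∑ i, b i * sg (y i)| ^ 2) =
        ∑ i, (w i - b i) ^ 2 := by
      rw [← per_lin (fun i => w i - b i)]
      congr 1
      funext y
      rw [sq_abs, per_diff]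
    have h6 : Ex (0 : ι → ℝ) (fun y => (1 + |∑ i, b i * sg (y i)|) ^ 2) ≤ 4 := by
      have h7 : Ex (0 : ι → ℝ) (fun y => (1 + |∑ i, b i * sg (y i)|) ^ 2) ≤
          Ex 0 (fun y => 2 + 2 * (∑ i, b i * sg (y i)) ^ 2) := by
        refine Ex_mono zero_mean fun y => ?_
        have h8 := sq_nonneg (1 - |∑ i, b i * sg (y i)|)
        have h9 := sq_abs (∑ i, b i * sg (y i))
        nlinarith
      rw [Ex_add, Ex_mul, per_lin, Ex_const] at h7
      linarith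
    rw [h5] at h4
    have h10 : 0 ≤ ∑ i, (w i - b i) ^ 2 := Finset.sum_nonneg fun i _ => sq_nonneg _
    have h11 : Ex (0 : ι → ℝ) (fun y => |∑ i, w i * sg (y i) - ∑ i, b i * sg (y i)| *
        (1 + |∑ i, b i * sg (y i)|)) ^ 2 ≤ (2 * √(∑ i, (w i - b i) ^ 2)) ^ 2 := by
      refine h4.trans ?_
      rw [mul_pow, Real.sq_sqrt h10]
      nlinarith
    exact (abs_le_of_sq_le_sq' h11 (by positivity)).2
  have h3 : Ex (0 : ι → ℝ) (fun y => (∑ i, b i * sg (y i)) * Real.sin (a * ∑ i, b i * sg (y i)) -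
      |∑ i, w i * sg (y i) - ∑ i, b i * sg (y i)| * (1 + |∑ i, b i * sg (y i)|)) ≤
      Ex 0 (fun y => (∑ i, w i * sg (y i)) * Real.sin (a * ∑ i, w i * sg (y i))) := by
    refine Ex_mono zero_mean fun y => ?_
    set u := ∑ i, w i * sg (y i) with hu
    set v := ∑ i, b i * sg (y i) with hv
    have h4 := Real.abs_sin_sub_sin_le (a * u) (a * v)
    rw [← mul_sub, abs_mul, abs_of_nonneg ha] at h4
    have h5 : |(u - v) * Real.sin (a * u)| ≤ |u - v| := by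
      rw [abs_mul]
      exact mul_le_of_le_one_right (abs_nonneg _) (Real.abs_sin_le_one _)
    have h6 : |v * (Real.sin (a * u) - Real.sin (a * v))| ≤ |v| * |u - v| := by
      rw [abs_mul]
      refine mul_le_mul_of_nonneg_left (h4.trans ?_) (abs_nonneg _)
      exact mul_le_of_le_one_left (abs_nonneg _) ha'
    have h7 := (abs_le.1 h5).1
    have h8 := (abs_le.1 h6).1
    nlinarith
  rw [Ex_sub] at h3
  linarith

end Pool.Agent.PCB
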