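import Pool.Agent.PCB.TRG
import Pool.Agent.PCB.PER

set_option autoImplicit false

namespace Pool.Agent.PCB

open Finset MeasureTheory

variable {n ι : Type} [Fintype n] [DecidableEq n] [Fintype ι] [DecidableEq ι]

private theorem VAR_sum_sqrt (a : n → ℝ) (ha : ∀ k, 0 ≤ a k) (N : ℕ) (hn : Fintype.card n = N)
    (κ : ℝ) (hκ : ∑ k, a k ≤ κ * N) : ∑ k, √(a k) ≤ N * √κ := by
  rcases Nat.eq_zero_or_pos N with hN | hN
  · have : IsEmpty n := Fintype.card_eq_zero_iff.1 (by rw [hn, hN])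
    simp [hN]
  · have hN' : (0 : ℝ) < N := by exact_mod_cast hN
    have h0 : 0 ≤ ∑ k, a k := Finset.sum_nonneg fun k _ => ha k
    have hκ0 : 0 ≤ κ := by
      by_contra h
      push Not at h
      have := mul_neg_of_neg_of_pos h hN'
      linarith
    have h1 : (∑ k, √(a k)) ^ 2 ≤ (Fintype.card n : ℝ) * ∑ k, √(a k) ^ 2 := by
      have := sq_sum_le_card_mul_sum_sq (s := (Finset.univ : Finset n)) (f := fun k => √(a k))
      simpa using this
    have h2 : ∑ k, √(a k) ^ 2 = ∑ k, a k :=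
      Finset.sum_congr rfl fun k _ => Real.sq_sqrt (ha k)
    rw [h2, hn] at h1
    have h3 : (∑ k, √(a k)) ^ 2 ≤ (N * √κ) ^ 2 := by
      rw [mul_pow, Real.sq_sqrt hκ0]
      nlinarith
    exact abs_le_of_sq_le_sq' h3 (by positivity) |>.2

/-- VAR -/
theorem var1 (W B : Matrix n ι ℝ) (hW : Contr W) (N : ℕ) (hN : 16 ≤ N)
    (hn : Fintype.card n = N) (hB : ∀ k i, |B k i| ≤ 1 / √(N : ℝ))
    (hB2 : ∀ k, ∑ i, B k i ^ 2 ≤ 1) (κ : ℝ)
    (hκ : ∑ k, ∑ i, (W k i - B k i) ^ 2 ≤ κ * N) :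
    Ex 0 (fun y => max (v0 - Vb W y) 0) ≤ 20 / √(N : ℝ) + √κ := by
  have hNr : (16 : ℝ) ≤ N := by exact_mod_cast hN
  have hN0 : (0 : ℝ) < N := by linarith
  have hs0 : 0 < √(N : ℝ) := Real.sqrt_pos.2 hN0
  have hss : √(N : ℝ) * √(N : ℝ) = N := Real.mul_self_sqrt hN0.le
  have hs4 : 4 ≤ √(N : ℝ) := by
    rw [show (4 : ℝ) = √(4 ^ 2) by rw [Real.sqrt_sq (by norm_num)]]
    exact Real.sqrt_le_sqrt (by linarith)
  set Z : (ι → Bool) → ℝ := fun y => ∑ k, Real.cos (6 / 5 * lin W k y) with hZ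
  set e := Real.exp (-(18 / 25)) with he
  -- the variance
  have hZs : Z = fun y => ∑ k, (fun _ : n => (1 : ℝ)) k *
      Real.sin (6 / 5 * lin W k y + Real.pi / 2) := by
    funext y
    rw [hZ]
    exact Finset.sum_congr rfl fun k _ => by rw [Real.sin_add_pi_div_two, one_mul]
  have hvar := trig_var W hW (6 / 5) (Real.pi / 2) (by norm_num) (by norm_num) (fun _ => 1)
  rw [← hZs] at hvar
  have hZs2 : (fun y => (∑ k, (fun _ : n => (1 : ℝ)) k *
      Real.sin (6 / 5 * lin W k y + Real.pi / 2)) ^ 2) = fun y => Z y ^ 2 := by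
    funext y
    rw [hZs]
  rw [hZs2] at hvar
  have hcard : ∑ _k : n, (1 : ℝ) ^ 2 = N := by
    simp [hn]
  rw [hcard] at hvar
  -- the mean
  have hmean : N * e - 16 - 2 * (N * √κ) ≤ Ex 0 Z := by
    have h1 : Ex 0 Z = ∑ k, Ex 0 (fun y => Real.cos (6 / 5 * lin W k y)) := by
      rw [hZ]
      exact Ex_sum _ _ _
    have h2 : ∀ k, e - 16 / N - 2 * √(∑ i, (W k i - B k i) ^ 2) ≤
        Ex 0 (fun y => Real.cos (6 / 5 * lin W k y)) := by
      intro k
      have := per_cos (B k) (W k) (1 / √(N : ℝ)) (6 / 5) (by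
        rw [div_le_div_iff₀ hs0 (by norm_num)]
        linarith) (hB k) (hB2 k) (by norm_num) (by norm_num)
      have e1 : -((6 / 5 : ℝ) ^ 2 / 2) = -(18 / 25) := by norm_num
      have e2 : 16 * (1 / √(N : ℝ)) ^ 2 = 16 / N := by
        rw [div_pow, one_pow, Real.sq_sqrt hN0.le]
        ring
      rw [e1, e2] at this
      exact this
    rw [h1]
    refine le_trans ?_ (Finset.sum_le_sum fun k _ => h2 k)
    rw [Finset.sum_sub_distrib, Finset.sum_const, Finset.card_univ, hn, nsmul_eq_mul,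
      ← Finset.mul_sum]
    have h3 := VAR_sum_sqrt (fun k => ∑ i, (W k i - B k i) ^ 2)
      (fun k => Finset.sum_nonneg fun i _ => sq_nonneg _) N hn κ hκ
    have h4 : (N : ℝ) * (e - 16 / N) = N * e - 16 := by
      field_simp
    rw [h4]
    linarith
  -- the pointwise bound
  have hVb : ∀ y, Vb W y = 1 / 2 + Z y / (2 * N) := by
    intro y
    unfold Vb
    have h1 : ∑ k, (1 - phi W y k ^ 2) = N / 2 + Z y / 2 := by
      have h2 : ∀ k, 1 - phi W y k ^ 2 = 1 / 2 + Real.cos (6 / 5 * lin W k y) / 2 := by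
        intro k
        unfold phi
        have h3 : Real.cos (6 / 5 * lin W k y) = 1 - 2 * Real.sin (3 / 5 * lin W k y) ^ 2 := by
          have : 6 / 5 * lin W k y = 2 * (3 / 5 * lin W k y) := by ring
          rw [this, Real.cos_two_mul, Real.cos_sq']
          ring
        rw [h3]
        ring
      rw [Finset.sum_congr rfl fun k _ => h2 k, Finset.sum_add_distrib, Finset.sum_const,
        Finset.card_univ, hn, nsmul_eq_mul, ← Finset.sum_div]
      ring
    rw [h1, hn]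
    field_simp
  have hpt : ∀ y, max (v0 - Vb W y) 0 ≤ (8 / N + √κ) + 1 / (2 * N) * |Z y - Ex 0 Z| := by
    intro y
    have hnn : 0 ≤ (8 / N + √κ) + 1 / (2 * N) * |Z y - Ex 0 Z| := by positivity
    refine max_le ?_ hnn
    rw [hVb]
    unfold v0
    rw [← he]
    have h1 : 1 / (2 * N) * |Z y - Ex 0 Z| ≥ 1 / (2 * (N : ℝ)) * (Ex 0 Z - Z y) := by
      apply mul_le_mul_of_nonneg_left _ (by positivity)
      rw [abs_sub_comm]
      exact le_abs_self _
    have h2 : 1 / (2 * (N : ℝ)) * (N * e - 16 - 2 * (N * √κ)) ≤ 1 / (2 * (N : ℝ)) * Ex 0 Z :=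
      mul_le_mul_of_nonneg_left hmean (by positivity)
    have h3 : 1 / (2 * (N : ℝ)) * (N * e - 16 - 2 * (N * √κ)) = e / 2 - 8 / N - √κ := by
      field_simp
      ring
    have h4 : 1 / (2 * (N : ℝ)) * (Ex 0 Z - Z y) = 1 / (2 * (N : ℝ)) * Ex 0 Z - Z y / (2 * N) := by
      ring
    rw [h3] at h2
    rw [h4] at h1
    linarith
  have hE := Ex_mono zero_mean hpt
  rw [Ex_add, Ex_const, Ex_mul] at hE
  -- the variance bound
  have hsd : Ex 0 (fun y => |Z y - Ex 0 Z|) ≤ √(300 * N) := by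
    refine le_trans (Ex_abs_le zero_mean (fun y => Z y - Ex 0 Z)) ?_
    apply Real.sqrt_le_sqrt
    have h1 : (fun y => (Z y - Ex 0 Z) ^ 2) =
        fun y => (Z y ^ 2 - 2 * Ex 0 Z * Z y) + Ex 0 Z ^ 2 := by
      funext y
      ring
    rw [h1, Ex_add, Ex_const, Ex_sub, Ex_mul]
    have : Ex 0 (fun y => Z y) = Ex 0 Z := rfl
    rw [this]
    nlinarith
  have h300 : √(300 * (N : ℝ)) ≤ 24 * √(N : ℝ) := by
    rw [Real.sqrt_mul (by norm_num)]
    apply mul_le_mul_of_nonneg_right _ hs0.le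
    rw [Real.sqrt_le_left (by norm_num)]
    norm_num
  have hfin : 1 / (2 * (N : ℝ)) * Ex 0 (fun y => |Z y - Ex 0 Z|) ≤ 12 / √(N : ℝ) := by
    calc 1 / (2 * (N : ℝ)) * Ex 0 (fun y => |Z y - Ex 0 Z|)
        ≤ 1 / (2 * (N : ℝ)) * (24 * √(N : ℝ)) :=
          mul_le_mul_of_nonneg_left (le_trans hsd h300) (by positivity)
      _ = 12 / √(N : ℝ) := by
          rw [eq_div_iff hs0.ne']
          have h5 : 1 / (2 * (N : ℝ)) * (24 * √(N : ℝ)) * √(N : ℝ) =
              12 * (√(N : ℝ) * √(N : ℝ)) / N := by ring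
          rw [h5, hss]
          field_simp
  have h8 : 8 / (N : ℝ) ≤ 8 / √(N : ℝ) := by
    apply div_le_div_of_nonneg_left (by norm_num) hs0
    nlinarith
  have : 8 / √(N : ℝ) + 12 / √(N : ℝ) = 20 / √(N : ℝ) := by ring
  linarith

end Pool.Agent.PCB
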