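import Pool.Agent.PCB.Defs2

set_option autoImplicit false

namespace Pool.Agent.PCB

open Finset MeasureTheory

private theorem WMX_dot {n ι : Type} [Fintype n] [Fintype ι] (B : Matrix n ι ℝ) (w : ι → ℝ) :
    w ⬝ᵥ (B.transpose * B).mulVec w = (B.mulVec w) ⬝ᵥ (B.mulVec w) := by
  rw [← Matrix.mulVec_mulVec, Matrix.dotProduct_mulVec, Matrix.vecMul_transpose]

private theorem WMX_sq {n : Type} [Fintype n] (u : n → ℝ) : u ⬝ᵥ u = ∑ k, u k ^ 2 :=
  Finset.sum_congr rfl fun k _ => by ring

private theorem WMX_nn {n : Type} [Fintype n] (u : n → ℝ) : 0 ≤ u ⬝ᵥ u := by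
  rw [WMX_sq]; exact Finset.sum_nonneg fun k _ => sq_nonneg _

/-- WMX -/
theorem exists_W {n ι : Type} [Fintype n] [DecidableEq n] [Fintype ι] [DecidableEq ι]
    (B : Matrix n ι ℝ) (L : Matrix ι n ℝ) (h : L * B = 1) :
    ∃ W : Matrix n ι ℝ, Contr W ∧
      ∑ k, ∑ i, (W k i - B k i) ^ 2 ≤ ∑ k, ∑ i, (L i k - B k i) ^ 2 := by
  classical
  set H : Matrix ι ι ℝ := B.transpose * B with hH
  have hHt : H.transpose = H := by
    rw [hH, Matrix.transpose_mul, Matrix.transpose_transpose]
  have hpd : (1 + H).PosDef := by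
    have h1 := Matrix.posSemidef_conjTranspose_mul_self B
    rw [Matrix.conjTranspose_eq_transpose_of_trivial] at h1
    exact Matrix.PosDef.one.add_posSemidef h1
  have hdet : IsUnit (1 + H).det := isUnit_iff_ne_zero.2 hpd.det_pos.ne'
  set R : Matrix ι ι ℝ := (1 + H)⁻¹ with hR
  have hR1 : (1 + H) * R = 1 := Matrix.mul_nonsing_inv _ hdet
  have hR2 : R * (1 + H) = 1 := Matrix.nonsing_inv_mul _ hdet
  have hRt : R.transpose = R := by
    rw [hR, Matrix.transpose_nonsing_inv, Matrix.transpose_add, Matrix.transpose_one, hHt]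
  have hcomm : H * R = R * H := by
    have h1 : R + H * R = 1 := by rw [← hR1, Matrix.add_mul, Matrix.one_mul]
    have h2 : R + R * H = 1 := by rw [← hR2, Matrix.mul_add, Matrix.mul_one]
    exact add_left_cancel (h1.trans h2.symm)
  have hw : ∀ u : ι → ℝ, R.mulVec u + H.mulVec (R.mulVec u) = u := by
    intro u
    have h1 : ((1 + H) * R).mulVec u = u := by rw [hR1, Matrix.one_mulVec]
    rw [← Matrix.mulVec_mulVec, Matrix.add_mulVec, Matrix.one_mulVec] at h1
    exact h1
  refine ⟨(2 : ℝ) • (B * R), ?_, ?_⟩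
  · intro v
    set w := R.mulVec v with hwdef
    have hv := hw v
    have h1 : ∑ k, (∑ i, ((2 : ℝ) • (B * R)) k i * v i) ^ 2
        = 4 * ((B.mulVec w) ⬝ᵥ (B.mulVec w)) := by
      have h2 : ((2 : ℝ) • (B * R)).mulVec v = (2 : ℝ) • B.mulVec w := by
        rw [Matrix.smul_mulVec, ← Matrix.mulVec_mulVec]
      have h3 : ∀ k, ∑ i, ((2 : ℝ) • (B * R)) k i * v i = 2 * (B.mulVec w) k := by
        intro k
        have := congrFun h2 k
        rw [Pi.smul_apply, smul_eq_mul] at this
        exact this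
      rw [WMX_sq, Finset.mul_sum]
      refine Finset.sum_congr rfl fun k _ => ?_
      rw [h3 k]; ring
    have h4 : ∑ i, v i ^ 2 = w ⬝ᵥ w + 2 * ((B.mulVec w) ⬝ᵥ (B.mulVec w))
        + (H.mulVec w) ⬝ᵥ (H.mulVec w) := by
      rw [← WMX_sq, ← WMX_dot B w, ← hH]
      conv_lhs => rw [← hv]
      rw [dotProduct_add, add_dotProduct, add_dotProduct, dotProduct_comm (H.mulVec w) w]
      ring
    have h5 : 0 ≤ w ⬝ᵥ w - 2 * ((B.mulVec w) ⬝ᵥ (B.mulVec w))
        + (H.mulVec w) ⬝ᵥ (H.mulVec w) := by
      have h6 := WMX_nn (w - H.mulVec w)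
      rw [dotProduct_sub, sub_dotProduct, sub_dotProduct, dotProduct_comm (H.mulVec w) w,
        ] at h6
      rw [← WMX_dot B w, ← hH]
      linarith
    rw [h1, h4]
    linarith
  · -- the contraction `B R Bᵀ`
    set K : Matrix ι n ℝ := L - B.transpose with hK
    have hKB : K * B = 1 - H := by rw [hK, Matrix.sub_mul, h]
    have hWB : ((2 : ℝ) • (B * R) - B).transpose = K * (B * R * B.transpose) := by
      have h1 : (2 : ℝ) • (B * R) - B = B * ((1 - H) * R) := by
        have h2 : (1 - H) * R = (2 : ℝ) • R - 1 := by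
          have h5 : R + H * R = 1 := by rw [← hR1, Matrix.add_mul, Matrix.one_mul]
          rw [Matrix.sub_mul, Matrix.one_mul, two_smul]
          conv_rhs => rw [← h5]
          abel
        rw [h2, Matrix.mul_sub, Matrix.mul_one, Matrix.mul_smul]
      have h3 : (1 - H).transpose = 1 - H := by
        rw [Matrix.transpose_sub, Matrix.transpose_one, hHt]
      have h4 : R * (1 - H) = (1 - H) * R := by
        rw [Matrix.mul_sub, Matrix.sub_mul, hcomm, Matrix.mul_one, Matrix.one_mul]
      rw [h1, Matrix.transpose_mul, Matrix.transpose_mul, h3, hRt, h4, ← hKB]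
      simp only [Matrix.mul_assoc]
    have hC : ∀ u : n → ℝ, ((B * R * B.transpose).mulVec u) ⬝ᵥ ((B * R * B.transpose).mulVec u)
        ≤ u ⬝ᵥ u := by
      intro u
      set w := R.mulVec (B.transpose.mulVec u) with hwdef
      have h1 : (B * R * B.transpose).mulVec u = B.mulVec w := by
        rw [hwdef, Matrix.mulVec_mulVec, Matrix.mulVec_mulVec, Matrix.mul_assoc]
      have h2 := hw (B.transpose.mulVec u)
      rw [← hwdef] at h2
      have h3 : u ⬝ᵥ B.mulVec w = w ⬝ᵥ w + (B.mulVec w) ⬝ᵥ (B.mulVec w) := by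
        rw [Matrix.dotProduct_mulVec, ← Matrix.mulVec_transpose, ← h2, add_dotProduct,
          dotProduct_comm (H.mulVec w) w, hH, WMX_dot B w]
      have h4 := WMX_nn (u - B.mulVec w)
      rw [dotProduct_sub, sub_dotProduct, sub_dotProduct, dotProduct_comm (B.mulVec w) u,
        h3] at h4
      have h5 := WMX_nn w
      rw [h1]
      linarith
    have hCt : (B * R * B.transpose).transpose = B * R * B.transpose := by
      rw [Matrix.transpose_mul, Matrix.transpose_mul, Matrix.transpose_transpose, hRt,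
        Matrix.mul_assoc]
    rw [Finset.sum_comm]
    rw [Finset.sum_comm (s := (Finset.univ : Finset n)) (f := fun k i => (L i k - B k i) ^ 2)]
    refine Finset.sum_le_sum fun i _ => ?_
    have h6 : ∀ k, ((2 : ℝ) • (B * R)) k i - B k i
        = ((B * R * B.transpose).mulVec (fun j => K i j)) k := by
      intro k
      have h7 := congrFun (congrFun hWB i) k
      have h8 : ((2 : ℝ) • (B * R) - B).transpose i k = ((2 : ℝ) • (B * R)) k i - B k i := rfl
      rw [← h8, h7, Matrix.mul_apply]
      show _ = ∑ j, (B * R * B.transpose) k j * K i j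
      refine Finset.sum_congr rfl fun j _ => ?_
      have h9 : (B * R * B.transpose) j k = (B * R * B.transpose) k j := by
        conv_lhs => rw [← hCt]
        rfl
      rw [h9, mul_comm]
    have h10 := hC (fun j => K i j)
    rw [WMX_sq, WMX_sq] at h10
    refine le_trans (le_of_eq ?_) (h10.trans (le_of_eq ?_))
    · exact Finset.sum_congr rfl fun k _ => by rw [h6 k]
    · exact Finset.sum_congr rfl fun k _ => by
        show (L i k - B.transpose i k) ^ 2 = _
        rfl

end Pool.Agent.PCB
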