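import Pool.Agent.PCB.Defs2
import Pool.Agent.PCB.TRG
import Pool.Agent.PCB.VAR
import Pool.Agent.PCB.MEAN
import Pool.Agent.PCB.NUM
import Pool.Agent.PCB.FPR
import Pool.Agent.PCB.WMX
import Pool.Agent.PCB.FIXY

set_option autoImplicit false
set_option linter.unusedSectionVars false

namespace Pool.Agent.PCB

open Finset MeasureTheory

section

variable {ι : Type} [Fintype ι] [DecidableEq ι] {N : ℕ}

private theorem main_phi (W : Matrix (Fin N) ι ℝ) (y : ι → Bool) (k : Fin N) :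
    |phi W y k| ≤ 1 := Real.abs_sin_le_one _

private theorem main_phi2 (W : Matrix (Fin N) ι ℝ) (y : ι → Bool) (k : Fin N) :
    0 ≤ 1 - phi W y k ^ 2 ∧ 1 - phi W y k ^ 2 ≤ 1 := by
  have h := main_phi W y k
  have h2 : phi W y k ^ 2 ≤ 1 := by
    rw [← sq_abs]
    exact pow_le_one₀ (abs_nonneg _) h
  constructor
  · linarith
  · nlinarith [sq_nonneg (phi W y k)]

private theorem main_Bsq (B : Matrix (Fin N) ι ℝ) (hN : 0 < N)
    (hB : ∀ k i, |B k i| ≤ 1 / √(N : ℝ)) (k : Fin N) (i : ι) : B k i ^ 2 ≤ 1 / (N : ℝ) := by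
  have hN' : (0 : ℝ) < N := by exact_mod_cast hN
  have h := hB k i
  rw [← sq_abs]
  calc |B k i| ^ 2 ≤ (1 / √(N : ℝ)) ^ 2 := pow_le_pow_left₀ (abs_nonneg _) h 2
    _ = 1 / (N : ℝ) := by
      rw [div_pow, Real.sq_sqrt hN'.le, one_pow]

private theorem main_col (B : Matrix (Fin N) ι ℝ) (hN : 0 < N)
    (hB : ∀ k i, |B k i| ≤ 1 / √(N : ℝ)) (i : ι) : ∑ k, B k i ^ 2 ≤ 1 := by
  have hN' : (0 : ℝ) < N := by exact_mod_cast hN
  calc ∑ k, B k i ^ 2 ≤ ∑ _k : Fin N, 1 / (N : ℝ) :=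
        Finset.sum_le_sum fun k _ => main_Bsq B hN hB k i
    _ = 1 := by
      rw [Finset.sum_const, Finset.card_univ, Fintype.card_fin, nsmul_eq_mul]
      field_simp

private theorem main_row (B : Matrix (Fin N) ι ℝ) (hN : 0 < N)
    (hB : ∀ k i, |B k i| ≤ 1 / √(N : ℝ)) (hK : Fintype.card ι ≤ N) (k : Fin N) :
    ∑ i, B k i ^ 2 ≤ 1 := by
  have hN' : (0 : ℝ) < N := by exact_mod_cast hN
  have hK' : (Fintype.card ι : ℝ) ≤ N := by exact_mod_cast hK
  calc ∑ i, B k i ^ 2 ≤ ∑ _i : ι, 1 / (N : ℝ) :=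
        Finset.sum_le_sum fun i _ => main_Bsq B hN hB k i
    _ = (Fintype.card ι : ℝ) / N := by
      rw [Finset.sum_const, Finset.card_univ, nsmul_eq_mul]
      ring
    _ ≤ 1 := by
      rw [div_le_one hN']
      exact hK'

private theorem main_tr (B : Matrix (Fin N) ι ℝ) (L : Matrix ι (Fin N) ℝ) (h : L * B = 1) :
    ∑ i, ∑ k, L i k * B k i = Fintype.card ι := by
  have h1 : ∀ i, ∑ k, L i k * B k i = 1 := by
    intro i
    have := congrFun (congrFun h i) i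
    rw [Matrix.mul_apply, Matrix.one_apply_eq] at this
    exact this
  simp [h1]

/-- `∑ (L - Bᵀ)^2 ≤ κ N` and `∑ B ^ 2 ≥ card - κ N`. -/
private theorem main_alg (B : Matrix (Fin N) ι ℝ) (L : Matrix ι (Fin N) ℝ) (κ : ℝ) (hN : 0 < N)
    (h : L * B = 1) (hB : ∀ k i, |B k i| ≤ 1 / √(N : ℝ))
    (hL : ∑ i, ∑ k, L i k ^ 2 ≤ Fintype.card ι + κ * N) :
    (∑ k, ∑ i, (L i k - B k i) ^ 2 ≤ κ * N) ∧
      (Fintype.card ι : ℝ) - κ * N ≤ ∑ k, ∑ i, B k i ^ 2 := by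
  have e1 : ∑ k, ∑ i, (L i k - B k i) ^ 2 =
      ∑ i, ∑ k, L i k ^ 2 - 2 * ∑ i, ∑ k, L i k * B k i + ∑ k, ∑ i, B k i ^ 2 := by
    rw [Finset.sum_comm (s := (Finset.univ : Finset ι)) (f := fun i k => L i k ^ 2),
      Finset.sum_comm (s := (Finset.univ : Finset ι)) (f := fun i k => L i k * B k i),
      Finset.mul_sum, ← Finset.sum_sub_distrib, ← Finset.sum_add_distrib]
    refine Finset.sum_congr rfl fun k _ => ?_
    rw [Finset.mul_sum, ← Finset.sum_sub_distrib, ← Finset.sum_add_distrib]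
    refine Finset.sum_congr rfl fun i _ => ?_
    ring
  rw [main_tr B L h] at e1
  have e2 : 0 ≤ ∑ k, ∑ i, (L i k - B k i) ^ 2 :=
    Finset.sum_nonneg fun k _ => Finset.sum_nonneg fun i _ => sq_nonneg _
  have e3 : ∑ k, ∑ i, B k i ^ 2 ≤ Fintype.card ι := by
    rw [Finset.sum_comm]
    calc ∑ i, ∑ k, B k i ^ 2 ≤ ∑ _i : ι, (1 : ℝ) :=
          Finset.sum_le_sum fun i _ => main_col B hN hB i
      _ = _ := by simp
  constructor <;> linarith

private theorem main_LW (B W : Matrix (Fin N) ι ℝ) (L : Matrix ι (Fin N) ℝ) (a : ℝ)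
    (h1 : ∑ k, ∑ i, (L i k - B k i) ^ 2 ≤ a) (h2 : ∑ k, ∑ i, (W k i - B k i) ^ 2 ≤ a) :
    ∑ i, ∑ k, (L i k - W k i) ^ 2 ≤ 4 * a := by
  rw [Finset.sum_comm]
  calc ∑ k, ∑ i, (L i k - W k i) ^ 2
      ≤ ∑ k, ∑ i, (2 * (L i k - B k i) ^ 2 + 2 * (W k i - B k i) ^ 2) := by
        refine Finset.sum_le_sum fun k _ => Finset.sum_le_sum fun i _ => ?_
        nlinarith [sq_nonneg ((L i k - B k i) + (W k i - B k i))]
    _ = 2 * ∑ k, ∑ i, (L i k - B k i) ^ 2 + 2 * ∑ k, ∑ i, (W k i - B k i) ^ 2 := by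
        simp only [Finset.mul_sum, Finset.sum_add_distrib]
    _ ≤ 4 * a := by linarith

private theorem main_V (B W : Matrix (Fin N) ι ℝ) (hN : 0 < N)
    (hB : ∀ k i, |B k i| ≤ 1 / √(N : ℝ)) (y : ι → Bool) (i : ι) :
    0 ≤ Vv W B y i ∧ Vb W y - (1 - ∑ k, B k i ^ 2) ≤ Vv W B y i := by
  have hN' : (0 : ℝ) < N := by exact_mod_cast hN
  constructor
  · exact Finset.sum_nonneg fun k _ => mul_nonneg (sq_nonneg _) (main_phi2 W y k).1
  · have e : Vb W y - (1 - ∑ k, B k i ^ 2) =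
        ∑ k, ((1 - phi W y k ^ 2) / N - (1 / N - B k i ^ 2)) := by
      have s1 : ∑ _k : Fin N, (1 / (N : ℝ)) = 1 := by
        rw [Finset.sum_const, Finset.card_univ, Fintype.card_fin, nsmul_eq_mul]
        field_simp
      have s2 : ∑ k : Fin N, (1 / (N : ℝ) - B k i ^ 2) = 1 - ∑ k, B k i ^ 2 := by
        rw [Finset.sum_sub_distrib (fun _ => 1 / (N : ℝ)) (fun k => B k i ^ 2), s1]
      rw [Finset.sum_sub_distrib (fun k => (1 - phi W y k ^ 2) / (N : ℝ))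
        (fun k => 1 / (N : ℝ) - B k i ^ 2), s2, ← Finset.sum_div, Vb, Fintype.card_fin]
    rw [e]
    unfold Vv
    refine Finset.sum_le_sum fun k _ => ?_
    have h1 := main_Bsq B hN hB k i
    have h2 := main_phi2 W y k
    have h3 : 0 ≤ (1 / (N : ℝ) - B k i ^ 2) * (1 - (1 - phi W y k ^ 2)) :=
      mul_nonneg (by linarith) (by linarith [h2.2])
    have h4 : (1 - phi W y k ^ 2) / (N : ℝ) = 1 / (N : ℝ) * (1 - phi W y k ^ 2) := by ring
    rw [h4]
    nlinarith [h3]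

private theorem main_sv0 : 1 / √v0 ≤ 6 / 5 := by
  have h := v0_bd
  have h1 : (5 / 6 : ℝ) ≤ √v0 := Real.le_sqrt_of_sq_le (by linarith [h.1])
  rw [div_le_iff₀ (by linarith)]
  linarith

private theorem main_y (B W : Matrix (Fin N) ι ℝ) (κ : ℝ) (hN : 0 < N)
    (hB : ∀ k i, |B k i| ≤ 1 / √(N : ℝ))
    (hBl : (Fintype.card ι : ℝ) - κ * N ≤ ∑ k, ∑ i, B k i ^ 2) (y : ι → Bool) :
    ∑ i, F (mu W y i) v0 -
        6 / 5 * ((Fintype.card ι : ℝ) * max (v0 - Vb W y) 0 + κ * N) ≤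
      ∑ i, F (mu W y i) (Vv W B y i) := by
  have hv0 : 0 < v0 := by linarith [v0_bd.1]
  have h1 : ∀ i, F (mu W y i) v0 - 6 / 5 * (max (v0 - Vb W y) 0 + (1 - ∑ k, B k i ^ 2)) ≤
      F (mu W y i) (Vv W B y i) := by
    intro i
    have hV := main_V B W hN hB y i
    have h2 := F_lip (mu W y i) v0 (Vv W B y i) hV.1 hv0
    have h3 := main_col B hN hB i
    have h4 : max (v0 - Vv W B y i) 0 ≤ max (v0 - Vb W y) 0 + (1 - ∑ k, B k i ^ 2) := by
      refine max_le ?_ ?_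
      · linarith [hV.2, le_max_left (v0 - Vb W y) 0]
      · linarith [le_max_right (v0 - Vb W y) 0]
    have h5 : max (v0 - Vv W B y i) 0 / √v0 ≤
        6 / 5 * (max (v0 - Vb W y) 0 + (1 - ∑ k, B k i ^ 2)) := by
      calc max (v0 - Vv W B y i) 0 / √v0 = (1 / √v0) * max (v0 - Vv W B y i) 0 := by ring
        _ ≤ 6 / 5 * max (v0 - Vv W B y i) 0 :=
          mul_le_mul_of_nonneg_right main_sv0 (le_max_right _ _)
        _ ≤ _ := by linarith
    linarith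
  have h2 := Finset.sum_le_sum fun (i : ι) (_ : i ∈ Finset.univ) => h1 i
  rw [Finset.sum_sub_distrib, ← Finset.mul_sum, Finset.sum_add_distrib, Finset.sum_sub_distrib,
    Finset.sum_const, Finset.sum_const, Finset.card_univ, nsmul_eq_mul, nsmul_eq_mul,
    Finset.sum_comm (s := (Finset.univ : Finset ι))] at h2
  linarith

private theorem main_jensen (W : Matrix (Fin N) ι ℝ) (hK : 0 < Fintype.card ι) :
    (Fintype.card ι : ℝ) *
      F ((Ex 0 (fun y => ∑ i, sg (y i) * mu W y i)) / Fintype.card ι) v0 ≤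
      Ex 0 (fun y => ∑ i, F (mu W y i) v0) := by
  have hK' : (0 : ℝ) < Fintype.card ι := by exact_mod_cast hK
  set K : ℝ := (Fintype.card ι : ℝ) with hKdef
  have h := F_jensen (κ := (ι → Bool) × ι) Finset.univ
    (fun q => pr (0 : ι → ℝ) q.1 / K) (fun q => sg (q.1 q.2) * mu W q.1 q.2) v0
    (fun q _ => div_nonneg (pr_nonneg zero_mean _) hK'.le) (by
      rw [Fintype.sum_prod_type]
      simp only [Finset.sum_const, Finset.card_univ, nsmul_eq_mul]
      rw [← Finset.mul_sum, ← Finset.sum_div, sum_pr, ← hKdef]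
      exact mul_one_div_cancel hK'.ne')
  have e1 : ∑ q : (ι → Bool) × ι, pr (0 : ι → ℝ) q.1 / K * (sg (q.1 q.2) * mu W q.1 q.2) =
      (Ex 0 (fun y => ∑ i, sg (y i) * mu W y i)) / K := by
    rw [Fintype.sum_prod_type]
    unfold Ex
    rw [Finset.sum_div]
    refine Finset.sum_congr rfl fun y _ => ?_
    rw [Finset.mul_sum, Finset.sum_div]
    refine Finset.sum_congr rfl fun i _ => ?_
    ring
  have e2 : ∑ q : (ι → Bool) × ι, pr (0 : ι → ℝ) q.1 / K * F (sg (q.1 q.2) * mu W q.1 q.2) v0 =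
      (Ex 0 (fun y => ∑ i, F (mu W y i) v0)) / K := by
    rw [Fintype.sum_prod_type]
    unfold Ex
    rw [Finset.sum_div]
    refine Finset.sum_congr rfl fun y _ => ?_
    rw [Finset.mul_sum, Finset.sum_div]
    refine Finset.sum_congr rfl fun i _ => ?_
    have e3 : F (sg (y i) * mu W y i) v0 = F (mu W y i) v0 := by
      cases y i
      · rw [sg_false, neg_one_mul, F_neg]
      · rw [sg_true, one_mul]
    rw [e3]
    ring
  rw [e1, e2, le_div_iff₀ hK'] at h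
  linarith

private theorem main_F (s t e : ℝ) (hs : 0 ≤ s) (he : 0 ≤ e) (h : s - e ≤ t) (v : ℝ)
    (hv : 0 ≤ v) : F s v - e ≤ F t v := by
  rcases le_total s t with h1 | h1
  · have := F_mono s t v hv (by rw [abs_of_nonneg hs, abs_of_nonneg (hs.trans h1)]; exact h1)
    linarith
  · have := F_sub s t v
    rw [abs_of_nonneg (by linarith : 0 ≤ s - t)] at this
    linarith

/-- The bound before the choice of the parameters. -/
private theorem main_all (N : ℕ) (hN : 16 ≤ N) (B : Matrix (Fin N) ι ℝ)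
    (L : Matrix ι (Fin N) ℝ) (M r T : ℝ) (hr : 0 ≤ r) (hr1 : r ≤ 1 / 10) (hT : 0 < T)
    (h : L * B = 1)
    (hB : ∀ k i, |B k i| ≤ 1 / √(N : ℝ)) (hK1 : (1 - r ^ 2) * N ≤ (Fintype.card ι : ℝ))
    (hK : Fintype.card ι ≤ N) (hL : ∑ i, ∑ k, L i k ^ 2 ≤ Fintype.card ι + r ^ 2 * N)
    (hM : ∀ x : Fin N → Bool, ∑ i, |∑ k, L i k * sg (x k)| ≤ √(N : ℝ) * M) :
    (1 - r ^ 2) * N * F s0 v0 - (r ^ 2 * N + 16 + 2 * (N * r)) -
      6 / 5 * (N * (20 / √(N : ℝ) + r) + r ^ 2 * N) - N * (T ^ 2 * (1 / √(N : ℝ)) + 2 / T) -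
      35 * r * N - r * N ≤ √(N : ℝ) * M := by
  have hN0 : 0 < N := by omega
  have hN' : (0 : ℝ) < N := by exact_mod_cast hN0
  have hK' : (Fintype.card ι : ℝ) ≤ N := by exact_mod_cast hK
  have hr2 : r ^ 2 ≤ 1 / 100 := by nlinarith
  have hKpos : (0 : ℝ) < Fintype.card ι := by nlinarith
  have hKpos' : 0 < Fintype.card ι := by exact_mod_cast hKpos
  have hsq : √(r ^ 2) = r := Real.sqrt_sq hr
  obtain ⟨h1, h2⟩ := main_alg B L (r ^ 2) hN0 h hB hL
  obtain ⟨W, hW, h3⟩ := exists_W B L h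
  have h3' : ∑ k, ∑ i, (W k i - B k i) ^ 2 ≤ r ^ 2 * N := h3.trans h1
  have h4 := main_LW B W L _ h1 h3'
  have hδ : (0 : ℝ) ≤ 1 / √(N : ℝ) := by positivity
  have hs0 := s0_bd
  have hv0 := v0_bd
  -- for every y
  have hy : ∀ y : ι → Bool,
      (∑ i, F (mu W y i) v0 -
        6 / 5 * ((Fintype.card ι : ℝ) * max (v0 - Vb W y) 0 + r ^ 2 * N)) -
        Fintype.card ι * (T ^ 2 * (1 / √(N : ℝ)) + 2 / T) -
        ∑ i, |∑ k, (L i k - W k i) * phi W y k| -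
        √(Fintype.card ι * ∑ k, ∑ i, (L i k - B k i) ^ 2) ≤ √(N : ℝ) * M := by
    intro y
    have e1 := fixed_y B W L (1 / √(N : ℝ)) T hδ hB (main_col B hN0 hB) hT y
    have e2 := main_y B W (r ^ 2) hN0 hB h2 y
    have e3 : Ex (phi W y) (fun x => ∑ i, |∑ k, L i k * sg (x k)|) ≤ √(N : ℝ) * M := by
      calc Ex (phi W y) (fun x => ∑ i, |∑ k, L i k * sg (x k)|)
          ≤ Ex (phi W y) (fun _ => √(N : ℝ) * M) := Ex_mono (main_phi W y) hM
        _ = _ := Ex_const _ _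
    linarith
  have hav : Ex 0 (fun y : ι → Bool => (∑ i, F (mu W y i) v0 -
        6 / 5 * ((Fintype.card ι : ℝ) * max (v0 - Vb W y) 0 + r ^ 2 * N)) -
        Fintype.card ι * (T ^ 2 * (1 / √(N : ℝ)) + 2 / T) -
        ∑ i, |∑ k, (L i k - W k i) * phi W y k| -
        √(Fintype.card ι * ∑ k, ∑ i, (L i k - B k i) ^ 2)) ≤ √(N : ℝ) * M := by
    calc _ ≤ Ex 0 (fun _ : ι → Bool => √(N : ℝ) * M) := Ex_mono zero_mean hy
      _ = _ := Ex_const _ _
  rw [Ex_sub, Ex_sub, Ex_sub, Ex_sub, Ex_const, Ex_const, Ex_mul, Ex_add, Ex_mul, Ex_const] at hav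
  have b1 := var1 W B hW N hN (Fintype.card_fin N) hB (main_row B hN0 hB hK) (r ^ 2) h3'
  have b2 := mean1 W B N hN (Fintype.card_fin N) hB (main_row B hN0 hB hK) (r ^ 2) h3'
  have b3 := err1 W hW (fun i k => L i k - W k i)
  have b4 := main_jensen W hKpos'
  rw [hsq] at b1 b2
  have b5 : √(Fintype.card ι * (300 * ∑ i, ∑ k, (L i k - W k i) ^ 2)) ≤ 35 * r * N := by
    apply Real.sqrt_le_iff.2
    constructor
    · positivity
    · calc Fintype.card ι * (300 * ∑ i, ∑ k, (L i k - W k i) ^ 2)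
          ≤ N * (300 * (4 * (r ^ 2 * N))) := by
            refine mul_le_mul hK' (by linarith) ?_ hN'.le
            exact mul_nonneg (by norm_num) (Finset.sum_nonneg fun i _ =>
              Finset.sum_nonneg fun k _ => sq_nonneg _)
        _ ≤ (35 * r * N) ^ 2 := by nlinarith [sq_nonneg (r * N)]
  have b6 : √(Fintype.card ι * ∑ k, ∑ i, (L i k - B k i) ^ 2) ≤ r * N := by
    apply Real.sqrt_le_iff.2
    constructor
    · positivity
    · calc Fintype.card ι * ∑ k, ∑ i, (L i k - B k i) ^ 2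
          ≤ N * (r ^ 2 * N) := by
            refine mul_le_mul hK' h1 ?_ hN'.le
            exact Finset.sum_nonneg fun i _ => Finset.sum_nonneg fun k _ => sq_nonneg _
        _ = (r * N) ^ 2 := by ring
  have b7 : Fintype.card ι * (T ^ 2 * (1 / √(N : ℝ)) + 2 / T) ≤
      N * (T ^ 2 * (1 / √(N : ℝ)) + 2 / T) :=
    mul_le_mul_of_nonneg_right hK' (by positivity)
  have b8 : (Fintype.card ι : ℝ) * Ex 0 (fun y : ι → Bool => max (v0 - Vb W y) 0) ≤
      N * (20 / √(N : ℝ) + r) := by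
    refine mul_le_mul hK' b1 ?_ hN'.le
    exact Ex_nonneg zero_mean fun y => le_max_right _ _
  -- Jensen and the mean
  set e : ℝ := (r ^ 2 * N + 16 + 2 * (N * r)) / Fintype.card ι with he
  have he0 : 0 ≤ e := by positivity
  have b9 : s0 - e ≤ (Ex 0 (fun y : ι → Bool => ∑ i, sg (y i) * mu W y i)) / Fintype.card ι := by
    rw [le_div_iff₀ hKpos, sub_mul, he, div_mul_cancel₀ _ hKpos.ne']
    have c1 : s0 * ((Fintype.card ι : ℝ) - r ^ 2 * N) ≤ s0 * ∑ k, ∑ i, B k i ^ 2 :=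
      mul_le_mul_of_nonneg_left h2 (by linarith [hs0.1])
    have c2 : s0 * (r ^ 2 * N) ≤ r ^ 2 * N := by
      have : 0 ≤ r ^ 2 * (N : ℝ) := by positivity
      nlinarith [hs0.2]
    have c3 : s0 * ((Fintype.card ι : ℝ) - r ^ 2 * N) =
      s0 * (Fintype.card ι : ℝ) - s0 * (r ^ 2 * N) := by ring
    linarith
  have b10 := main_F s0 _ e (by linarith [hs0.1]) he0 b9 v0 (by linarith [hv0.1])
  have b11 : (Fintype.card ι : ℝ) * (F s0 v0 - e) ≤
      (Fintype.card ι : ℝ) *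
      F ((Ex 0 (fun y => ∑ i, sg (y i) * mu W y i)) / Fintype.card ι) v0 :=
    mul_le_mul_of_nonneg_left b10 hKpos.le
  have b12 : (Fintype.card ι : ℝ) * e = r ^ 2 * N + 16 + 2 * (N * r) := by
    rw [he]
    field_simp
  have b13 : (1 - r ^ 2) * N * F s0 v0 ≤ (Fintype.card ι : ℝ) * F s0 v0 := by
    refine mul_le_mul_of_nonneg_right hK1 ?_
    have := F_num
    have h0 : 0 ≤ √(2 / Real.pi) * (1 + 1 / 400) := by positivity
    linarith
  rw [mul_sub, b12] at b11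
  linarith

end

/-- MAIN -/
theorem main_step : ∃ κ > (0 : ℝ), ∃ N0 : ℕ, ∀ N ≥ N0, ∀ (ι : Type) [Fintype ι] [DecidableEq ι]
    (B : Matrix (Fin N) ι ℝ) (L : Matrix ι (Fin N) ℝ) (M : ℝ), L * B = 1 →
    (∀ k i, |B k i| ≤ 1 / √(N : ℝ)) → (1 - κ) * N ≤ (Fintype.card ι : ℝ) →
    Fintype.card ι ≤ N → ∑ i, ∑ k, L i k ^ 2 ≤ Fintype.card ι + κ * N →
    (∀ x : Fin N → Bool, ∑ i, |∑ k, L i k * sg (x k)| ≤ √(N : ℝ) * M) →
    √(2 / Real.pi) * (1 + 1 / 1000) * √(N : ℝ) ≤ M := by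
  refine ⟨(1 / 50000) ^ 2, by norm_num, 10 ^ 30, ?_⟩
  intro N hN ι _ _ B L M h hB hK1 hK hL hM
  have hN16 : 16 ≤ N := le_trans (by norm_num) hN
  have hNr : (10 : ℝ) ^ 30 ≤ N := by exact_mod_cast hN
  have hN' : (0 : ℝ) < N := by linarith [show (0 : ℝ) < 10 ^ 30 by norm_num]
  have hall := main_all N hN16 B L M (1 / 50000) 20000 (by norm_num) (by norm_num) (by norm_num)
    h hB hK1 hK hL hM
  have hF := F_num
  set S : ℝ := √(N : ℝ) with hS
  have hS2 : S ^ 2 = N := Real.sq_sqrt hN'.le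
  have hS15 : (10 : ℝ) ^ 15 ≤ S := Real.le_sqrt_of_sq_le (by rw [← pow_mul]; exact hNr)
  have hS0 : 0 < S := by linarith [show (0 : ℝ) < 10 ^ 15 by norm_num]
  have hp1 : 79 / 100 ≤ √(2 / Real.pi) := by
    apply Real.le_sqrt_of_sq_le
    rw [le_div_iff₀ Real.pi_pos]
    nlinarith [Real.pi_lt_d2]
  have hp2 : √(2 / Real.pi) ≤ 4 / 5 := by
    apply Real.sqrt_le_iff.2
    refine ⟨by norm_num, ?_⟩
    rw [div_le_iff₀ Real.pi_pos]
    nlinarith [Real.pi_gt_d2]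
  set p : ℝ := √(2 / Real.pi) with hp
  have hinv : 1 / S ≤ 1 / 10 ^ 15 := one_div_le_one_div_of_le (by norm_num) hS15
  have hq : (20 : ℝ) / S = 20 * (1 / S) := by ring
  rw [hq] at hall
  have h16 : (16 : ℝ) ≤ N * (16 / 10 ^ 30) := by
    nlinarith
  have hF' : (1 - (1 / 50000 : ℝ) ^ 2) * N * (p * (1 + 1 / 400)) ≤
      (1 - (1 / 50000 : ℝ) ^ 2) * N * F s0 v0 :=
    mul_le_mul_of_nonneg_left hF (by positivity)
  have hA : (N : ℝ) * (1 / S) ≤ N * (1 / 10 ^ 15) := mul_le_mul_of_nonneg_left hinv hN'.le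
  have hfin : p * (1 + 1 / 1000) * N ≤ S * M := by
    have hNp : 79 / 100 * N ≤ p * N := mul_le_mul_of_nonneg_right hp1 hN'.le
    have hNp2 : p * N ≤ 4 / 5 * N := mul_le_mul_of_nonneg_right hp2 hN'.le
    norm_num at hall hF' hA h16 ⊢
    nlinarith
  have : S * (p * (1 + 1 / 1000) * S) ≤ S * M := by
    calc S * (p * (1 + 1 / 1000) * S) = p * (1 + 1 / 1000) * S ^ 2 := by ring
      _ = p * (1 + 1 / 1000) * N := by rw [hS2]
      _ ≤ S * M := hfin
  exact le_of_mul_le_mul_left this hS0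

end Pool.Agent.PCB
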