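import Pool.Agent.PCB.MAIN
import Pool.Agent.PCB.GOOD

set_option autoImplicit false

namespace Pool.Agent.PCB

open Finset MeasureTheory

/-- MAT -/
theorem matrix_bound : ∃ c > (0 : ℝ), ∃ N0 : ℕ, ∀ N ≥ N0,
    ∀ (A Q : Matrix (Fin N) (Fin N) ℝ), (∀ i j, |A i j| ≤ 1) → Q * A = 1 → ∀ M : ℝ,
    (∀ x : Fin N → Bool, ∑ i, |∑ j, Q i j * sg (x j)| ≤ M) →
    (√(2 / Real.pi) + c) * √(N : ℝ) ≤ M := by
  obtain ⟨κ, hκ, N1, hmain⟩ := main_step
  obtain ⟨c0, hc0, N2, hgood⟩ := good_rows κ hκ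
  have hp : 0 < √(2 / Real.pi) := Real.sqrt_pos.2 (by positivity)
  refine ⟨min c0 (√(2 / Real.pi) / 1000), lt_min hc0 (by positivity), max 1 (max N1 N2), ?_⟩
  intro N hN A Q hA hQA M hM
  have hN1 : 1 ≤ N := le_trans (le_max_left _ _) hN
  have hNN1 : N1 ≤ N := le_trans (le_trans (le_max_left _ _) (le_max_right _ _)) hN
  have hNN2 : N2 ≤ N := le_trans (le_trans (le_max_right _ _) (le_max_right _ _)) hN
  have hN' : (0 : ℝ) < N := by exact_mod_cast hN1
  have hs : 0 < √(N : ℝ) := Real.sqrt_pos.2 hN'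
  by_contra hlt
  rw [not_le] at hlt
  have h1 : M ≤ (√(2 / Real.pi) + c0) * √(N : ℝ) := by
    refine hlt.le.trans (mul_le_mul_of_nonneg_right ?_ hs.le)
    linarith [min_le_left c0 (√(2 / Real.pi) / 1000)]
  obtain ⟨I, hI, hI2⟩ := hgood N hNN2 A Q hA hQA M hM h1
  have h2 : ∑ i : {i // i ∈ I}, ∑ k, (√(N : ℝ) * Q i k) ^ 2 =
      ∑ i ∈ I, ((N : ℝ) * ∑ j, Q i j ^ 2) := by
    rw [← Finset.sum_coe_sort I]
    refine Finset.sum_congr rfl fun i _ => ?_
    rw [Finset.mul_sum]
    refine Finset.sum_congr rfl fun k _ => ?_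
    rw [mul_pow, Real.sq_sqrt hN'.le]
  have h3 := hmain N hNN1 {i // i ∈ I} (fun k i => A k i / √(N : ℝ))
    (fun i k => √(N : ℝ) * Q i k) M (by
      ext i j
      have h := congrFun (congrFun hQA i) j
      rw [Matrix.mul_apply] at h
      rw [Matrix.mul_apply]
      have e : ∀ k, √(N : ℝ) * Q i k * (A k j / √(N : ℝ)) = Q i k * A k j := by
        intro k
        field_simp
      rw [Finset.sum_congr rfl fun k _ => e k, h, Matrix.one_apply, Matrix.one_apply]
      simp only [Subtype.ext_iff]) (by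
      intro k i
      rw [abs_div, abs_of_pos hs]
      exact div_le_div_of_nonneg_right (hA k i) hs.le) (by
      rw [Fintype.card_coe]
      exact hI) (by
      rw [Fintype.card_coe]
      exact (Finset.card_le_univ I).trans (by rw [Fintype.card_fin])) (by
      rw [h2, Fintype.card_coe]
      exact hI2) (by
      intro x
      calc ∑ i : {i // i ∈ I}, |∑ k, √(N : ℝ) * Q i k * sg (x k)|
          = ∑ i ∈ I, √(N : ℝ) * |∑ k, Q i k * sg (x k)| := by
            rw [← Finset.sum_coe_sort I]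
            refine Finset.sum_congr rfl fun i _ => ?_
            rw [← abs_of_pos hs, ← abs_mul, abs_of_pos hs, Finset.mul_sum]
            congr 1
            exact Finset.sum_congr rfl fun k _ => by ring
        _ ≤ ∑ i, √(N : ℝ) * |∑ k, Q i k * sg (x k)| :=
            Finset.sum_le_sum_of_subset_of_nonneg (Finset.subset_univ _) fun i _ _ =>
              mul_nonneg hs.le (abs_nonneg _)
        _ = √(N : ℝ) * ∑ i, |∑ k, Q i k * sg (x k)| := by rw [Finset.mul_sum]
        _ ≤ √(N : ℝ) * M := mul_le_mul_of_nonneg_left (hM x) hs.le)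
  have h4 : (√(2 / Real.pi) + min c0 (√(2 / Real.pi) / 1000)) * √(N : ℝ) ≤
      √(2 / Real.pi) * (1 + 1 / 1000) * √(N : ℝ) := by
    refine mul_le_mul_of_nonneg_right ?_ hs.le
    linarith [min_le_right c0 (√(2 / Real.pi) / 1000)]
  linarith

end Pool.Agent.PCB
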