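import Pool.Agent.PCB.Defs
import Pool.Agent.H37.Cube.Basis

set_option autoImplicit false

/-! From simplices in the cube to matrices. -/

namespace Pool.Agent.PCB

open Finset Pool.Agent.H37.Cube

private theorem red_coord {n : ℕ} (G : (Fin n → ℝ) →ᵃ[ℝ] ℝ) (s : Fin n → ℝ) :
    G s = G 0 + ∑ i, G.linear (Pi.single i 1) * s i := by
  have h2 := congrFun (AffineMap.decomp G) s
  have h3 : G.linear s = ∑ i, s i • G.linear (Pi.single i 1) := by
    have h4 := LinearMap.pi_apply_eq_sum_univ G.linear s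
    rw [h4]
    refine Finset.sum_congr rfl fun i _ => ?_
    congr 2
    funext j
    rw [Pi.single_apply]
    simp [eq_comm]
  rw [h2]
  simp only [Pi.add_apply]
  rw [h3, add_comm]
  congr 1
  refine Finset.sum_congr rfl fun i _ => ?_
  rw [smul_eq_mul, mul_comm]

/-- The coefficients of an affine function in the basis `1, 2 t_i - 1`. -/
private noncomputable def redU {n : ℕ} (G : (Fin n → ℝ) →ᵃ[ℝ] ℝ) : Fin (n + 1) → ℝ :=
  Fin.cons (G 0 + ∑ i, G.linear (Pi.single i 1) / 2) (fun i => G.linear (Pi.single i 1) / 2)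

/-- The values of `1, 2 t_i - 1`. -/
private noncomputable def redW {n : ℕ} (t : Fin n → ℝ) : Fin (n + 1) → ℝ :=
  Fin.cons 1 (fun i => 2 * t i - 1)

private theorem red_val {n : ℕ} (G : (Fin n → ℝ) →ᵃ[ℝ] ℝ) (t : Fin n → ℝ) :
    ∑ k, redU G k * redW t k = G t := by
  rw [Fin.sum_univ_succ, red_coord G t]
  simp only [redU, redW, Fin.cons_zero, Fin.cons_succ]
  rw [mul_one, add_assoc, ← Finset.sum_add_distrib]
  congr 1
  refine Finset.sum_congr rfl fun i _ => ?_
  ring

private theorem red_W_abs {n : ℕ} (t : Fin n → ℝ) (ht : t ∈ Q n) (k : Fin (n + 1)) :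
    |redW t k| ≤ 1 := by
  refine Fin.cases ?_ (fun i => ?_) k
  · simp [redW]
  · simp only [redW, Fin.cons_succ]
    have h0 : 0 ≤ t i := ht.1 i
    have h1 : t i ≤ 1 := ht.2 i
    rw [abs_le]
    constructor <;> linarith

/-- The vertex of the cube with given signs. -/
private noncomputable def redV {n : ℕ} (x : Fin (n + 1) → Bool) : Fin n → ℝ :=
  fun i => if x 0 = x i.succ then 1 else 0

private theorem red_V_mem {n : ℕ} (x : Fin (n + 1) → Bool) : redV x ∈ Q n := by
  constructor
  · intro i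
    unfold redV
    split_ifs <;> simp
  · intro i
    unfold redV
    split_ifs <;> simp

private theorem red_V {n : ℕ} (x : Fin (n + 1) → Bool) (k : Fin (n + 1)) :
    sg (x k) = sg (x 0) * redW (redV x) k := by
  refine Fin.cases ?_ (fun i => ?_) k
  · simp [redW]
  · simp only [redW, Fin.cons_succ, redV]
    cases x 0 <;> cases x i.succ <;> norm_num

private theorem red_abs {n : ℕ} (G : (Fin n → ℝ) →ᵃ[ℝ] ℝ) (x : Fin (n + 1) → Bool) :
    |∑ k, redU G k * sg (x k)| = |G (redV x)| := by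
  have h : ∑ k, redU G k * sg (x k) = sg (x 0) * G (redV x) := by
    rw [← red_val G (redV x), Finset.mul_sum]
    refine Finset.sum_congr rfl fun k _ => ?_
    rw [red_V x k]
    ring
  rw [h, abs_mul, abs_sg, one_mul]

/-- RED: the matrices of an interpolation projector on the cube. -/
theorem exists_matrix {n : ℕ} (S : Nodes n) (hS : ∀ j, S j ∈ Q n) :
    ∃ A P : Matrix (Fin (n + 1)) (Fin (n + 1)) ℝ, (∀ i j, |A i j| ≤ 1) ∧ P * A = 1 ∧
      ∀ x : Fin (n + 1) → Bool, ∑ i, |∑ j, P i j * sg (x j)| ≤ ‖proj S hS‖ := by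
  refine ⟨fun k j => redW (S j) k, fun j k => redU (S.coord j) k, ?_, ?_, ?_⟩
  · intro k j
    exact red_W_abs (S j) (hS j) k
  · ext j l
    rw [Matrix.mul_apply, red_val (S.coord j) (S l), AffineBasis.coord_apply, Matrix.one_apply]
  · intro x
    calc ∑ j, |∑ k, redU (S.coord j) k * sg (x k)| = ∑ j, |S.coord j (redV x)| :=
          Finset.sum_congr rfl fun j _ => red_abs (S.coord j) x
      _ ≤ ‖proj S hS‖ := sum_le_norm S hS ⟨redV x, red_V_mem x⟩

end Pool.Agent.PCB
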