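import Pool.Agent.PCB.ABS1
import Pool.Agent.PCB.ABS2
import Pool.Agent.PCB.FPR

set_option autoImplicit false

namespace Pool.Agent.PCB

open Finset MeasureTheory

private def ROW_flip {N : ℕ} (j : Fin N) (x : Fin N → Bool) : Fin N → Bool :=
  Function.update x j (!(x j))

private theorem ROW_flip_invol {N : ℕ} (j : Fin N) :
    Function.Involutive (ROW_flip j) := by
  intro x
  unfold ROW_flip
  simp

private theorem ROW_flip_ne {N : ℕ} (j i : Fin N) (x : Fin N → Bool) (h : i ≠ j) :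
    ROW_flip j x i = x i := by
  unfold ROW_flip
  rw [Function.update_of_ne h]

private theorem ROW_flip_self {N : ℕ} (j : Fin N) (x : Fin N → Bool) :
    sg (ROW_flip j x j) = - sg (x j) := by
  unfold ROW_flip
  rw [Function.update_self]
  cases x j <;> simp

private theorem ROW_Ex_flip {N : ℕ} (j : Fin N) (f : (Fin N → Bool) → ℝ) :
    Ex 0 (fun x => f (ROW_flip j x)) = Ex 0 f := by
  have h : ∀ x : Fin N → Bool, pr (0 : Fin N → ℝ) x = (1/2)^N := by
    intro x
    unfold pr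
    simp
  unfold Ex
  simp only [h]
  exact Equiv.sum_comp (ROW_flip_invol j).toPerm (fun x => (1/2 : ℝ)^N * f x)

private theorem ROW_cos {N : ℕ} (θ : Fin N → ℝ) (s : Finset (Fin N)) :
    Ex 0 (fun x : Fin N → Bool => Real.cos (∑ j ∈ s, θ j * sg (x j))) =
      ∏ j ∈ s, Real.cos (θ j) := by
  induction s using Finset.induction_on with
  | empty => simp [Ex_const]
  | insert j s hj ih =>
    rw [Finset.prod_insert hj, ← ih, ← Ex_mul]
    have h1 := ROW_Ex_flip j
      (fun x : Fin N → Bool => Real.cos (∑ i ∈ insert j s, θ i * sg (x i)))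
    have h2 : Ex 0 (fun x : Fin N → Bool => Real.cos (∑ i ∈ insert j s, θ i * sg (x i))) +
        Ex 0 (fun x : Fin N → Bool => Real.cos (∑ i ∈ insert j s, θ i * sg (ROW_flip j x i))) =
        2 * Ex 0 (fun x : Fin N → Bool => Real.cos (θ j) * Real.cos (∑ i ∈ s, θ i * sg (x i))) := by
      rw [← Ex_add, ← Ex_mul]
      congr 1
      funext x
      have e1 : ∑ i ∈ s, θ i * sg (ROW_flip j x i) = ∑ i ∈ s, θ i * sg (x i) := by
        refine Finset.sum_congr rfl fun i hi => ?_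
        rw [ROW_flip_ne j i x (fun h => hj (h ▸ hi))]
      rw [Finset.sum_insert hj, Finset.sum_insert hj, e1, ROW_flip_self]
      cases x j
      · simp only [sg_false]
        rw [Real.cos_add, Real.cos_add]
        simp
        ring
      · simp only [sg_true]
        rw [Real.cos_add, Real.cos_add]
        simp
        ring
    rw [h1] at h2
    linarith

private theorem ROW_abs_ge {N : ℕ} (g : Fin N → ℝ) (j : Fin N) :
    |g j| ≤ Ex 0 (fun x : Fin N → Bool => |∑ i, g i * sg (x i)|) := by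
  have h1 := ROW_Ex_flip j (fun x : Fin N → Bool => |∑ i, g i * sg (x i)|)
  have h2 : 2 * |g j| ≤ Ex 0 (fun x : Fin N → Bool => |∑ i, g i * sg (x i)|) +
      Ex 0 (fun x : Fin N → Bool => |∑ i, g i * sg (ROW_flip j x i)|) := by
    rw [← Ex_add]
    have h3 : (2 * |g j|) = Ex 0 (fun _ : Fin N → Bool => 2 * |g j|) := (Ex_const _ _).symm
    rw [h3]
    refine Ex_mono zero_mean fun x => ?_
    have e1 : ∑ i, g i * sg (x i) - ∑ i, g i * sg (ROW_flip j x i) = 2 * (g j * sg (x j)) := by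
      rw [← Finset.sum_sub_distrib, Finset.sum_eq_single j]
      · rw [ROW_flip_self]
        ring
      · intro i _ hi
        rw [ROW_flip_ne j i x hi]
        ring
      · intro h
        exact absurd (Finset.mem_univ _) h
    have e2 : |2 * (g j * sg (x j))| = 2 * |g j| := by
      rw [abs_mul, abs_mul, abs_sg]
      simp
    rw [← e2, ← e1]
    exact abs_sub _ _
  rw [h1] at h2
  linarith

private theorem ROW_integrand {N : ℕ} (g : Fin N → ℝ) (t : ℝ) :
    ∑ x : Fin N → Bool, pr 0 x * ((1 - Real.cos (t * ∑ j, g j * sg (x j))) / t ^ 2) =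
      (1 - ∏ j, Real.cos (t * g j)) / t ^ 2 := by
  have h := ROW_cos (fun j => t * g j) Finset.univ
  have h1 : ∀ x : Fin N → Bool, ∑ j, t * g j * sg (x j) = t * ∑ j, g j * sg (x j) := by
    intro x
    rw [Finset.mul_sum]
    exact Finset.sum_congr rfl fun j _ => by ring
  simp only [h1] at h
  rw [← h]
  have h2 : ∑ x : Fin N → Bool, pr 0 x = 1 := sum_pr 0
  unfold Ex
  calc ∑ x : Fin N → Bool, pr 0 x * ((1 - Real.cos (t * ∑ j, g j * sg (x j))) / t ^ 2)
      = (∑ x : Fin N → Bool, pr 0 x - ∑ x : Fin N → Bool,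
          pr 0 x * Real.cos (t * ∑ j, g j * sg (x j))) / t ^ 2 := by
        rw [← Finset.sum_sub_distrib, Finset.sum_div]
        refine Finset.sum_congr rfl fun x _ => ?_
        ring
    _ = _ := by rw [h2]

private theorem ROW_int {N : ℕ} (g : Fin N → ℝ) :
    IntegrableOn (fun t : ℝ => (1 - ∏ j, Real.cos (t * g j)) / t ^ 2) (Set.Ioi 0) ∧
    Ex 0 (fun x : Fin N → Bool => |∑ j, g j * sg (x j)|) =
      2 / Real.pi * ∫ t in Set.Ioi (0 : ℝ), (1 - ∏ j, Real.cos (t * g j)) / t ^ 2 := by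
  have h0 : (fun t : ℝ => (1 - ∏ j, Real.cos (t * g j)) / t ^ 2) =
      fun t => ∑ x : Fin N → Bool,
        pr 0 x * ((1 - Real.cos (t * ∑ j, g j * sg (x j))) / t ^ 2) := by
    funext t
    rw [ROW_integrand]
  have h1 : ∀ x : Fin N → Bool, IntegrableOn
      (fun t : ℝ => pr 0 x * ((1 - Real.cos (t * ∑ j, g j * sg (x j))) / t ^ 2)) (Set.Ioi 0) :=
    fun x => (cos_integrable _).const_mul _
  constructor
  · rw [h0]
    exact integrable_finsetSum _ fun x _ => h1 x
  · rw [h0, integral_finsetSum _ fun x _ => h1 x, Finset.mul_sum]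
    unfold Ex
    refine Finset.sum_congr rfl fun x _ => ?_
    show pr 0 x * |∑ j, g j * sg (x j)| = _
    rw [integral_const_mul, abs_eq]
    ring

private theorem ROW_cos_le (u : ℝ) (hu : |u| ≤ 1) : |Real.cos u| ≤ Real.exp (-(u ^ 2) / 2) := by
  rw [abs_of_pos (Real.cos_pos_of_le_one hu)]
  have h1 := (abs_le.1 (Real.cos_bound hu)).2
  have h4 : |u| ^ 4 = (u ^ 2) ^ 2 := by
    rw [← sq_abs u]
    ring
  rw [h4] at h1
  set w := u ^ 2 / 2 with hw
  have hw0 : 0 ≤ w := by positivity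
  have hw1 : w ≤ 1 / 2 := by
    have : u ^ 2 ≤ 1 := by
      rw [← sq_abs]
      nlinarith [abs_nonneg u]
    linarith
  have h2 := Real.exp_bound' hw0 (by linarith) (show 0 < 3 by norm_num)
  have h3 : Real.exp w ≤ 1 + w + w ^ 2 / 2 + 2 / 9 * w ^ 3 := by
    refine h2.trans (le_of_eq ?_)
    simp [Finset.sum_range_succ, Nat.factorial]
    ring
  have h5 : -(u ^ 2) / 2 = -w := by rw [hw]; ring
  rw [h5, Real.exp_neg]
  have h6 : Real.cos u ≤ 1 - w + 5 / 24 * w ^ 2 := by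
    have : (u ^ 2) ^ 2 * (5 / 96) = 5 / 24 * w ^ 2 := by rw [hw]; ring
    linarith
  have h7 : 0 < Real.exp w := Real.exp_pos _
  rw [le_inv_comm₀ (Real.cos_pos_of_le_one hu) h7]
  have hc := Real.cos_pos_of_le_one hu
  rw [le_inv_comm₀ h7 hc, ← one_div, le_div_iff₀ h7]
  calc Real.cos u * Real.exp w ≤ (1 - w + 5 / 24 * w ^ 2) * (1 + w + w ^ 2 / 2 + 2 / 9 * w ^ 3) :=
        mul_le_mul h6 h3 h7.le (by nlinarith)
    _ ≤ 1 := by
      have : (1 - w + 5 / 24 * w ^ 2) * (1 + w + w ^ 2 / 2 + 2 / 9 * w ^ 3) =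
        1 - 7 / 24 * w ^ 2 - 5 / 72 * w ^ 3 - 17 / 144 * w ^ 4 + 5 / 108 * w ^ 5 := by ring
      rw [this]
      have h8 : w ^ 5 ≤ w ^ 2 := pow_le_pow_of_le_one hw0 (by linarith) (by norm_num)
      have h9 : 0 ≤ w ^ 3 := by positivity
      have h10 : 0 ≤ w ^ 4 := by positivity
      nlinarith [sq_nonneg w]

private theorem ROW_prod_le {N : ℕ} (g : Fin N → ℝ) (t : ℝ) (s : Finset (Fin N))
    (h : ∀ j ∈ s, |t * g j| ≤ 1) :
    |∏ j, Real.cos (t * g j)| ≤ Real.exp (-(t ^ 2 * ∑ j ∈ s, g j ^ 2) / 2) := by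
  rw [Finset.abs_prod]
  have h1 : ∏ j, |Real.cos (t * g j)| ≤ ∏ j ∈ s, |Real.cos (t * g j)| := by
    rw [← Finset.prod_mul_prod_compl s]
    have e1 : ∏ j ∈ sᶜ, |Real.cos (t * g j)| ≤ 1 :=
      Finset.prod_le_one (fun j _ => abs_nonneg _) (fun j _ => Real.abs_cos_le_one _)
    have e2 : 0 ≤ ∏ j ∈ s, |Real.cos (t * g j)| := Finset.prod_nonneg fun j _ => abs_nonneg _
    exact mul_le_of_le_one_right e2 e1
  refine h1.trans ?_
  have h2 : ∏ j ∈ s, |Real.cos (t * g j)| ≤ ∏ j ∈ s, Real.exp (-((t * g j) ^ 2) / 2) :=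
    Finset.prod_le_prod (fun j _ => abs_nonneg _) fun j hj => ROW_cos_le _ (h j hj)
  refine h2.trans (le_of_eq ?_)
  rw [← Real.exp_sum]
  congr 1
  rw [Finset.mul_sum, ← Finset.sum_div, ← Finset.sum_neg_distrib]
  congr 1
  exact Finset.sum_congr rfl fun j _ => by ring

private theorem ROW_zero (v : ℝ) (hv : 0 ≤ v) :
    2 / Real.pi * ∫ t in Set.Ioi (0 : ℝ), (1 - Real.exp (-(t ^ 2 * v) / 2)) / t ^ 2 =
      √(2 / Real.pi) * √v := by
  have h := F_eq 0 v hv
  simp only [mul_zero, Real.cos_zero, one_mul] at h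
  rw [← h, ← F_zero]
  unfold F
  rw [← integral_mul_const]
  congr 1
  funext x
  rw [zero_add, zero_add, Real.sqrt_one, one_mul, abs_mul, abs_of_nonneg (Real.sqrt_nonneg v)]
  ring

private theorem ROW_zero_int (v : ℝ) (hv : 0 ≤ v) :
    IntegrableOn (fun t : ℝ => (1 - Real.exp (-(t ^ 2 * v) / 2)) / t ^ 2) (Set.Ioi 0) := by
  have h := F_integrable 0 v hv
  simpa only [mul_zero, Real.cos_zero, one_mul] using h

/-- the tail integral -/
private theorem ROW_tail (T : ℝ) (hT : 0 < T) :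
    IntegrableOn ((Set.Ioi T).indicator fun t : ℝ => 1 / t ^ 2) (Set.Ioi 0) ∧
    ∫ t in Set.Ioi (0 : ℝ), (Set.Ioi T).indicator (fun t : ℝ => 1 / t ^ 2) t = 1 / T := by
  have e : ∀ t ∈ Set.Ioi T, (1 / t ^ 2 : ℝ) = t ^ (-2 : ℝ) := by
    intro t ht
    have : 0 < t := hT.trans ht
    rw [Real.rpow_neg this.le, one_div]
    norm_num
  have h1 : IntegrableOn (fun t : ℝ => 1 / t ^ 2) (Set.Ioi T) :=
    (integrableOn_Ioi_rpow_of_lt (by norm_num : (-2 : ℝ) < -1) hT).congr_fun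
      (fun t ht => (e t ht).symm) measurableSet_Ioi
  constructor
  · exact (h1.integrable_indicator measurableSet_Ioi).integrableOn
  · rw [setIntegral_indicator measurableSet_Ioi]
    have h2 : Set.Ioi (0 : ℝ) ∩ Set.Ioi T = Set.Ioi T := by
      ext t
      simp only [Set.mem_inter_iff, Set.mem_Ioi]
      exact ⟨fun h => h.2, fun h => ⟨hT.trans h, h⟩⟩
    rw [h2, setIntegral_congr_fun measurableSet_Ioi e,
      integral_Ioi_rpow_of_lt (by norm_num) hT]
    norm_num
    rw [Real.rpow_neg_one]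

private theorem ROW_box (a b c : ℝ) (ha : 0 ≤ a) (hab : a ≤ b) :
    IntegrableOn ((Set.Ioc a b).indicator fun _ : ℝ => c) (Set.Ioi 0) ∧
    ∫ t in Set.Ioi (0 : ℝ), (Set.Ioc a b).indicator (fun _ : ℝ => c) t = (b - a) * c := by
  constructor
  · have : IntegrableOn (fun _ : ℝ => c) (Set.Ioc a b) := by
      simp
    exact (this.integrable_indicator measurableSet_Ioc).integrableOn
  · rw [setIntegral_indicator measurableSet_Ioc]
    have h2 : Set.Ioi (0 : ℝ) ∩ Set.Ioc a b = Set.Ioc a b := by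
      ext t
      simp only [Set.mem_inter_iff, Set.mem_Ioi, Set.mem_Ioc]
      exact ⟨fun h => h.2, fun h => ⟨lt_of_le_of_lt ha h.1, h⟩⟩
    rw [h2]
    simp [hab]

private theorem ROW_nonneg {N : ℕ} (g : Fin N → ℝ) (t : ℝ) :
    0 ≤ (1 - ∏ j, Real.cos (t * g j)) / t ^ 2 := by
  have h := ROW_prod_le g t ∅ (fun j hj => absurd hj (Finset.notMem_empty j))
  simp only [Finset.sum_empty, mul_zero, neg_zero, zero_div, Real.exp_zero] at h
  have h1 := (abs_le.1 h).2
  have : 0 ≤ 1 - ∏ j, Real.cos (t * g j) := by linarith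
  positivity

private theorem ROW_big {N : ℕ} (g : Fin N → ℝ) (h2 : ∀ j, |g j| ≤ 2)
    (hs : 400 ≤ ∑ j, g j ^ 2) :
    15 / 8 * (2 / Real.pi) ≤ Ex 0 (fun x : Fin N → Bool => |∑ j, g j * sg (x j)|) := by
  obtain ⟨i1, i2⟩ := ROW_int g
  obtain ⟨b1, b2⟩ := ROW_box (1/10) (1/5) (75/4) (by norm_num) (by norm_num)
  rw [i2]
  have h : ∫ t in Set.Ioi (0 : ℝ), (Set.Ioc (1/10 : ℝ) (1/5)).indicator (fun _ : ℝ => 75/4) t ≤
      ∫ t in Set.Ioi (0 : ℝ), (1 - ∏ j, Real.cos (t * g j)) / t ^ 2 := by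
    refine setIntegral_mono_on b1 i1 measurableSet_Ioi (fun t ht => ?_)
    by_cases h3 : t ∈ Set.Ioc (1/10 : ℝ) (1/5)
    · rw [Set.indicator_of_mem h3]
      obtain ⟨h4, h5⟩ := h3
      have h6 : 0 < t := by linarith
      have h7 := ROW_prod_le g t Finset.univ (fun j _ => by
        rw [abs_mul, abs_of_pos h6]
        nlinarith [h2 j, abs_nonneg (g j)])
      have h8 := (abs_le.1 h7).2
      have h9 : Real.exp (-(t ^ 2 * ∑ j, g j ^ 2) / 2) ≤ Real.exp (-2) := by
        apply Real.exp_le_exp.2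
        have : (1/100 : ℝ) ≤ t ^ 2 := by nlinarith
        nlinarith
      have h10 : Real.exp (-2) ≤ 1 / 4 := by
        have e1 : (2 : ℝ) ≤ Real.exp 1 := by
          have := Real.add_one_le_exp (1 : ℝ)
          linarith
        have e2 : Real.exp 2 = Real.exp 1 * Real.exp 1 := by
          rw [← Real.exp_add]
          norm_num
        rw [Real.exp_neg, one_div]
        apply inv_anti₀ (by norm_num)
        rw [e2]
        nlinarith
      rw [le_div_iff₀ (by positivity)]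
      have : t ^ 2 ≤ 1 / 25 := by nlinarith
      nlinarith
    · rw [Set.indicator_of_notMem h3]
      exact ROW_nonneg g t
  rw [b2] at h
  have hp : 0 < 2 / Real.pi := by positivity
  nlinarith

private theorem ROW_main {N : ℕ} (g : Fin N → ℝ) (h2 : ∀ j, |g j| ≤ 2) (m v δ : ℝ)
    (hm0 : 0 ≤ m) (hm1 : m ≤ 1) (hv0 : 0 ≤ v) (hv1 : v ≤ 1) (hδ : 0 < δ) (hδ1 : δ ≤ 1)
    (hs : 1 + m ≤ ∑ j, g j ^ 2)
    (hJ : v ≤ ∑ j ∈ univ.filter (fun j => |g j| ≤ δ), g j ^ 2) :
    √(2 / Real.pi) * √v + 2 / Real.pi * (3 / 16 * m - δ) ≤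
      Ex 0 (fun x : Fin N → Bool => |∑ j, g j * sg (x j)|) := by
  obtain ⟨i1, i2⟩ := ROW_int g
  obtain ⟨b1, b2⟩ := ROW_box 0 (1/2) (3/8*m) (by norm_num) (by norm_num)
  obtain ⟨c1, c2⟩ := ROW_tail (1/δ) (by positivity)
  have a1 := ROW_zero_int v hv0
  have a2 := ROW_zero v hv0
  have hd1 : 1 ≤ 1 / δ := by
    rw [le_div_iff₀ hδ]
    linarith
  rw [i2]
  have h : ∫ t in Set.Ioi (0 : ℝ), ((1 - Real.exp (-(t ^ 2 * v) / 2)) / t ^ 2 +
      (Set.Ioc (0 : ℝ) (1/2)).indicator (fun _ : ℝ => 3/8*m) t -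
      (Set.Ioi (1/δ)).indicator (fun t : ℝ => 1 / t ^ 2) t) ≤
      ∫ t in Set.Ioi (0 : ℝ), (1 - ∏ j, Real.cos (t * g j)) / t ^ 2 := by
    refine setIntegral_mono_on ((a1.add b1).sub c1) i1 measurableSet_Ioi (fun t ht => ?_)
    have ht0 : 0 < t := ht
    have ht2 : 0 < t ^ 2 := by positivity
    rcases le_or_gt t (1/2) with h3 | h3
    · have e1 : t ∈ Set.Ioc (0 : ℝ) (1/2) := ⟨ht0, h3⟩
      have e2 : t ∉ Set.Ioi (1/δ) := by
        simp only [Set.mem_Ioi, not_lt]
        linarith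
      rw [Set.indicator_of_mem e1, Set.indicator_of_notMem e2, sub_zero]
      have h7 := ROW_prod_le g t Finset.univ (fun j _ => by
        rw [abs_mul, abs_of_pos ht0]
        nlinarith [h2 j, abs_nonneg (g j)])
      have h8 := (abs_le.1 h7).2
      have h9 : Real.exp (-(t ^ 2 * ∑ j, g j ^ 2) / 2) ≤ Real.exp (-(t ^ 2 * (1 + m)) / 2) := by
        apply Real.exp_le_exp.2
        nlinarith
      have h10 : Real.exp (-(t ^ 2) / 2) ≤ Real.exp (-(t ^ 2 * v) / 2) := by
        apply Real.exp_le_exp.2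
        nlinarith
      have h11 : Real.exp (-(t ^ 2) / 2) =
          Real.exp (-(t ^ 2 * (1 + m)) / 2) * Real.exp (m * t ^ 2 / 2) := by
        rw [← Real.exp_add]
        congr 1
        ring
      have h12 : m * t ^ 2 / 2 + 1 ≤ Real.exp (m * t ^ 2 / 2) := Real.add_one_le_exp _
      have h13 : 3 / 4 ≤ Real.exp (-(t ^ 2 * (1 + m)) / 2) := by
        have := Real.add_one_le_exp (-(t ^ 2 * (1 + m)) / 2)
        have : t ^ 2 ≤ 1 / 4 := by nlinarith
        nlinarith
      have h14 : 3 / 4 * (m * t ^ 2 / 2) ≤ Real.exp (-(t ^ 2 * (1 + m)) / 2) *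
          (Real.exp (m * t ^ 2 / 2) - 1) :=
        mul_le_mul h13 (by linarith) (by positivity) (by linarith)
      have h15 : 3 / 8 * m * t ^ 2 + (1 - Real.exp (-(t ^ 2 * v) / 2)) ≤
          1 - ∏ j, Real.cos (t * g j) := by
        rw [mul_sub, ← h11] at h14
        linarith
      rw [le_div_iff₀ ht2, add_mul, div_mul_cancel₀ _ ht2.ne']
      linarith
    · have e1 : t ∉ Set.Ioc (0 : ℝ) (1/2) := by
        simp only [Set.mem_Ioc, not_and, not_le]
        exact fun _ => h3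
      rw [Set.indicator_of_notMem e1, add_zero]
      rcases le_or_gt t (1/δ) with h4 | h4
      · have e2 : t ∉ Set.Ioi (1/δ) := by
          simp only [Set.mem_Ioi, not_lt]
          exact h4
        rw [Set.indicator_of_notMem e2, sub_zero]
        have h7 := ROW_prod_le g t (univ.filter (fun j => |g j| ≤ δ)) (fun j hj => by
          rw [abs_mul, abs_of_pos ht0]
          have e3 : |g j| ≤ δ := (Finset.mem_filter.1 hj).2
          rw [le_div_iff₀ hδ] at h4
          nlinarith [abs_nonneg (g j)])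
        have h8 := (abs_le.1 h7).2
        have h9 : Real.exp (-(t ^ 2 * ∑ j ∈ univ.filter (fun j => |g j| ≤ δ), g j ^ 2) / 2) ≤
            Real.exp (-(t ^ 2 * v) / 2) := by
          apply Real.exp_le_exp.2
          nlinarith
        gcongr
        linarith
      · rw [Set.indicator_of_mem (show t ∈ Set.Ioi (1/δ) from h4)]
        refine le_trans ?_ (ROW_nonneg g t)
        rw [← sub_div]
        apply div_nonpos_of_nonpos_of_nonneg _ ht2.le
        have := Real.exp_pos (-(t ^ 2 * v) / 2)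
        linarith
  have hab : IntegrableOn (fun t : ℝ => (1 - Real.exp (-(t ^ 2 * v) / 2)) / t ^ 2 +
      (Set.Ioc (0 : ℝ) (1/2)).indicator (fun _ : ℝ => 3/8*m) t) (Set.Ioi 0) := a1.add b1
  rw [integral_sub hab c1, integral_add a1 b1, b2, c2] at h
  have hp : 0 < 2 / Real.pi := by positivity
  have h5 := mul_le_mul_of_nonneg_left h hp.le
  rw [mul_sub, mul_add, a2, one_div_one_div] at h5
  linarith

/-- ROW -/
theorem row_stab (η : ℝ) (hη : 0 < η) : ∃ N0 : ℕ, ∀ N ≥ N0, ∀ g : Fin N → ℝ,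
    √(N : ℝ) ≤ ∑ j, |g j| →
    √(2 / Real.pi) * (1 + 1 / 10 * min (∑ j, g j ^ 2 - 1) 1) - η ≤
      Ex 0 (fun x : Fin N → Bool => |∑ j, g j * sg (x j)|) := by
  obtain ⟨δ, hδ0, hδ1, hδη⟩ : ∃ δ : ℝ, 0 < δ ∧ δ ≤ 1 ∧ 2 * δ ≤ η :=
    ⟨min η 1 / 2, by positivity, by linarith [min_le_right η 1], by linarith [min_le_left η 1]⟩
  obtain ⟨N0, hN0⟩ := exists_nat_ge ((1600 / δ ^ 3) ^ 2)
  refine ⟨N0 + 1, fun N hN g hg => ?_⟩
  have hNpos : 0 < (N : ℝ) := by
    have : 0 < N := by omega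
    exact_mod_cast this
  have hNr : (1600 / δ ^ 3) ^ 2 ≤ (N : ℝ) := by
    have : (N0 : ℝ) ≤ N := by exact_mod_cast (by omega : N0 ≤ N)
    linarith
  have hsN : 1600 / δ ^ 3 ≤ √(N : ℝ) := Real.le_sqrt_of_sq_le hNr
  have hsN0 : 0 < √(N : ℝ) := Real.sqrt_pos.2 hNpos
  have hsq : √(N : ℝ) * √(N : ℝ) = N := Real.mul_self_sqrt hNpos.le
  -- numbers
  have hpi0 : 0 < Real.pi := Real.pi_pos
  have hc0 : 0 < √(2 / Real.pi) := Real.sqrt_pos.2 (by positivity)
  have hc2 : √(2 / Real.pi) * √(2 / Real.pi) = 2 / Real.pi := Real.mul_self_sqrt (by positivity)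
  have hp1 : 3 / 5 ≤ 2 / Real.pi := by
    rw [le_div_iff₀ hpi0]
    have := Real.pi_lt_d2
    linarith
  have hp2 : 2 / Real.pi ≤ 1 := by
    rw [div_le_one hpi0]
    have := Real.pi_gt_three
    linarith
  have hc1 : √(2 / Real.pi) ≤ 1 := by
    by_contra hcon
    push Not at hcon
    nlinarith
  have hc3 : 3 / 4 ≤ √(2 / Real.pi) := by
    by_contra hcon
    push Not at hcon
    nlinarith
  -- the variance is at least one
  have hcs : ∀ s : Finset (Fin N), (∑ j ∈ s, |g j|) ^ 2 ≤ N * ∑ j ∈ s, g j ^ 2 := by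
    intro s
    have h1 := sq_sum_le_card_mul_sum_sq (s := s) (f := fun j => |g j|)
    simp only [sq_abs] at h1
    have h2 : (s.card : ℝ) ≤ N := by
      have := s.card_le_univ
      rw [Fintype.card_fin] at this
      exact_mod_cast this
    have h3 : 0 ≤ ∑ j ∈ s, g j ^ 2 := Finset.sum_nonneg fun j _ => sq_nonneg _
    exact h1.trans (mul_le_mul_of_nonneg_right h2 h3)
  have hvar : 1 ≤ ∑ j, g j ^ 2 := by
    have h1 := hcs Finset.univ
    have h2 : (N : ℝ) ≤ (∑ j, |g j|) ^ 2 := by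
      rw [← hsq]
      nlinarith
    have h3 : (N : ℝ) * 1 ≤ N * ∑ j, g j ^ 2 := by linarith
    exact le_of_mul_le_mul_left h3 hNpos
  set m := min (∑ j, g j ^ 2 - 1) 1 with hm
  have hm0 : 0 ≤ m := le_min (by linarith) (by norm_num)
  have hm1 : m ≤ 1 := min_le_right _ _
  have hm2 : 1 + m ≤ ∑ j, g j ^ 2 := by
    have := min_le_left (∑ j, g j ^ 2 - 1) 1
    linarith
  have hrhs : √(2 / Real.pi) * (1 + 1 / 10 * m) - η ≤ 11 / 10 * √(2 / Real.pi) := by
    nlinarith
  by_cases h2 : ∀ j, |g j| ≤ 2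
  · by_cases h4 : 400 ≤ ∑ j, g j ^ 2
    · refine hrhs.trans (le_trans ?_ (ROW_big g h2 h4))
      calc 11 / 10 * √(2 / Real.pi) ≤ 15 / 8 * (√(2 / Real.pi) * √(2 / Real.pi)) := by nlinarith
        _ = 15 / 8 * (2 / Real.pi) := by rw [hc2]
    · push Not at h4
      have hD : 0 < δ ^ 2 := by positivity
      have hKJ := Finset.sum_filter_add_sum_filter_not (Finset.univ : Finset (Fin N))
        (fun j => |g j| ≤ δ) (fun j => |g j|)
      have hKJ2 := Finset.sum_filter_add_sum_filter_not (Finset.univ : Finset (Fin N))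
        (fun j => |g j| ≤ δ) (fun j => g j ^ 2)
      have h5 : (((Finset.univ.filter (fun j => ¬ |g j| ≤ δ)).card : ℕ) : ℝ) * δ ^ 2 ≤ 400 := by
        have e1 : (((Finset.univ.filter (fun j => ¬ |g j| ≤ δ)).card : ℕ) : ℝ) * δ ^ 2 ≤
            ∑ j ∈ Finset.univ.filter (fun j => ¬ |g j| ≤ δ), g j ^ 2 := by
          rw [← nsmul_eq_mul]
          refine Finset.card_nsmul_le_sum _ _ _ fun j hj => ?_
          have e2 : δ < |g j| := not_le.1 (Finset.mem_filter.1 hj).2
          rw [← sq_abs (g j)]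
          nlinarith
        have e3 : 0 ≤ ∑ j ∈ Finset.univ.filter (fun j => |g j| ≤ δ), g j ^ 2 :=
          Finset.sum_nonneg fun j _ => sq_nonneg _
        linarith
      have h6 : ∑ j ∈ Finset.univ.filter (fun j => ¬ |g j| ≤ δ), |g j| ≤
          (((Finset.univ.filter (fun j => ¬ |g j| ≤ δ)).card : ℕ) : ℝ) * 2 := by
        rw [← nsmul_eq_mul]
        exact Finset.sum_le_card_nsmul _ _ _ fun j _ => h2 j
      have h7 : (((Finset.univ.filter (fun j => ¬ |g j| ≤ δ)).card : ℕ) : ℝ) ≤ 400 / δ ^ 2 := by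
        rw [le_div_iff₀ hD]
        exact h5
      have h8 : √(N : ℝ) - 800 / δ ^ 2 ≤ ∑ j ∈ Finset.univ.filter (fun j => |g j| ≤ δ), |g j| := by
        have : 800 / δ ^ 2 = 400 / δ ^ 2 * 2 := by ring
        linarith
      have h9 : 2 * (800 / δ ^ 2) ≤ δ * √(N : ℝ) := by
        have : 2 * (800 / δ ^ 2) = δ * (1600 / δ ^ 3) := by
          field_simp
          ring
        rw [this]
        exact mul_le_mul_of_nonneg_left hsN hδ0.le
      have h10 : (N : ℝ) * (1 - δ) ≤ N * ∑ j ∈ Finset.univ.filter (fun j => |g j| ≤ δ), g j ^ 2 := by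
        refine le_trans ?_ (hcs _)
        have e4 : 0 < 800 / δ ^ 2 := by positivity
        have e5 : 0 ≤ √(N : ℝ) - 800 / δ ^ 2 := by nlinarith
        have e6 : (√(N : ℝ) - 800 / δ ^ 2) ^ 2 ≤
            (∑ j ∈ Finset.univ.filter (fun j => |g j| ≤ δ), |g j|) ^ 2 :=
          pow_le_pow_left₀ e5 h8 2
        refine le_trans ?_ e6
        have e7 : (√(N : ℝ) - 800 / δ ^ 2) ^ 2 = √(N : ℝ) * √(N : ℝ) -
            2 * (800 / δ ^ 2) * √(N : ℝ) + (800 / δ ^ 2) ^ 2 := by ring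
        have e8 : 2 * (800 / δ ^ 2) * √(N : ℝ) ≤ δ * √(N : ℝ) * √(N : ℝ) :=
          mul_le_mul_of_nonneg_right h9 hsN0.le
        have e9 : δ * √(N : ℝ) * √(N : ℝ) = δ * N := by rw [mul_assoc, hsq]
        have e10 : 0 ≤ (800 / δ ^ 2) ^ 2 := sq_nonneg _
        rw [e7, hsq]
        linarith
      have h11 := le_of_mul_le_mul_left h10 hNpos
      have h12 := ROW_main g h2 m (1 - δ) δ hm0 hm1 (by linarith) (by linarith) hδ0 hδ1 hm2 h11
      refine le_trans ?_ h12
      have h13 : 1 - δ ≤ √(1 - δ) := by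
        apply Real.le_sqrt_of_sq_le
        nlinarith
      have h14 : √(2 / Real.pi) * (1 - δ) ≤ √(2 / Real.pi) * √(1 - δ) :=
        mul_le_mul_of_nonneg_left h13 hc0.le
      have h15 : 1 / 10 * √(2 / Real.pi) * m ≤ 2 / Real.pi * (3 / 16 * m) := by
        calc 1 / 10 * √(2 / Real.pi) * m
            ≤ √(2 / Real.pi) * √(2 / Real.pi) * (3 / 16 * m) := by
              nlinarith [mul_nonneg hc0.le hm0]
          _ = 2 / Real.pi * (3 / 16 * m) := by rw [hc2]
      have e1 : 2 / Real.pi * (3 / 16 * m - δ) =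
          2 / Real.pi * (3 / 16 * m) - 2 / Real.pi * δ := by ring
      have e2 : √(2 / Real.pi) * (1 + 1 / 10 * m) =
          √(2 / Real.pi) + 1 / 10 * √(2 / Real.pi) * m := by ring
      have e3 : √(2 / Real.pi) * (1 - δ) = √(2 / Real.pi) - √(2 / Real.pi) * δ := by ring
      have e4 : √(2 / Real.pi) * δ ≤ 1 * δ := mul_le_mul_of_nonneg_right hc1 hδ0.le
      have e5 : 2 / Real.pi * δ ≤ 1 * δ := mul_le_mul_of_nonneg_right hp2 hδ0.le
      linarith
  · push Not at h2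
    obtain ⟨j, hj⟩ := h2
    have h3 := ROW_abs_ge g j
    refine hrhs.trans ?_
    linarith

end Pool.Agent.PCB
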